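import Pool.Agent.Y554.DP.Defs
import Pool.Agent.H12R2.Sep.Defs5

/-!
Project SN: the spectral sample of square crossings of critical bond percolation on `ℤ²`
(sharp noise sensitivity, sharp two-layer arm probabilities, clustering).
Statements of the parts.
-/

set_option autoImplicit false

namespace Pool.Agent.Y554.SN

open H974 H12S H985T H389NS Finset Pool.Agent.Y554.DP

/-! ## sharp noise sensitivity and two-layer arm probabilities -/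

/-- NSS: sharp noise sensitivity. -/
def S_NSS : Prop := ∃ C c : ℝ, 0 < C ∧ 0 < c ∧ ∀ n : ℕ, 1 ≤ n →
    ∀ (p : Edg → ℝ) (S : Finset Edg) (I J I' J' : Set Vtx), DomN p S I J I' J' n →
    ∀ x : ℝ, 0 ≤ x → x < 1 →
      ∑ T ∈ (boxE n).powerset.filter (fun T => ¬ Disjoint T (boxE (n / 2))),
        sp p S (boxE n) (fC I J) T * x ^ T.card ≤
          C * ((1 - x) * (n:ℝ) ^ (3 / 4 : ℝ)) ^ (-c)

/-- A42S: the integrated two-layer four-arm probability, sharp form. -/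
def S_A42S : Prop := ∃ C c : ℝ, 0 < C ∧ 0 < c ∧ ∀ k : ℕ, 1 ≤ k → ∀ x : ℝ,
    0 ≤ x → x < 1 →
    (k:ℝ) ^ 2 * (∫ y in (0:ℝ)..x, a42 y k) ≤ C ∧
    (k:ℝ) ^ 2 * (∫ y in (0:ℝ)..x, a42 y k) ≤ C * ((1 - x) * (k:ℝ) ^ (3 / 4 : ℝ)) ^ (-c)

/-- ASS: sum over an annulus, sharp form. -/
def S_ASS : Prop := ∃ C c : ℝ, 0 < C ∧ 0 < c ∧ ∀ (a' R N' : ℕ) (S : Finset Edg),
    64 ≤ R → a' ≤ R → 2 * R ≤ N' → (∀ e ∈ An R (2 * R), ebx e (R / 8 + 2) ⊆ S) →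
    ∀ x : ℝ, 0 ≤ x → x < 1 →
      ∑ e ∈ An R (2 * R), (∫ y in (0:ℝ)..x,
        P2 (fun e' => if e' ∈ An a' N' then y else 1) S
          (fun F => A4e (R / 8) e ↑F ∨ A4d (R / 8) e F)
          (fun F => A4e (R / 8) e ↑F ∨ A4d (R / 8) e F)) ≤
        C * ((1 - x) * (R:ℝ) ^ (3 / 4 : ℝ)) ^ (-c)

/-- A family of arm events with the exponent `α` (upper bound only, no restriction on `α`). -/
structure ArmG (X : ℕ → ℕ → Set Edg → Prop) (α : ℝ) : Prop where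
  congr : ∀ {a N : ℕ} {F G : Set Edg}, F ∩ ↑(An a N) = G ∩ ↑(An a N) → (X a N F ↔ X a N G)
  inner : ∀ {a b N : ℕ} {F : Set Edg}, a ≤ b → b ≤ N → X a N F → X b N F
  outer : ∀ {a b N : ℕ} {F : Set Edg}, a ≤ b → b ≤ N → X a N F → X a b F
  flip : ∀ {a N b1 b2 κ : ℕ} {e : Edg}, 1 ≤ a → a ≤ b1 → b2 ≤ N → 1 ≤ κ →
    Disjoint (ebx e (κ + 3)) (boxE b1) → ebx e (κ + 3) ⊆ boxE b2 → ∀ {F : Finset Edg},
    ¬ (X a N (↑(insert e F) : Set Edg) ↔ X a N (↑(F.erase e) : Set Edg)) →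
    (A4e κ e (↑F : Set Edg) ∨ A4d κ e F) ∧ X a b1 (↑F : Set Edg) ∧ X b2 N (↑F : Set Edg)
  pos : 0 < α
  upper : ∃ C : ℝ, 0 < C ∧ ∀ a N : ℕ, 1 ≤ a → a ≤ N →
    PQ (1 / 2) (An a N) (fun F => X a N ↑F) ≤ C * ((a:ℝ) / N) ^ α

/-- QXS: sharp two-layer arm probabilities. -/
def S_QXS : Prop := ∀ (X : ℕ → ℕ → Set Edg → Prop) (α : ℝ), ArmG X α →
    ∃ C : ℝ, 0 < C ∧ ∀ (a R : ℕ) (x : ℝ), 1 ≤ a → a ≤ R → 0 ≤ x → x < 1 →
      1 ≤ (1 - x) * (a:ℝ) ^ (3 / 4 : ℝ) → qX X x a R ≤ C * ((a:ℝ) / R) ^ (2 * α)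

/-! ## four arms -/

/-- Four alternating arms: two open crossings of the annulus which are not connected in it. -/
def AF4 (a N : ℕ) (F : Set Edg) : Prop :=
  ∃ u1 u2 v1 v2 : Vtx, onB a u1 ∧ onB a u2 ∧ onB N v1 ∧ onB N v2 ∧
    Reach (F ∩ ↑(An a N)) u1 v1 ∧ Reach (F ∩ ↑(An a N)) u2 v2 ∧
    ¬ Reach (F ∩ ↑(An a N)) u1 u2

/-- AF4 is a family of arm events with exponent `5/4`. -/
def S_AF4 : Prop := ArmG AF4 (5 / 4)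

/-- lower bound -/
def S_AF4L : Prop := ∃ c : ℝ, 0 < c ∧ ∀ a N : ℕ, 1 ≤ a → a ≤ N →
    c * ((a:ℝ) / N) ^ (5 / 4 : ℝ) ≤ PQ (1 / 2) (An a N) (fun F => AF4 a N ↑F)

/-! ## the square -/

/-- left and right sides of the square `[-n, n]²` -/
def Lf (n : ℕ) : Set Vtx := lsd (-(n:ℤ)) (-(n:ℤ)) n
def Rt (n : ℕ) : Set Vtx := lsd (n:ℤ) (-(n:ℤ)) n

/-- the annulus `z + An a N` -/
noncomputable def Anz (z : ℤ × ℤ) (a N : ℕ) : Finset Edg := blk z N \ blk z a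

/-- The configuration in the annulus `z + An a N` permits that the box `z + [-a, a]²` is pivotal
for the left-right crossing of the square `[-n, n]²`. -/
def UE (n : ℕ) (z : ℤ × ℤ) (a N : ℕ) (F : Finset Edg) : Prop :=
  ∃ F' : Finset Edg, F' ⊆ boxE n ∧ F' ∩ Anz z a N = F ∩ Anz z a N ∧
    BPv (Lf n) (Rt n) (blk z a ∩ boxE n) (↑F' : Set Edg)

/-- BULK: annuli inside the square. -/
def S_BULK : Prop := ∃ C : ℝ, 0 < C ∧ ∀ (n a N : ℕ) (z : ℤ × ℤ) (x : ℝ), 1 ≤ a → a ≤ N →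
    |z.1| + N ≤ n → |z.2| + N ≤ n → 0 ≤ x → x < 1 → 1 ≤ (1 - x) * (a:ℝ) ^ (3 / 4 : ℝ) →
    P2 (fun _ => x) (boxE n) (UE n z a N) (UE n z a N) ≤ C * ((a:ℝ) / N) ^ (5 / 2 : ℝ)

/-- SIDE: annuli centred at a point of a side of the square which do not meet the other sides. -/
def S_SIDE : Prop := ∃ C : ℝ, 0 < C ∧ ∀ (n a N : ℕ) (z : ℤ × ℤ) (x : ℝ), 1 ≤ a → a ≤ N →
    ((|z.1| = n ∧ |z.2| + N ≤ n) ∨ (|z.2| = n ∧ |z.1| + N ≤ n)) →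
    0 ≤ x → x < 1 → 1 ≤ (1 - x) * (a:ℝ) ^ (3 / 4 : ℝ) →
    P2 (fun _ => x) (boxE n) (UE n z a N) (UE n z a N) ≤ C * ((a:ℝ) / N) ^ (11 / 6 : ℝ)

/-- COR: annuli centred at a corner of the square. -/
def S_COR : Prop := ∃ C : ℝ, 0 < C ∧ ∀ (n a N : ℕ) (z : ℤ × ℤ), 1 ≤ a → a ≤ N →
    |z.1| = n → |z.2| = n → N ≤ n →
    PQ (1 / 2) (boxE n) (UE n z a N) ≤ C * ((a:ℝ) / N) ^ (2 / 3 : ℝ)

/-! ### the parts of SIDE -/

/-- the right half of the annulus `An a N` (the edges with both ends in `x ≥ 0`) -/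
noncomputable def HA (a N : ℕ) : Finset Edg :=
  (An a N).filter (fun e => 0 ≤ (src e).1 ∧ 0 ≤ (tgt e).1)

/-- An open crossing of the right half of the annulus which is not connected to the line `x = 0` in
the right half of the annulus. -/
def YS (a N : ℕ) (F : Set Edg) : Prop :=
  ∃ u v : Vtx, onB a u ∧ onB N v ∧ Reach (F ∩ ↑(HA a N)) u v ∧
    ∀ w : Vtx, w.1 = 0 → ¬ Reach (F ∩ ↑(HA a N)) u w

/-- YB: two-layer probability of `YS` (by gluing with an open crossing of the left half). -/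
def S_YB : Prop := ∃ C : ℝ, 0 < C ∧ ∀ (a N : ℕ) (x : ℝ), 1 ≤ a → a ≤ N → 0 ≤ x → x < 1 →
    1 ≤ (1 - x) * (a:ℝ) ^ (3 / 4 : ℝ) →
    P2 (fun _ => x) (HA a N) (fun F => YS a N ↑F) (fun F => YS a N ↑F) ≤
      C * ((a:ℝ) / N) ^ (11 / 6 : ℝ)

/-- HO: one-arm probability of a half annulus, lower bound (left half). -/
def S_HO : Prop := ∃ c : ℝ, 0 < c ∧ ∀ a N : ℕ, 1 ≤ a → a ≤ N →
    c * ((a:ℝ) / N) ^ (1 / 3 : ℝ) ≤ PQ (1 / 2) (An a N \ HA a N)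
      (fun F => ∃ u v : Vtx, onB a u ∧ onB N v ∧ u.1 < 0 ∧
        Reach ((↑F : Set Edg) ∩ ↑(An a N \ HA a N)) u v)

/-! ## Fourier analysis -/

/-- the configuration `F` with the part in `B` replaced by `Y` and the part in `B'` by `Z` -/
def rep (B B' F Y Z : Finset Edg) : Finset Edg := (F \ (B ∪ B')) ∪ Y ∪ Z

/-- ONE: sets which meet a block. -/
def S_ONE : Prop := ∀ (V B : Finset Edg) (f : Finset Edg → ℝ) (E : Finset Edg → Prop) (x : ℝ),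
    B ⊆ V → (∀ F, |f F| ≤ 1) → 0 ≤ x → x ≤ 1 →
    (∀ F, F ⊆ V → ¬ E F → ∀ Y Y', Y ⊆ B → Y' ⊆ B → f (F \ B ∪ Y) = f (F \ B ∪ Y')) →
    ∑ T ∈ V.powerset.filter (fun T => ¬ Disjoint T B), (wal V f T) ^ 2 * x ^ T.card ≤
      4 * P2 (fun _ => x) V E E

/-- PAIR: sets which meet two blocks. -/
def S_PAIR : Prop := ∀ (V B B' : Finset Edg) (f : Finset Edg → ℝ) (E : Finset Edg → Prop)
    (x : ℝ), B ⊆ V → B' ⊆ V → Disjoint B B' → (∀ F, |f F| ≤ 1) → 0 ≤ x → x ≤ 1 →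
    (∀ F, F ⊆ V → ¬ E F →
      (∀ Y Y' Z, Y ⊆ B → Y' ⊆ B → Z ⊆ B' → f (rep B B' F Y Z) = f (rep B B' F Y' Z)) ∨
      (∀ Y Z Z', Y ⊆ B → Z ⊆ B' → Z' ⊆ B' → f (rep B B' F Y Z) = f (rep B B' F Y Z'))) →
    ∑ T ∈ V.powerset.filter (fun T => ¬ Disjoint T B ∧ ¬ Disjoint T B'),
      (wal V f T) ^ 2 * x ^ T.card ≤ 16 * P2 (fun _ => x) V E E

/-! ## chains of annuli and sums -/

/-- distance of `c` to the boundary of the square, and to the second nearest pair of sides -/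
def b1 (n : ℕ) (c : ℤ × ℤ) : ℕ := (n - max |c.1| |c.2|).toNat
def b2 (n : ℕ) (c : ℤ × ℤ) : ℕ := (n - min |c.1| |c.2|).toNat

/-- truncated distances -/
def B1 (n : ℕ) (c : ℤ × ℤ) (r D : ℕ) : ℕ := min D (max r (b1 n c))
def B2 (n : ℕ) (c : ℤ × ℤ) (r D : ℕ) : ℕ := min D (max r (b2 n c))

/-- the bound for the chain of annuli around `c` from the radius `r` to the radius `D` -/
noncomputable def qc (n : ℕ) (c : ℤ × ℤ) (r D : ℕ) : ℝ :=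
  ((r:ℝ) / B1 n c r D) ^ (5 / 2 : ℝ) * ((B1 n c r D : ℝ) / B2 n c r D) ^ (11 / 6 : ℝ) *
    ((B2 n c r D : ℝ) / D) ^ (2 / 3 : ℝ)

/-- CHAIN: a local event implied by the pivotality of a block. -/
def S_CHAIN : Prop := ∃ (C : ℝ) (K : ℕ), 0 < C ∧ 1 ≤ K ∧ ∀ (n r D : ℕ) (c : ℤ × ℤ),
    1 ≤ r → r ≤ D → D ≤ n → |c.1| ≤ n → |c.2| ≤ n →
    ∃ Ch : Finset Edg → Prop,
      (∀ F F' : Finset Edg, F ∩ (blk c (K * D) \ blk c r) = F' ∩ (blk c (K * D) \ blk c r) →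
        (Ch F ↔ Ch F')) ∧
      (∀ F : Finset Edg, F ⊆ boxE n →
        BPv (Lf n) (Rt n) (blk c r ∩ boxE n) (↑F : Set Edg) → Ch F) ∧
      (∀ x : ℝ, 0 ≤ x → x < 1 → 1 ≤ (1 - x) * (r:ℝ) ^ (3 / 4 : ℝ) →
        P2 (fun _ => x) (boxE n) Ch Ch ≤ C * qc n c r D)

/-- SUM: sum over the points of the grid of mesh `r` in a window of radius `D`. -/
def S_SUM : Prop := ∃ C : ℝ, 0 < C ∧ ∀ (n r D : ℕ) (w : ℤ × ℤ), 1 ≤ r → r ≤ D → D ≤ n →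
    ∀ G : Finset (ℤ × ℤ), (∀ c ∈ G, |c.1| ≤ n ∧ |c.2| ≤ n ∧ |c.1 - w.1| ≤ D ∧ |c.2 - w.2| ≤ D ∧
      (r:ℤ) ∣ c.1 ∧ (r:ℤ) ∣ c.2) →
    ∑ c ∈ G, qc n c r D ≤ C * ((r:ℝ) / D) ^ (1 / 2 : ℝ)

end Pool.Agent.Y554.SN
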