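import Pool.Agent.Y554.SN.Stm2

/-!
Project SN: lower bounds for the spectral sample of square crossings.
-/

set_option autoImplicit false

namespace Pool.Agent.Y554.SN

open H974 H12S H985T H389NS Finset Pool.Agent.Y554.DP

/-- spectral mass of the crossing of the square -/
noncomputable def wt2 (n : ℕ) (T : Finset Edg) : ℝ := (wal (boxE n) (fC (Lf n) (Rt n)) T) ^ 2

/-- INF: total influence. -/
def S_INF : Prop := ∃ c : ℝ, 0 < c ∧ ∀ n : ℕ, 1 ≤ n →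
    c * (n:ℝ) ^ (3 / 4 : ℝ) ≤
      ∑ e ∈ boxE n, PQ (1 / 2) (boxE n) (fun F => Pv (Lf n) (Rt n) e ↑F)

/-- SUMH: the sums of the square roots of `qc` near the boundary. -/
def S_SUMH : Prop := ∃ C : ℝ, 0 < C ∧ ∀ n r β : ℕ, 1 ≤ r → r ≤ β → β ≤ n →
    ∑ c ∈ (cel r n).filter (fun c => b1 n c ≤ β), (qc n c r n) ^ (1 / 2 : ℝ) ≤
      C * (((β:ℝ) / n) ^ (2 / 3 : ℝ) * ((n:ℝ) / r) ^ (3 / 4 : ℝ))

/-- LT: lower bound for the lower tail of the size of the spectral sample. -/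
def S_LT : Prop := ∃ c : ℝ, 0 < c ∧ ∀ n m : ℕ, 1 ≤ n → 1 ≤ m → (m:ℝ) ≤ (n:ℝ) ^ (3 / 4 : ℝ) →
    c * ((m:ℝ) ^ (2 / 3 : ℝ) * (n:ℝ) ^ (-(1 / 2) : ℝ)) ≤
      ∑ T ∈ (boxE n).powerset.filter (fun T => T ≠ ∅ ∧ T.card ≤ m), wt2 n T

end Pool.Agent.Y554.SN
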