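import Pool.Agent.Y554.SN.Fin
import Pool.Agent.H973R2.Main1

/-! Project SN: the clustering theorem in elementary terms (from the parts). -/

set_option autoImplicit false

namespace Pool.Agent.Y554.SN.Res

open Finset

/-- Vertices of the square lattice. -/
abbrev Vertex := ℤ × ℤ

/-- Edges: `(x, y, true)` joins `(x, y)` to `(x + 1, y)` and `(x, y, false)` joins `(x, y)` to
`(x, y + 1)`. -/
abbrev Edge := ℤ × ℤ × Bool

/-- First endpoint of an edge. -/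
def src (e : Edge) : Vertex := (e.1, e.2.1)

/-- Second endpoint of an edge. -/
def tgt (e : Edge) : Vertex := if e.2.2 then (e.1 + 1, e.2.1) else (e.1, e.2.1 + 1)

/-- `u` and `v` are joined by an edge of `F`. -/
def Adj (F : Set Edge) (u v : Vertex) : Prop :=
  ∃ e ∈ F, (src e = u ∧ tgt e = v) ∨ (src e = v ∧ tgt e = u)

/-- `u` and `v` are joined by a path of edges of `F`. -/
def Conn (F : Set Edge) (u v : Vertex) : Prop := Relation.ReflTransGen (Adj F) u v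

/-- The set `𝓘_n` of the edges in the square `[-n, n]²`. -/
noncomputable def edges (n : ℕ) : Finset Edge :=
  (Icc (-(n : ℤ)) n ×ˢ (Icc (-(n : ℤ)) n ×ˢ univ)).filter
    (fun e => (tgt e).1 ≤ n ∧ (tgt e).2 ≤ n)

/-- Expectation under `P_{1/2}`: a configuration is the set `F ⊆ 𝓘_n` of its open edges. -/
noncomputable def expect (n : ℕ) (h : Finset Edge → ℝ) : ℝ :=
  (∑ F ∈ (edges n).powerset, h F) / 2 ^ (edges n).card

open Classical in
/-- The function `g_n`: indicator of an open path from the left side to the right side. -/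
noncomputable def g (n : ℕ) (F : Finset Edge) : ℝ :=
  if ∃ y y' : ℤ, |y| ≤ n ∧ |y'| ≤ n ∧ Conn (↑F : Set Edge) (-(n : ℤ), y) ((n : ℤ), y') then 1 else 0

/-- The character `χ_S = ∏_{e ∈ S} ω_e`, with `ω_e = 1` if `e` is open and `ω_e = -1` if not. -/
noncomputable def chi (S F : Finset Edge) : ℝ := ∏ e ∈ S, (if e ∈ F then 1 else -1)

/-- The Fourier-Walsh coefficient of `g_n` at `S`. -/
noncomputable def coef (n : ℕ) (S : Finset Edge) : ℝ := expect n (fun F => g n F * chi S F)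

open Classical in
/-- Probability of the event `A` for the spectral sample of `g_n`. -/
noncomputable def specP (n : ℕ) (A : Finset Edge → Prop) : ℝ :=
  ∑ S ∈ (edges n).powerset.filter A, (coef n S) ^ 2 / expect n (fun F => (g n F) ^ 2)

/-- Two open crossings of the annulus between the boundaries of `[-a, a]²` and `[-b, b]²` which
are not connected in it (`F` is the set of the open edges of the annulus). -/
def FourArms (a b : ℕ) (F : Finset Edge) : Prop :=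
  ∃ u u' v v' : Vertex, max |u.1| |u.2| = a ∧ max |u'.1| |u'.2| = a ∧
    max |v.1| |v.2| = b ∧ max |v'.1| |v'.2| = b ∧
    Conn (↑F : Set Edge) u v ∧ Conn (↑F : Set Edge) u' v' ∧ ¬ Conn (↑F : Set Edge) u u'

open Classical in
/-- The four-arm probability `α₄(a, b)`; by the usual convention it is `1` if `b < a`. -/
noncomputable def alpha4 (a b : ℕ) : ℝ :=
  if a ≤ b then
    (((edges b \ edges a).powerset.filter (FourArms a b)).card : ℝ) / 2 ^ (edges b \ edges a).card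
  else 1

/-- `Φ(r, R) = (R / r) α₄(r, R)`. -/
noncomputable def Phi (r R : ℝ) : ℝ := R / r * alpha4 ⌊r⌋₊ ⌊R⌋₊

/-- A vertex as a point of the Euclidean plane. -/
noncomputable def pt (v : Vertex) : EuclideanSpace ℝ (Fin 2) := !₂[(v.1 : ℝ), (v.2 : ℝ)]

/-- The Euclidean diameter of a set of edges. -/
noncomputable def diam (S : Finset Edge) : ℝ :=
  Metric.diam {x : EuclideanSpace ℝ (Fin 2) | ∃ e ∈ S, x = pt (src e) ∨ x = pt (tgt e)}

/-! ### Comparison with the library -/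

open H974 H12S H985T H389NS Pool.Agent.Y554.DP

theorem edges_eq (n : ℕ) : edges n = boxE n := by
  ext ⟨x, y, b⟩
  unfold edges boxE
  rw [mem_filter, mem_product, mem_product, mem_Icc, mem_Icc]
  cases b
  · rw [mem_RE_false]
    unfold tgt
    simp only [mem_univ, and_true, Bool.false_eq_true, if_false]
    omega
  · rw [mem_RE_true]
    unfold tgt
    simp only [mem_univ, and_true, if_true]
    omega

theorem g_eq (n : ℕ) (F : Finset Edge) : g n F = fC (Lf n) (Rt n) F := by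
  have h : (∃ y y' : ℤ, |y| ≤ n ∧ |y'| ≤ n ∧
      Conn (↑F : Set Edge) (-(n : ℤ), y) ((n : ℤ), y')) ↔ Cn (Lf n) (Rt n) (↑F : Set Edg) := by
    constructor
    · rintro ⟨y, y', h1, h2, h3⟩
      rw [abs_le] at h1 h2
      exact ⟨_, ⟨rfl, h1.1, h1.2⟩, _, ⟨rfl, h2.1, h2.2⟩, h3⟩
    · rintro ⟨⟨u1, u2⟩, ⟨h1, h2, h3⟩, ⟨v1, v2⟩, ⟨h4, h5, h6⟩, h7⟩
      simp only at h1 h2 h3 h4 h5 h6
      subst h1 h4
      exact ⟨u2, v2, abs_le.2 ⟨h2, h3⟩, abs_le.2 ⟨h5, h6⟩, h7⟩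
  unfold g fC ind
  by_cases hc : Cn (Lf n) (Rt n) (↑F : Set Edg)
  · rw [if_pos (h.2 hc), if_pos hc]
  · rw [if_neg (fun h' => hc (h.1 h')), if_neg hc]

theorem expect_eq (n : ℕ) (h : Finset Edge → ℝ) : expect n h = Ex hp (boxE n) h := by
  unfold expect
  have h1 : hp = fun _ : Edg => (1 / 2 : ℝ) := rfl
  rw [edges_eq, h1, H973.Ex_half, div_eq_mul_inv, mul_comm, one_div, inv_pow]

theorem chi_eq (S F : Finset Edge) : chi S F = (-1) ^ S.card * H389NS.chi S F := by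
  unfold chi H389NS.chi
  have h1 : ∀ e ∈ S, (if e ∈ F then (1:ℝ) else -1) = -1 * (if e ∈ F then -1 else 1) := by
    intro e _
    split_ifs <;> norm_num
  rw [Finset.prod_congr rfl h1, Finset.prod_mul_distrib, Finset.prod_const]
  congr 1
  rw [Finset.prod_ite, Finset.prod_const, Finset.prod_const_one, mul_one]
  congr 2
  ext e
  rw [mem_filter, mem_inter]
  tauto

theorem coef_sq (n : ℕ) (S : Finset Edge) :
    (coef n S) ^ 2 = (wal (boxE n) (fC (Lf n) (Rt n)) S) ^ 2 := by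
  unfold coef
  rw [expect_eq]
  have h1 : Ex hp (boxE n) (fun F => g n F * chi S F) =
      (-1) ^ S.card * wal (boxE n) (fC (Lf n) (Rt n)) S := by
    unfold wal
    rw [← Ex_mul_left]
    apply Ex_congr
    intro F _
    rw [g_eq, chi_eq]
    ring
  rw [h1, mul_pow, ← pow_mul, mul_comm S.card 2, pow_mul]
  norm_num

theorem expect_half {n : ℕ} (hn : 1 ≤ n) : 1 / 2 ≤ expect n (fun F => (g n F) ^ 2) := by
  rw [expect_eq]
  have h1 : Ex hp (boxE n) (fun F => (g n F) ^ 2) =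
      Ex hp (boxE n) (fun F => fC (Lf n) (Rt n) F) := by
    apply Ex_congr
    intro F _
    rw [g_eq]
    unfold fC
    exact (sq _).trans (ind_sq _)
  rw [h1]
  have hsub : LRE (-(n:ℤ)) n (-(n:ℤ)) n ⊆ boxE n := LRE_subset_RE
  have h2 := pr_LRc (1 / 2) hsub
  have h3 : (n:ℤ) - -(n:ℤ) = ((2 * n : ℕ) : ℤ) := by push_cast; ring
  rw [h3] at h2
  have h4 := hh_square ((2 * n : ℕ) : ℤ) (by omega)
  rw [← h2] at h4
  refine h4.trans ?_
  unfold Pr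
  refine Ex_mono (fun e => by norm_num) (fun F _ => ?_)
  unfold fC
  apply ind_mono
  rintro ⟨y, y', h5, h6, h7⟩
  exact ⟨_, ⟨rfl, h5.1, h5.2⟩, _, ⟨rfl, h6.1, h6.2⟩, h7.mono Set.inter_subset_left⟩

theorem max_onB {a : ℕ} {u : ℤ × ℤ} : max |u.1| |u.2| = (a:ℤ) ↔ onB a u := by
  unfold onB inR
  constructor
  · intro h
    have h1 : |u.1| ≤ a := h ▸ le_max_left _ _
    have h2 : |u.2| ≤ a := h ▸ le_max_right _ _
    rw [abs_le] at h1 h2
    refine ⟨⟨⟨h1.1, h1.2⟩, h2.1, h2.2⟩, ?_⟩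
    rcases max_choice |u.1| |u.2| with h3 | h3
    · rw [h3] at h
      rcases abs_choice u.1 with h4 | h4 <;> omega
    · rw [h3] at h
      rcases abs_choice u.2 with h4 | h4 <;> omega
  · rintro ⟨⟨⟨h1, h2⟩, h3, h4⟩, h5⟩
    have h6 : |u.1| ≤ a := abs_le.2 ⟨h1, h2⟩
    have h7 : |u.2| ≤ a := abs_le.2 ⟨h3, h4⟩
    apply le_antisymm (max_le h6 h7)
    rcases h5 with h5 | h5 | h5 | h5
    · refine le_trans ?_ (le_max_left _ _); rw [h5, abs_neg]; exact le_abs_self _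
    · refine le_trans ?_ (le_max_left _ _); rw [h5]; exact le_abs_self _
    · refine le_trans ?_ (le_max_right _ _); rw [h5, abs_neg]; exact le_abs_self _
    · refine le_trans ?_ (le_max_right _ _); rw [h5]; exact le_abs_self _

theorem alpha4_eq {a b : ℕ} (hab : a ≤ b) :
    alpha4 a b = PQ (1 / 2) (An a b) (fun F => AF4 a b ↑F) := by
  unfold alpha4 PQ Pr
  rw [if_pos hab]
  have e1 : edges b \ edges a = An a b := by rw [edges_eq, edges_eq]; rfl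
  rw [H973.Ex_half, Finset.card_filter, e1]
  push_cast
  rw [div_eq_mul_inv, mul_comm, one_div, inv_pow]
  congr 1
  apply Finset.sum_congr rfl
  intro F hF
  rw [mem_powerset] at hF
  have e2 : (↑F : Set Edg) ∩ ↑(An a b) = ↑F := Set.inter_eq_left.2 (Finset.coe_subset.2 hF)
  have h : FourArms a b F ↔ AF4 a b ↑F := by
    unfold FourArms AF4
    rw [e2]
    simp only [max_onB]
    constructor
    · rintro ⟨u, u', v, v', h1, h2, h3, h4, h5, h6, h7⟩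
      exact ⟨u, u', v, v', h1, h2, h3, h4, h5, h6, h7⟩
    · rintro ⟨u, u', v, v', h1, h2, h3, h4, h5, h6, h7⟩
      exact ⟨u, u', v, v', h1, h2, h3, h4, h5, h6, h7⟩
  unfold ind
  by_cases hc : FourArms a b F
  · rw [if_pos hc, if_pos (h.1 hc)]
  · rw [if_neg hc, if_neg (fun h' => hc (h.2 h'))]

/-- a set of Euclidean diameter `≥ r0` is wide -/
theorem diam_wide {S : Finset Edge} {r0 : ℝ} (h0 : 1 ≤ r0) (h : r0 ≤ diam S) :
    wide (⌊r0⌋₊ / 2) S := by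
  by_contra hw
  have hb : ((⌊r0⌋₊ / 2 : ℕ) : ℝ) ≤ r0 / 2 := by
    have h1 : ((⌊r0⌋₊ / 2 : ℕ) : ℝ) ≤ (⌊r0⌋₊ : ℝ) / 2 := Nat.cast_div_le
    have h2 : (⌊r0⌋₊ : ℝ) ≤ r0 := Nat.floor_le (by linarith)
    linarith
  set d := ⌊r0⌋₊ / 2 with hd
  have hne : ∀ e ∈ S, ∀ e' ∈ S, |e.1 - e'.1| < d ∧ |e.2.1 - e'.2.1| < d := by
    intro e he e' he'
    by_contra hcon
    apply hw
    refine ⟨e, he, e', he', ?_⟩
    rw [not_and_or, not_lt, not_lt] at hcon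
    exact hcon
  have hmax : diam S ≤ r0 * (3 / 4) := by
    unfold diam
    apply Metric.diam_le_of_forall_dist_le (by linarith)
    have key : ∀ u v : Vertex, |u.1 - v.1| ≤ d → |u.2 - v.2| ≤ d →
        dist (pt u) (pt v) ≤ r0 * (3 / 4) := by
      intro u v h1 h2
      rw [EuclideanSpace.dist_eq]
      apply Real.sqrt_le_iff.2
      refine ⟨by linarith, ?_⟩
      rw [Fin.sum_univ_two]
      unfold pt
      simp only [Matrix.cons_val_zero, Matrix.cons_val_one, Real.dist_eq, sq_abs]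
      have h3 : |(u.1:ℝ) - v.1| ≤ d := by exact_mod_cast h1
      have h4 : |(u.2:ℝ) - v.2| ≤ d := by exact_mod_cast h2
      have h5 : ((u.1:ℝ) - v.1) ^ 2 ≤ (d:ℝ) ^ 2 := sq_le_sq' (by linarith [neg_abs_le ((u.1:ℝ) - v.1)])
        ((le_abs_self _).trans h3)
      have h6 : ((u.2:ℝ) - v.2) ^ 2 ≤ (d:ℝ) ^ 2 := sq_le_sq' (by linarith [neg_abs_le ((u.2:ℝ) - v.2)])
        ((le_abs_self _).trans h4)
      have h7 : (d:ℝ) ^ 2 ≤ (r0 / 2) ^ 2 := pow_le_pow_left₀ (by positivity) hb 2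
      nlinarith
    rintro x ⟨e, he, hx⟩ y ⟨e', he', hy⟩
    obtain ⟨g1, g2⟩ := hne e he e' he'
    rw [abs_lt] at g1 g2
    have t1 : (tgt e).1 = e.1 ∨ (tgt e).1 = e.1 + 1 := by unfold tgt; split_ifs <;> simp
    have t2 : (tgt e).2 = e.2.1 ∨ (tgt e).2 = e.2.1 + 1 := by unfold tgt; split_ifs <;> simp
    have t3 : (tgt e').1 = e'.1 ∨ (tgt e').1 = e'.1 + 1 := by unfold tgt; split_ifs <;> simp
    have t4 : (tgt e').2 = e'.2.1 ∨ (tgt e').2 = e'.2.1 + 1 := by unfold tgt; split_ifs <;> simp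
    rcases hx with rfl | rfl <;> rcases hy with rfl | rfl
    · apply key <;> (unfold src; simp only; rw [abs_le]; omega)
    · apply key <;> (unfold src; simp only; rw [abs_le]; omega)
    · apply key <;> (unfold src; simp only; rw [abs_le]; omega)
    · apply key <;> (rw [abs_le]; omega)
  linarith

open Classical in
theorem specP_bound {n : ℕ} (hn : 1 ≤ n) (A B : Finset Edge → Prop) [DecidablePred B]
    (h : ∀ S, A S → B S) : specP n A ≤
      2 * ∑ T ∈ (boxE n).powerset.filter B, (wal (boxE n) (fC (Lf n) (Rt n)) T) ^ 2 := by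
  unfold specP
  have he := expect_half hn
  have e1 : ∀ S : Finset Edge, (coef n S) ^ 2 / expect n (fun F => (g n F) ^ 2) ≤
      2 * (wal (boxE n) (fC (Lf n) (Rt n)) S) ^ 2 := by
    intro S
    rw [coef_sq, div_le_iff₀ (by linarith)]
    nlinarith [sq_nonneg (wal (boxE n) (fC (Lf n) (Rt n)) S)]
  refine (Finset.sum_le_sum (fun S _ => e1 S)).trans ?_
  rw [← Finset.mul_sum]
  refine mul_le_mul_of_nonneg_left ?_ (by norm_num)
  apply Finset.sum_le_sum_of_subset_of_nonneg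
  · intro S hS
    rw [mem_filter, edges_eq] at hS
    rw [mem_filter]
    exact ⟨hS.1, h S hS.2⟩
  · intro S _ _
    exact sq_nonneg _

/-- The theorem, from the parts. -/
theorem main (hch : S_CHAIN) (h1 : S_ONE) (hp : S_PAIR) (hs : S_SUM) (h4 : S_AF4)
    (h4l : S_AF4L) : ∃ C : ℝ, ∀ n : ℕ, 1 ≤ n → ∀ r r0 : ℝ, 1 ≤ r → r ≤ r0 → r ≤ n →
    specP n (fun S => (S.card : ℝ) < r ^ 2 * alpha4 1 ⌊r⌋₊ ∧ r0 ≤ diam S) ≤
      C * (Phi r n ^ 2 * Phi r r0 ^ 2) := by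
  classical
  obtain ⟨C4, hC4, hup⟩ := h4.upper
  obtain ⟨c4, hc4, hlow⟩ := h4l
  obtain ⟨C, hC, H⟩ := fin_bound hch h1 hp hs (4 * C4) (by positivity)
  obtain ⟨L, hL⟩ : ∃ L : ℝ, L = c4 * (1 / 4) := ⟨_, rfl⟩
  have hL0 : 0 < L := by rw [hL]; positivity
  refine ⟨2 * (C * 2) / L ^ 4, ?_⟩
  intro n hn r r0 hr hrr hrn
  have hn0 : (0:ℝ) < n := by exact_mod_cast (by omega : 0 < n)
  have hr0 : 0 < r := by linarith
  have hR0 : 0 < r0 := by linarith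
  obtain ⟨a, ha⟩ : ∃ a, a = ⌊r⌋₊ := ⟨_, rfl⟩
  obtain ⟨b, hb⟩ : ∃ b, b = ⌊r0⌋₊ := ⟨_, rfl⟩
  have ha1 : 1 ≤ a := by rw [ha]; exact Nat.le_floor (by exact_mod_cast hr)
  have hab : a ≤ b := by rw [ha, hb]; exact Nat.floor_le_floor hrr
  have han : a ≤ n := by
    rw [ha]
    exact Nat.floor_le_of_le hrn
  have har : (a:ℝ) ≤ r := by rw [ha]; exact Nat.floor_le hr0.le
  have hra : r ≤ 2 * a := by
    have h2 : r < a + 1 := by rw [ha]; exact Nat.lt_floor_add_one r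
    have h3 : (1:ℝ) ≤ a := by exact_mod_cast ha1
    linarith
  have hbr : (b:ℝ) ≤ r0 := by rw [hb]; exact Nat.floor_le hR0.le
  have hrb : r0 ≤ 2 * b := by
    have h2 : r0 < b + 1 := by rw [hb]; exact Nat.lt_floor_add_one r0
    have h3 : (1:ℝ) ≤ b := by exact_mod_cast (ha1.trans hab)
    linarith
  have ha0 : (0:ℝ) < a := by exact_mod_cast ha1
  have hb0 : (0:ℝ) < b := by exact_mod_cast (ha1.trans hab)
  -- the left side
  have hleft : specP n (fun S => (S.card : ℝ) < r ^ 2 * alpha4 1 ⌊r⌋₊ ∧ r0 ≤ diam S) ≤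
      2 * (C * (((a:ℝ) / n) ^ (1 / 2 : ℝ) * ((a:ℝ) / b) ^ (1 / 2 : ℝ))) := by
    refine (specP_bound hn _ (fun T => wide (b / 2) T ∧
      (T.card : ℝ) ≤ 4 * C4 * (a:ℝ) ^ (3 / 4 : ℝ)) ?_).trans
      (mul_le_mul_of_nonneg_left (H n a b ha1 hab han) (by norm_num))
    rintro S ⟨hS1, hS2⟩
    refine ⟨?_, ?_⟩
    · rw [hb]
      exact diam_wide (hr.trans hrr) hS2
    · refine hS1.le.trans ?_
      have h2 := hup 1 a le_rfl ha1
      rw [← ha, alpha4_eq ha1]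
      have h3 : (((1:ℕ):ℝ) / a) ^ (5 / 4 : ℝ) = (a:ℝ) ^ (-(5 / 4) : ℝ) := by
        rw [Nat.cast_one, one_div, Real.inv_rpow ha0.le, Real.rpow_neg ha0.le]
      rw [h3] at h2
      have h5 : 0 ≤ PQ (1 / 2) (An 1 a) (fun F => AF4 1 a ↑F) :=
        Pr_nonneg (fun e => by norm_num) _ _
      have h6 : r ^ 2 ≤ 4 * (a:ℝ) ^ 2 := by nlinarith
      calc r ^ 2 * PQ (1 / 2) (An 1 a) (fun F => AF4 1 a ↑F)
          ≤ (4 * (a:ℝ) ^ 2) * (C4 * (a:ℝ) ^ (-(5 / 4) : ℝ)) :=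
            mul_le_mul h6 h2 h5 (by positivity)
        _ = 4 * C4 * ((a:ℝ) ^ 2 * (a:ℝ) ^ (-(5 / 4) : ℝ)) := by ring
        _ = 4 * C4 * (a:ℝ) ^ (3 / 4 : ℝ) := by
            rw [← Real.rpow_natCast (a:ℝ) 2, ← Real.rpow_add ha0]
            norm_num
  -- the right side
  have hphi : ∀ (R : ℝ) (k : ℕ), k = ⌊R⌋₊ → a ≤ k → (k:ℝ) ≤ R → 0 < R →
      L * ((a:ℝ) / R) ^ (1 / 4 : ℝ) ≤ Phi r R := by
    intro R k hk hak hkR hR
    have hk0 : (0:ℝ) < k := by exact_mod_cast (by omega : 0 < k)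
    unfold Phi
    rw [← ha, ← hk, alpha4_eq hak]
    have h2 := hlow a k ha1 hak
    have h3 : ((a:ℝ) / R) ^ (5 / 4 : ℝ) ≤ ((a:ℝ) / k) ^ (5 / 4 : ℝ) := by
      apply Real.rpow_le_rpow (by positivity) _ (by norm_num)
      exact div_le_div_of_nonneg_left ha0.le hk0 hkR
    have h4 : ((a:ℝ) / R) ^ (5 / 4 : ℝ) = (a:ℝ) / R * ((a:ℝ) / R) ^ (1 / 4 : ℝ) := by
      rw [show (5 / 4 : ℝ) = 1 + 1 / 4 by norm_num, Real.rpow_add (by positivity),
        Real.rpow_one]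
    have h5 : 1 / 2 ≤ (a:ℝ) / r := by
      rw [div_le_div_iff₀ (by norm_num) hr0]
      linarith
    have h6 : 0 ≤ ((a:ℝ) / R) ^ (1 / 4 : ℝ) := by positivity
    calc L * ((a:ℝ) / R) ^ (1 / 4 : ℝ) ≤ c4 * (1 / 2) * ((a:ℝ) / R) ^ (1 / 4 : ℝ) := by
          rw [hL]
          apply mul_le_mul_of_nonneg_right _ h6
          nlinarith
      _ ≤ c4 * ((a:ℝ) / r) * ((a:ℝ) / R) ^ (1 / 4 : ℝ) := by
          apply mul_le_mul_of_nonneg_right _ h6
          exact mul_le_mul_of_nonneg_left h5 hc4.le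
      _ = R / r * (c4 * ((a:ℝ) / R * ((a:ℝ) / R) ^ (1 / 4 : ℝ))) := by
          field_simp
      _ = R / r * (c4 * ((a:ℝ) / R) ^ (5 / 4 : ℝ)) := by rw [h4]
      _ ≤ R / r * (c4 * ((a:ℝ) / k) ^ (5 / 4 : ℝ)) := by gcongr
      _ ≤ _ := mul_le_mul_of_nonneg_left h2 (by positivity)
  have hn' : n = ⌊(n:ℝ)⌋₊ := (Nat.floor_natCast n).symm
  have p1 := hphi n n hn' han le_rfl hn0
  have p2 := hphi r0 b hb hab hbr hR0
  have sq4 : ∀ t : ℝ, 0 ≤ t → (t ^ (1 / 4 : ℝ)) ^ 2 = t ^ (1 / 2 : ℝ) := by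
    intro t ht
    rw [← Real.rpow_natCast (t ^ (1 / 4 : ℝ)) 2, ← Real.rpow_mul ht]
    norm_num
  have q1 : L ^ 2 * ((a:ℝ) / n) ^ (1 / 2 : ℝ) ≤ Phi r n ^ 2 := by
    calc L ^ 2 * ((a:ℝ) / n) ^ (1 / 2 : ℝ) = (L * ((a:ℝ) / n) ^ (1 / 4 : ℝ)) ^ 2 := by
          rw [mul_pow, sq4 _ (by positivity)]
      _ ≤ _ := pow_le_pow_left₀ (by positivity) p1 2
  have q2 : L ^ 2 * ((a:ℝ) / r0) ^ (1 / 2 : ℝ) ≤ Phi r r0 ^ 2 := by
    calc L ^ 2 * ((a:ℝ) / r0) ^ (1 / 2 : ℝ) = (L * ((a:ℝ) / r0) ^ (1 / 4 : ℝ)) ^ 2 := by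
          rw [mul_pow, sq4 _ (by positivity)]
      _ ≤ _ := pow_le_pow_left₀ (by positivity) p2 2
  have q3 : ((a:ℝ) / b) ^ (1 / 2 : ℝ) ≤ 2 * ((a:ℝ) / r0) ^ (1 / 2 : ℝ) := by
    have h2 : (a:ℝ) / b ≤ 2 * ((a:ℝ) / r0) := by
      rw [← mul_div_assoc, div_le_div_iff₀ hb0 hR0]
      nlinarith
    calc ((a:ℝ) / b) ^ (1 / 2 : ℝ) ≤ (2 * ((a:ℝ) / r0)) ^ (1 / 2 : ℝ) :=
          Real.rpow_le_rpow (by positivity) h2 (by norm_num)
      _ = 2 ^ (1 / 2 : ℝ) * ((a:ℝ) / r0) ^ (1 / 2 : ℝ) := Real.mul_rpow (by norm_num) (by positivity)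
      _ ≤ 2 ^ (1 : ℝ) * ((a:ℝ) / r0) ^ (1 / 2 : ℝ) := by
          apply mul_le_mul_of_nonneg_right _ (by positivity)
          exact Real.rpow_le_rpow_of_exponent_le (by norm_num) (by norm_num)
      _ = _ := by rw [Real.rpow_one]
  refine hleft.trans ?_
  have hL4 : 0 < L ^ 4 := by positivity
  have hx1 : 0 ≤ ((a:ℝ) / n) ^ (1 / 2 : ℝ) := by positivity
  have hx2 : 0 ≤ ((a:ℝ) / r0) ^ (1 / 2 : ℝ) := by positivity
  calc 2 * (C * (((a:ℝ) / n) ^ (1 / 2 : ℝ) * ((a:ℝ) / b) ^ (1 / 2 : ℝ)))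
      ≤ 2 * (C * (((a:ℝ) / n) ^ (1 / 2 : ℝ) * (2 * ((a:ℝ) / r0) ^ (1 / 2 : ℝ)))) := by gcongr
    _ = 2 * (C * 2) / L ^ 4 * ((L ^ 2 * ((a:ℝ) / n) ^ (1 / 2 : ℝ)) *
          (L ^ 2 * ((a:ℝ) / r0) ^ (1 / 2 : ℝ))) := by
        field_simp
    _ ≤ 2 * (C * 2) / L ^ 4 * (Phi r n ^ 2 * Phi r r0 ^ 2) := by
        apply mul_le_mul_of_nonneg_left _ (by positivity)
        exact mul_le_mul q1 q2 (by positivity) (by positivity)

/-- the diameter of a set of edges of the square -/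
theorem diam_le {n : ℕ} (hn : 1 ≤ n) {S : Finset Edge} (hS : S ⊆ edges n) :
    diam S ≤ 3 * n := by
  have hn0 : (1:ℝ) ≤ n := by exact_mod_cast hn
  unfold diam
  apply Metric.diam_le_of_forall_dist_le (by linarith)
  have key : ∀ u v : Vertex, |u.1| ≤ n → |u.2| ≤ n → |v.1| ≤ n → |v.2| ≤ n →
      dist (pt u) (pt v) ≤ 3 * n := by
    intro u v h1 h2 h3 h4
    rw [EuclideanSpace.dist_eq]
    apply Real.sqrt_le_iff.2
    refine ⟨by linarith, ?_⟩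
    rw [Fin.sum_univ_two]
    unfold pt
    simp only [Matrix.cons_val_zero, Matrix.cons_val_one, Real.dist_eq, sq_abs]
    have g1 : |(u.1:ℝ)| ≤ n := by exact_mod_cast h1
    have g2 : |(u.2:ℝ)| ≤ n := by exact_mod_cast h2
    have g3 : |(v.1:ℝ)| ≤ n := by exact_mod_cast h3
    have g4 : |(v.2:ℝ)| ≤ n := by exact_mod_cast h4
    rw [abs_le] at g1 g2 g3 g4
    have h5 : ((u.1:ℝ) - v.1) ^ 2 ≤ (2 * (n:ℝ)) ^ 2 := sq_le_sq' (by linarith) (by linarith)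
    have h6 : ((u.2:ℝ) - v.2) ^ 2 ≤ (2 * (n:ℝ)) ^ 2 := sq_le_sq' (by linarith) (by linarith)
    nlinarith
  have hin : ∀ e ∈ S, |(src e).1| ≤ n ∧ |(src e).2| ≤ n ∧ |(tgt e).1| ≤ n ∧ |(tgt e).2| ≤ n := by
    intro e he
    have h1 := hS he
    unfold edges at h1
    rw [mem_filter, mem_product, mem_product, mem_Icc, mem_Icc] at h1
    obtain ⟨⟨⟨h1, h2⟩, ⟨h3, h4⟩, -⟩, h5, h6⟩ := h1
    have t1 : (tgt e).1 = e.1 ∨ (tgt e).1 = e.1 + 1 := by unfold tgt; split_ifs <;> simp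
    have t2 : (tgt e).2 = e.2.1 ∨ (tgt e).2 = e.2.1 + 1 := by unfold tgt; split_ifs <;> simp
    refine ⟨?_, ?_, ?_, ?_⟩ <;> (try unfold src) <;> rw [abs_le] <;> constructor <;>
      (try simp only) <;> omega
  rintro x ⟨e, he, hx⟩ y ⟨e', he', hy⟩
  obtain ⟨a1, a2, a3, a4⟩ := hin e he
  obtain ⟨b1, b2, b3, b4⟩ := hin e' he'
  rcases hx with rfl | rfl <;> rcases hy with rfl | rfl
  · exact key _ _ a1 a2 b1 b2
  · exact key _ _ a1 a2 b3 b4
  · exact key _ _ a3 a4 b1 b2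
  · exact key _ _ a3 a4 b3 b4

open Classical in
theorem specP_zero {n : ℕ} {A : Finset Edge → Prop} (h : ∀ S, S ⊆ edges n → ¬ A S) :
    specP n A = 0 := by
  unfold specP
  apply Finset.sum_eq_zero
  intro S hS
  rw [mem_filter, mem_powerset] at hS
  exact absurd hS.2 (h S hS.1)

/-- The theorem for all `r ≥ 1`, from the parts. -/
theorem main2 (hch : S_CHAIN) (h1 : S_ONE) (hp : S_PAIR) (hs : S_SUM) (h4 : S_AF4)
    (h4l : S_AF4L) : ∃ C : ℝ, ∀ n : ℕ, 1 ≤ n → ∀ r r0 : ℝ, 1 ≤ r → r ≤ r0 →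
    specP n (fun S => (S.card : ℝ) < r ^ 2 * alpha4 1 ⌊r⌋₊ ∧ r0 ≤ diam S) ≤
      C * (Phi r n ^ 2 * Phi r r0 ^ 2) := by
  classical
  obtain ⟨C, hC⟩ := main hch h1 hp hs h4 h4l
  obtain ⟨c4, hc4, hlow⟩ := h4l
  obtain ⟨L, hL⟩ : ∃ L : ℝ, L = min 1 c4 / 3 := ⟨_, rfl⟩
  have hL0 : 0 < L := by rw [hL]; exact div_pos (lt_min one_pos hc4) (by norm_num)
  have hL1 : L ≤ 1 / 3 := by
    rw [hL]
    have := min_le_left 1 c4
    linarith
  have hL2 : 3 * L ≤ c4 := by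
    rw [hL]
    have := min_le_right 1 c4
    linarith
  have hL3 : 3 * L ≤ 1 := by linarith
  refine ⟨max C (2 / L ^ 8), ?_⟩
  intro n hn r r0 hr hrr
  have hn0 : (0:ℝ) < n := by exact_mod_cast (by omega : 0 < n)
  have hr0 : 0 < r := by linarith
  have hR0 : 0 < r0 := by linarith
  have hRHS : 0 ≤ Phi r n ^ 2 * Phi r r0 ^ 2 := by positivity
  by_cases hrn : r ≤ n
  · refine (hC n hn r r0 hr hrr hrn).trans ?_
    exact mul_le_mul_of_nonneg_right (le_max_left _ _) hRHS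
  push Not at hrn
  refine le_trans ?_ (mul_le_mul_of_nonneg_right (le_max_right C (2 / L ^ 8)) hRHS)
  by_cases h3 : 3 * (n:ℝ) < r0
  · have hz : specP n (fun S => (S.card : ℝ) < r ^ 2 * alpha4 1 ⌊r⌋₊ ∧ r0 ≤ diam S) = 0 := by
      apply specP_zero
      rintro S hS1 ⟨-, hS2⟩
      have := diam_le hn hS1
      linarith
    rw [hz]
    positivity
  push Not at h3
  -- all scales are comparable
  have hPhi1 : L ^ 2 ≤ Phi r n := by
    unfold Phi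
    rw [Nat.floor_natCast]
    have e1 : 1 / 3 ≤ (n:ℝ) / r := by
      rw [div_le_div_iff₀ (by norm_num) hr0]
      linarith
    have e2 : 3 * L ≤ alpha4 ⌊r⌋₊ n := by
      by_cases hfl : ⌊r⌋₊ ≤ n
      · have e3 : ⌊r⌋₊ = n := le_antisymm hfl (Nat.le_floor hrn.le)
        rw [e3, alpha4_eq le_rfl]
        refine hL2.trans ?_
        have := hlow n n hn le_rfl
        rwa [div_self hn0.ne', Real.one_rpow, mul_one] at this
      · unfold alpha4
        rw [if_neg hfl]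
        exact hL3
    calc L ^ 2 ≤ 1 / 3 * (3 * L) := by nlinarith
      _ ≤ (n:ℝ) / r * alpha4 ⌊r⌋₊ n := mul_le_mul e1 e2 (by positivity) (by positivity)
  have hPhi2 : L ^ 2 ≤ Phi r r0 := by
    unfold Phi
    have ha1 : 1 ≤ ⌊r⌋₊ := Nat.le_floor (by exact_mod_cast hr)
    have hab : ⌊r⌋₊ ≤ ⌊r0⌋₊ := Nat.floor_le_floor hrr
    rw [alpha4_eq hab]
    have e1 : 1 ≤ r0 / r := by
      rw [le_div_iff₀ hr0]
      linarith
    have e2 := hlow ⌊r⌋₊ ⌊r0⌋₊ ha1 hab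
    have e3 : (n:ℝ) ≤ ⌊r⌋₊ := by exact_mod_cast Nat.le_floor hrn.le
    have e4 : (⌊r0⌋₊ : ℝ) ≤ 3 * n := (Nat.floor_le hR0.le).trans h3
    have e5 : (0:ℝ) < ⌊r0⌋₊ := by exact_mod_cast (by omega : 0 < ⌊r0⌋₊)
    have e6 : (1:ℝ) / 3 ≤ (⌊r⌋₊ : ℝ) / ⌊r0⌋₊ := by
      rw [div_le_div_iff₀ (by norm_num) e5]
      linarith
    have e7 : (1:ℝ) / 9 ≤ ((⌊r⌋₊ : ℝ) / ⌊r0⌋₊) ^ (5 / 4 : ℝ) := by
      calc (1:ℝ) / 9 = (1 / 3 : ℝ) ^ (2 : ℝ) := by norm_num
        _ ≤ (1 / 3 : ℝ) ^ (5 / 4 : ℝ) :=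
            Real.rpow_le_rpow_of_exponent_ge (by norm_num) (by norm_num) (by norm_num)
        _ ≤ _ := Real.rpow_le_rpow (by norm_num) e6 (by norm_num)
    have e8 : 3 * L * (1 / 9) ≤
        PQ (1 / 2) (An ⌊r⌋₊ ⌊r0⌋₊) (fun F => AF4 ⌊r⌋₊ ⌊r0⌋₊ ↑F) :=
      (mul_le_mul hL2 e7 (by norm_num) hc4.le).trans e2
    calc L ^ 2 ≤ 1 * (3 * L * (1 / 9)) := by nlinarith
      _ ≤ _ := mul_le_mul e1 e8 (by positivity) (by positivity)
  have hleft : specP n (fun S => (S.card : ℝ) < r ^ 2 * alpha4 1 ⌊r⌋₊ ∧ r0 ≤ diam S) ≤ 2 := by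
    refine (specP_bound hn _ (fun T => T = T) (fun _ _ => rfl)).trans ?_
    have := wal_sum_le n (fun T => T = T)
    linarith
  refine hleft.trans ?_
  have q1 : L ^ 4 ≤ Phi r n ^ 2 := by
    calc L ^ 4 = (L ^ 2) ^ 2 := by ring
      _ ≤ _ := pow_le_pow_left₀ (by positivity) hPhi1 2
  have q2 : L ^ 4 ≤ Phi r r0 ^ 2 := by
    calc L ^ 4 = (L ^ 2) ^ 2 := by ring
      _ ≤ _ := pow_le_pow_left₀ (by positivity) hPhi2 2
  have q3 : L ^ 8 ≤ Phi r n ^ 2 * Phi r r0 ^ 2 := by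
    calc L ^ 8 = L ^ 4 * L ^ 4 := by ring
      _ ≤ _ := mul_le_mul q1 q2 (by positivity) (by positivity)
  calc (2:ℝ) = 2 / L ^ 8 * L ^ 8 := by
        have : L ^ 8 ≠ 0 := by positivity
        field_simp
    _ ≤ _ := mul_le_mul_of_nonneg_left q3 (by positivity)

end Pool.Agent.Y554.SN.Res
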