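import Pool.Agent.Y554.SN.Nss
import Pool.Agent.Y554.SN.Res
import Pool.Agent.Y532.SN.A42S
import Pool.Agent.Y785.SN.AS
import Pool.Agent.Y67.SN.QX
import Pool.Agent.Y381.SN.AF4
import Pool.Agent.Y381.SN.Bulk
import Pool.Agent.Y50.SN.Af4L
import Pool.Agent.Y469.SN.YB
import Pool.Agent.Y469.SN.HO
import Pool.Agent.Y185.SN.SideT
import Pool.Agent.Y312.SN.SideL
import Pool.Agent.Y312.SN.Chain
import Pool.Agent.Y993.SN.Cor
import Pool.Agent.Y286.SN.FouF
import Pool.Agent.Y179.SN.Sum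

/-! Project SN: assembly of the parts. -/

set_option autoImplicit false

namespace Pool.Agent.Y554.SN

open H974 H12S H985T H389NS Finset Pool.Agent.Y554.DP

theorem a42S : S_A42S := Y532.SN.a42S nss

theorem annS : S_ASS := Y785.SN.annS a42S

theorem qXS : S_QXS := Y67.SN.qXS annS

theorem bulk' : S_BULK := bulk qXS af4

theorem yb : S_YB := Y469.SN.yb qXS af4 Y469.SN.HOx.ho

theorem side : S_SIDE := by
  obtain ⟨C1, hC1, H1⟩ := Y312.SN.sideLR yb
  obtain ⟨C2, hC2, H2⟩ := Y185.SN.sideTB yb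
  refine ⟨max C1 C2, lt_max_of_lt_left hC1, ?_⟩
  intro n a N z x ha haN hz hx0 hx1 hx
  rcases hz with ⟨h1, h2⟩ | ⟨h1, h2⟩
  · refine (H1 n a N z x ha haN h1 h2 hx0 hx1 hx).trans ?_
    exact mul_le_mul_of_nonneg_right (le_max_left _ _) (by positivity)
  · refine (H2 n a N z x ha haN h1 h2 hx0 hx1 hx).trans ?_
    exact mul_le_mul_of_nonneg_right (le_max_right _ _) (by positivity)

theorem chain : S_CHAIN := Y312.SN.chain bulk' side Y993.SN.cor

end Pool.Agent.Y554.SN
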