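import Pool.Agent.Y554.SN.Stm

/-! Project SN: probability that two blocks and a window are pivotal. -/

set_option autoImplicit false

namespace Pool.Agent.Y554.SN

open H974 H12S H985T H389NS Finset Pool.Agent.Y554.DP

/-- noise-stable spectral mass of `T`, at the noise `r ^ (-3/4)` -/
noncomputable def wtn (n r : ℕ) (T : Finset Edg) : ℝ :=
  (wal (boxE n) (fC (Lf n) (Rt n)) T) ^ 2 * (1 - (r:ℝ) ^ (-(3 / 4) : ℝ)) ^ T.card

theorem xr_bounds {r : ℕ} (hr : 1 ≤ r) : 0 ≤ 1 - (r:ℝ) ^ (-(3 / 4) : ℝ) ∧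
    1 - (r:ℝ) ^ (-(3 / 4) : ℝ) < 1 ∧ 1 - (r:ℝ) ^ (-(3 / 4) : ℝ) ≤ 1 ∧
    ∀ s : ℕ, r ≤ s → 1 ≤ (1 - (1 - (r:ℝ) ^ (-(3 / 4) : ℝ))) * (s:ℝ) ^ (3 / 4 : ℝ) := by
  have hr1 : (1:ℝ) ≤ r := by exact_mod_cast hr
  have hr0 : (0:ℝ) < r := by linarith
  have h1 : (r:ℝ) ^ (-(3 / 4) : ℝ) ≤ 1 := Real.rpow_le_one_of_one_le_of_nonpos hr1 (by norm_num)
  have h2 : 0 < (r:ℝ) ^ (-(3 / 4) : ℝ) := by positivity
  refine ⟨by linarith, by linarith, by linarith, ?_⟩
  intro s hs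
  have h3 : (r:ℝ) ^ (3 / 4 : ℝ) ≤ (s:ℝ) ^ (3 / 4 : ℝ) :=
    Real.rpow_le_rpow hr0.le (by exact_mod_cast hs) (by norm_num)
  have h4 : (r:ℝ) ^ (-(3 / 4) : ℝ) * (r:ℝ) ^ (3 / 4 : ℝ) = 1 := by
    rw [← Real.rpow_add hr0]
    norm_num
  have h5 : 1 - (1 - (r:ℝ) ^ (-(3 / 4) : ℝ)) = (r:ℝ) ^ (-(3 / 4) : ℝ) := by ring
  rw [h5, ← h4]
  exact mul_le_mul_of_nonneg_left h3 h2.le

theorem fC_abs (I J : Set Vtx) (F : Finset Edg) : |fC I J F| ≤ 1 := by
  unfold fC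
  rw [abs_of_nonneg (ind_nonneg _)]
  exact ind_le_one _

theorem blk_bd {c : ℤ × ℤ} {t : ℕ} {e : Edg} (h : e ∈ blk c t) :
    c.1 - t ≤ e.1 ∧ e.1 ≤ c.1 + t ∧ c.2 - t ≤ e.2.1 ∧ e.2.1 ≤ c.2 + t := by
  unfold blk at h
  obtain ⟨x, y, _ | _⟩ := e
  · rw [mem_RE_false] at h
    simp only
    omega
  · rw [mem_RE_true] at h
    simp only
    omega

theorem blk_subset {c c' : ℤ × ℤ} {a b : ℕ} (h1 : |c'.1 - c.1| + a ≤ b)
    (h2 : |c'.2 - c.2| + a ≤ b) : blk c' a ⊆ blk c b := by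
  unfold blk
  have i1 := abs_le.1 (le_refl |c'.1 - c.1|)
  have i2 := abs_le.1 (le_refl |c'.2 - c.2|)
  apply RE_subset <;> omega

theorem BPv_mono2 {I J : Set Vtx} {b b' : Finset Edg} (h : b ⊆ b') {F : Set Edg}
    (hF : BPv I J b F) : BPv I J b' F := by
  have hb : (↑b : Set Edg) ⊆ ↑b' := Finset.coe_subset.2 h
  refine ⟨Cn_mono (Set.union_subset_union_right _ hb) hF.1, fun h2 => hF.2 (Cn_mono ?_ h2)⟩
  exact Set.sdiff_subset_sdiff_right hb

/-- if the value depends on the block then the block is pivotal -/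
theorem piv_of_ne {I J : Set Vtx} {B F F' : Finset Edg} (h : F \ B = F' \ B)
    (hne : fC I J F ≠ fC I J F') : BPv I J B (↑F : Set Edg) := by
  have hs : (↑F : Set Edg) \ ↑B = (↑F' : Set Edg) \ ↑B := by
    rw [← Finset.coe_sdiff, ← Finset.coe_sdiff, h]
  have hu : (↑F : Set Edg) ∪ ↑B = (↑F' : Set Edg) ∪ ↑B := by
    rw [← Set.sdiff_union_self, hs, Set.sdiff_union_self]
  by_contra hb
  apply hne
  unfold fC
  have hcase : ¬ Cn I J ((↑F : Set Edg) ∪ ↑B) ∨ Cn I J ((↑F : Set Edg) \ ↑B) := by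
    unfold BPv at hb
    tauto
  rcases hcase with h1 | h1
  · have a1 : ¬ Cn I J (↑F : Set Edg) := fun h => h1 (Cn_mono Set.subset_union_left h)
    have a2 : ¬ Cn I J (↑F' : Set Edg) := by
      intro h
      rw [hu] at h1
      exact h1 (Cn_mono Set.subset_union_left h)
    rw [ind_not_of a1, ind_not_of a2]
  · have a1 : Cn I J (↑F : Set Edg) := Cn_mono Set.sdiff_subset h1
    have a2 : Cn I J (↑F' : Set Edg) := by
      rw [hs] at h1
      exact Cn_mono Set.sdiff_subset h1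
    rw [ind_of a1, ind_of a2]

theorem rep_inter {B B' F Y Z X : Finset Edg} (hY : Y ⊆ B) (hZ : Z ⊆ B')
    (h1 : ∀ e ∈ X, e ∉ B) (h2 : ∀ e ∈ X, e ∉ B') : rep B B' F Y Z ∩ X = F ∩ X := by
  ext e
  unfold rep
  by_cases hX : e ∈ X
  · have a1 := h1 e hX
    have a2 := h2 e hX
    have a3 : e ∉ Y := fun h => a1 (hY h)
    have a4 : e ∉ Z := fun h => a2 (hZ h)
    simp [hX, a1, a2, a3, a4]
  · simp [hX]

theorem rep_sdiff {B B' F Y Z X : Finset Edg} (hY : Y ⊆ B) (hZ : Z ⊆ B')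
    (h1 : B ⊆ X) (h2 : B' ⊆ X) : rep B B' F Y Z \ X = F \ X := by
  ext e
  unfold rep
  by_cases hX : e ∈ X
  · simp [hX]
  · have a1 : e ∉ B := fun h => hX (h1 h)
    have a2 : e ∉ B' := fun h => hX (h2 h)
    have a3 : e ∉ Y := fun h => a1 (hY h)
    have a4 : e ∉ Z := fun h => a2 (hZ h)
    simp [hX, a1, a2, a3, a4]

theorem rep_subset {B B' F Y Z V : Finset Edg} (hF : F ⊆ V) (hY : Y ⊆ V) (hZ : Z ⊆ V) :
    rep B B' F Y Z ⊆ V := by
  unfold rep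
  exact union_subset (union_subset (sdiff_subset.trans hF) hY) hZ

theorem rep_eqY {B B' F Y Y' Z : Finset Edg} (hY : Y ⊆ B) (hY' : Y' ⊆ B) :
    rep B B' F Y Z \ B = rep B B' F Y' Z \ B := by
  ext e
  unfold rep
  by_cases hX : e ∈ B
  · simp [hX]
  · have a3 : e ∉ Y := fun h => hX (hY h)
    have a4 : e ∉ Y' := fun h => hX (hY' h)
    simp [hX, a3, a4]

theorem rep_eqZ {B B' F Y Z Z' : Finset Edg} (hZ : Z ⊆ B') (hZ' : Z' ⊆ B') :
    rep B B' F Y Z \ B' = rep B B' F Y Z' \ B' := by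
  ext e
  unfold rep
  by_cases hX : e ∈ B'
  · simp [hX]
  · have a3 : e ∉ Z := fun h => hX (hZ h)
    have a4 : e ∉ Z' := fun h => hX (hZ' h)
    simp [hX, a3, a4]

theorem inter_of_sub {F V S X : Finset Edg} (hF : F ⊆ V) (h : ∀ e ∈ X, e ∈ V → e ∈ S) :
    F ∩ X = (F ∩ S) ∩ X := by
  ext e
  simp only [mem_inter]
  constructor
  · rintro ⟨a, b⟩
    exact ⟨⟨a, h e b (hF a)⟩, b⟩
  · rintro ⟨⟨a, _⟩, b⟩
    exact ⟨a, b⟩

theorem sdiff_of_sub {F V S X : Finset Edg} (hF : F ⊆ V) (h : ∀ e ∈ V, e ∉ X → e ∈ S) :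
    F \ X = (F ∩ S) \ X := by
  ext e
  simp only [mem_inter, mem_sdiff]
  constructor
  · rintro ⟨a, b⟩
    exact ⟨⟨a, h e (hF a) b⟩, b⟩
  · rintro ⟨⟨a, _⟩, b⟩
    exact ⟨a, b⟩

/-- two blocks and a window -/
theorem two_bound (hch : S_CHAIN) (hp : S_PAIR) : ∃ (C : ℝ) (K : ℕ), 0 < C ∧ 1 ≤ K ∧
    ∀ (n r D : ℕ) (c c' w : ℤ × ℤ), 1 ≤ r → 64 * (K * r) ≤ D → D ≤ 4 * n →
      |c.1| ≤ n → |c.2| ≤ n → |c'.1| ≤ n → |c'.2| ≤ n → |w.1| ≤ n → |w.2| ≤ n →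
      |c.1 - w.1| ≤ 4 * D → |c.2 - w.2| ≤ 4 * D → |c'.1 - w.1| ≤ 4 * D → |c'.2 - w.2| ≤ 4 * D →
      ((D:ℤ) ≤ 2 * |c.1 - c'.1| ∨ (D:ℤ) ≤ 2 * |c.2 - c'.2|) →
      ∑ T ∈ (boxE n).powerset.filter (fun T => ¬ Disjoint T (blk c r ∩ boxE n) ∧
          ¬ Disjoint T (blk c' r ∩ boxE n)), wtn n r T ≤
        C * (qc n c r (D / (8 * K)) * qc n c' r (D / (8 * K)) *
          (if 5 * D ≤ n then qc n w (5 * D) n else 1)) := by
  obtain ⟨C0, K, hC0, hK, hch⟩ := hch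
  refine ⟨16 * (C0 * C0 * max C0 1), K, by positivity, hK, ?_⟩
  intro n r D c c' w hr hD hDn hc1 hc2 hc1' hc2' hw1 hw2 hcw1 hcw2 hcw1' hcw2' hfar
  obtain ⟨D1, hD1⟩ : ∃ D1, D1 = D / (8 * K) := ⟨_, rfl⟩
  rw [← hD1]
  obtain ⟨hx0, hx1, hx1', hxs⟩ := xr_bounds hr
  set x : ℝ := 1 - (r:ℝ) ^ (-(3 / 4) : ℝ) with hx
  have hKr : r ≤ K * r := Nat.le_mul_of_pos_left _ (by omega)
  have hKD : 8 * (K * D1) ≤ D := by
    rw [hD1]
    calc 8 * (K * (D / (8 * K))) = (8 * K) * (D / (8 * K)) := by ring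
      _ ≤ D := Nat.mul_div_le _ _
  have hD1r : r ≤ D1 := by
    rw [hD1, Nat.le_div_iff_mul_le (by omega)]
    calc r * (8 * K) = 8 * (K * r) := by ring
      _ ≤ D := by omega
  have hKD1 : D1 ≤ K * D1 := Nat.le_mul_of_pos_left _ (by omega)
  have hD1n : D1 ≤ n := by omega
  obtain ⟨E1, hE1l, hE1p, hE1b⟩ := hch n r D1 c hr hD1r hD1n hc1 hc2
  obtain ⟨E2, hE2l, hE2p, hE2b⟩ := hch n r D1 c' hr hD1r hD1n hc1' hc2'
  have hE1b := hE1b x hx0 hx1 (hxs r le_rfl)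
  have hE2b := hE2b x hx0 hx1 (hxs r le_rfl)
  -- the window
  obtain ⟨E3, hE3l, hE3p, hE3b⟩ : ∃ E3 : Finset Edg → Prop,
      (∀ F F' : Finset Edg, F \ blk w (5 * D) = F' \ blk w (5 * D) → (E3 F ↔ E3 F')) ∧
      (∀ F : Finset Edg, F ⊆ boxE n →
        BPv (Lf n) (Rt n) (blk w (5 * D) ∩ boxE n) (↑F : Set Edg) → E3 F) ∧
      P2 (fun _ => x) (boxE n) E3 E3 ≤ max C0 1 * (if 5 * D ≤ n then qc n w (5 * D) n else 1) := by
    by_cases h5 : 5 * D ≤ n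
    · obtain ⟨E3, h1, h2, h3⟩ := hch n (5 * D) n w (by omega) h5 le_rfl hw1 hw2
      refine ⟨E3, ?_, h2, ?_⟩
      · intro F F' h
        apply h1
        ext e
        have h9 : e ∈ F \ blk w (5 * D) ↔ e ∈ F' \ blk w (5 * D) := by rw [h]
        rw [mem_sdiff, mem_sdiff] at h9
        rw [mem_inter, mem_inter, mem_sdiff]
        clear h1 h2 h3
        tauto
      · rw [if_pos h5]
        refine (h3 x hx0 hx1 (hxs _ (by omega))).trans ?_
        have hq : 0 ≤ qc n w (5 * D) n := by unfold qc; positivity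
        exact mul_le_mul_of_nonneg_right (le_max_left _ _) hq
    · refine ⟨fun _ => True, fun _ _ _ => Iff.rfl, fun _ _ _ => trivial, ?_⟩
      rw [if_neg h5, mul_one]
      have h1 := P2_le_Pr (ρ := fun _ : Edg => x) (S := boxE n) (fun _ _ => ⟨hx0, hx1'⟩)
        (fun _ => True) (fun _ => True)
      refine h1.trans ((Pr_le_one ?_ _ _).trans (le_max_right _ _))
      intro e
      unfold H389NS.hp
      norm_num
  -- geometry
  have hdisj : ∀ e : Edg, e ∈ blk c (K * D1) → e ∉ blk c' (K * D1) := by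
    intro e h1 h2
    have h1 := blk_bd h1
    have h2 := blk_bd h2
    rcases hfar with h | h
    · have h3 : |c.1 - c'.1| ≤ 2 * ((K * D1 : ℕ) : ℤ) := by rw [abs_le]; omega
      omega
    · have h3 : |c.2 - c'.2| ≤ 2 * ((K * D1 : ℕ) : ℤ) := by rw [abs_le]; omega
      omega
  have hb1 : blk c r ⊆ blk c (K * D1) := blk_subset (by simp; omega) (by simp; omega)
  have hb2 : blk c' r ⊆ blk c' (K * D1) := blk_subset (by simp; omega) (by simp; omega)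
  have hw1' : blk c (K * D1) ⊆ blk w (5 * D) := blk_subset (by push_cast at *; omega)
    (by push_cast at *; omega)
  have hw2' : blk c' (K * D1) ⊆ blk w (5 * D) := blk_subset (by push_cast at *; omega)
    (by push_cast at *; omega)
  -- the pair inequality
  have hpair := hp (boxE n) (blk c r ∩ boxE n) (blk c' r ∩ boxE n) (fC (Lf n) (Rt n))
    (fun F => E1 F ∧ (E2 F ∧ E3 F)) x inter_subset_right inter_subset_right ?_
    (fun F => fC_abs _ _ F) hx0 hx1' ?_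
  rotate_left
  · rw [Finset.disjoint_left]
    intro e h1 h2
    exact hdisj e (hb1 (mem_inter.1 h1).1) (hb2 (mem_inter.1 h2).1)
  · intro F hF hE
    have key1 : ∀ Y Y' Z, Y ⊆ blk c r ∩ boxE n → Y' ⊆ blk c r ∩ boxE n →
        Z ⊆ blk c' r ∩ boxE n →
        fC (Lf n) (Rt n) (rep (blk c r ∩ boxE n) (blk c' r ∩ boxE n) F Y Z) ≠
        fC (Lf n) (Rt n) (rep (blk c r ∩ boxE n) (blk c' r ∩ boxE n) F Y' Z) →
        E1 F ∧ E3 F := by
      intro Y Y' Z hY hY' hZ hne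
      have hsub : rep (blk c r ∩ boxE n) (blk c' r ∩ boxE n) F Y Z ⊆ boxE n :=
        rep_subset hF (hY.trans inter_subset_right) (hZ.trans inter_subset_right)
      have hpiv := piv_of_ne (B := blk c r ∩ boxE n) (rep_eqY hY hY') hne
      constructor
      · refine (hE1l _ _ ?_).1 (hE1p _ hsub hpiv)
        refine rep_inter hY hZ ?_ ?_
        · intro e he h
          exact (mem_sdiff.1 he).2 (mem_inter.1 h).1
        · intro e he h
          exact hdisj e (mem_sdiff.1 he).1 (hb2 (mem_inter.1 h).1)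
      · refine (hE3l _ _ ?_).1 (hE3p _ hsub (BPv_mono2 ?_ hpiv))
        · exact rep_sdiff hY hZ (inter_subset_left.trans (hb1.trans hw1'))
            (inter_subset_left.trans (hb2.trans hw2'))
        · exact inter_subset_inter_right (hb1.trans hw1')
    have key2 : ∀ Y Z Z', Y ⊆ blk c r ∩ boxE n → Z ⊆ blk c' r ∩ boxE n →
        Z' ⊆ blk c' r ∩ boxE n →
        fC (Lf n) (Rt n) (rep (blk c r ∩ boxE n) (blk c' r ∩ boxE n) F Y Z) ≠
        fC (Lf n) (Rt n) (rep (blk c r ∩ boxE n) (blk c' r ∩ boxE n) F Y Z') →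
        E2 F := by
      intro Y Z Z' hY hZ hZ' hne
      have hsub : rep (blk c r ∩ boxE n) (blk c' r ∩ boxE n) F Y Z ⊆ boxE n :=
        rep_subset hF (hY.trans inter_subset_right) (hZ.trans inter_subset_right)
      have hpiv := piv_of_ne (B := blk c' r ∩ boxE n) (rep_eqZ hZ hZ') hne
      refine (hE2l _ _ ?_).1 (hE2p _ hsub hpiv)
      refine rep_inter hY hZ ?_ ?_
      · intro e he h
        exact hdisj e (hb1 (mem_inter.1 h).1) (mem_sdiff.1 he).1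
      · intro e he h
        exact (mem_sdiff.1 he).2 (mem_inter.1 h).1
    by_cases h2 : E2 F
    · left
      intro Y Y' Z hY hY' hZ
      by_contra hne
      obtain ⟨h1, h3⟩ := key1 Y Y' Z hY hY' hZ hne
      exact hE ⟨h1, h2, h3⟩
    · right
      intro Y Z Z' hY hZ hZ'
      by_contra hne
      exact h2 (key2 Y Z Z' hY hZ hZ' hne)
  -- independence
  have hi1 : P2 (fun _ => x) (boxE n) (fun F => E1 F ∧ (E2 F ∧ E3 F))
      (fun F => E1 F ∧ (E2 F ∧ E3 F)) = P2 (fun _ => x) (boxE n) E1 E1 *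
      P2 (fun _ => x) (boxE n) (fun F => E2 F ∧ E3 F) (fun F => E2 F ∧ E3 F) := by
    have hA : ∀ F, F ⊆ boxE n → (E1 F ↔ E1 (F ∩ (blk c (K * D1) ∩ boxE n))) := by
      intro F hF
      apply hE1l
      exact inter_of_sub hF (fun e h1 h2 => mem_inter.2 ⟨(mem_sdiff.1 h1).1, h2⟩)
    have hB : ∀ F, F ⊆ boxE n → ((E2 F ∧ E3 F) ↔
        (E2 (F ∩ (boxE n \ blk c (K * D1))) ∧ E3 (F ∩ (boxE n \ blk c (K * D1))))) := by
      intro F hF
      apply and_congr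
      · apply hE2l
        exact inter_of_sub hF (fun e h1 h2 => mem_sdiff.2
          ⟨h2, fun h3 => hdisj e h3 (mem_sdiff.1 h1).1⟩)
      · apply hE3l
        exact sdiff_of_sub hF (fun e h1 h2 => mem_sdiff.2 ⟨h1, fun h3 => h2 (hw1' h3)⟩)
    refine P2_indep (S := blk c (K * D1) ∩ boxE n) (T := boxE n \ blk c (K * D1))
      inter_subset_right sdiff_subset ?_ hA hA hB hB
    rw [Finset.disjoint_left]
    intro e h1 h2
    exact (mem_sdiff.1 h2).2 (mem_inter.1 h1).1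
  have hi2 : P2 (fun _ => x) (boxE n) (fun F => E2 F ∧ E3 F) (fun F => E2 F ∧ E3 F) =
      P2 (fun _ => x) (boxE n) E2 E2 * P2 (fun _ => x) (boxE n) E3 E3 := by
    have hA : ∀ F, F ⊆ boxE n → (E2 F ↔ E2 (F ∩ (blk c' (K * D1) ∩ boxE n))) := by
      intro F hF
      apply hE2l
      exact inter_of_sub hF (fun e h1 h2 => mem_inter.2 ⟨(mem_sdiff.1 h1).1, h2⟩)
    have hB : ∀ F, F ⊆ boxE n → (E3 F ↔ E3 (F ∩ (boxE n \ blk c' (K * D1)))) := by
      intro F hF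
      apply hE3l
      exact sdiff_of_sub hF (fun e h1 h2 => mem_sdiff.2 ⟨h1, fun h3 => h2 (hw2' h3)⟩)
    refine P2_indep (S := blk c' (K * D1) ∩ boxE n) (T := boxE n \ blk c' (K * D1))
      inter_subset_right sdiff_subset ?_ hA hA hB hB
    rw [Finset.disjoint_left]
    intro e h1 h2
    exact (mem_sdiff.1 h2).2 (mem_inter.1 h1).1
  rw [hi1, hi2] at hpair
  have hn0 : ∀ E : Finset Edg → Prop, 0 ≤ P2 (fun _ => x) (boxE n) E E := fun E =>
    D0.P2_nonneg (fun _ _ => ⟨hx0, hx1'⟩) _ _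
  have hq1 : 0 ≤ qc n c r D1 := by unfold qc; positivity
  have hq2 : 0 ≤ qc n c' r D1 := by unfold qc; positivity
  have hfin : P2 (fun _ => x) (boxE n) E1 E1 * (P2 (fun _ => x) (boxE n) E2 E2 *
      P2 (fun _ => x) (boxE n) E3 E3) ≤ (C0 * qc n c r D1) * ((C0 * qc n c' r D1) *
      (max C0 1 * (if 5 * D ≤ n then qc n w (5 * D) n else 1))) := by
    refine mul_le_mul hE1b ?_ (mul_nonneg (hn0 _) (hn0 _)) (by positivity)
    exact mul_le_mul hE2b hE3b (hn0 _) (by positivity)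
  unfold wtn
  calc _ ≤ _ := hpair
    _ ≤ 16 * ((C0 * qc n c r D1) * ((C0 * qc n c' r D1) *
      (max C0 1 * (if 5 * D ≤ n then qc n w (5 * D) n else 1)))) :=
        mul_le_mul_of_nonneg_left hfin (by norm_num)
    _ = _ := by ring

/-- one block -/
theorem one_bound (hch : S_CHAIN) (h1 : S_ONE) : ∃ C : ℝ, 0 < C ∧
    ∀ (n r : ℕ) (c : ℤ × ℤ), 1 ≤ r → r ≤ n → |c.1| ≤ n → |c.2| ≤ n →
      ∑ T ∈ (boxE n).powerset.filter (fun T => ¬ Disjoint T (blk c r ∩ boxE n)), wtn n r T ≤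
        C * qc n c r n := by
  obtain ⟨C0, K, hC0, hK, hch⟩ := hch
  refine ⟨4 * C0, by positivity, ?_⟩
  intro n r c hr hrn hc1 hc2
  obtain ⟨hx0, hx1, hx1', hxs⟩ := xr_bounds hr
  set x : ℝ := 1 - (r:ℝ) ^ (-(3 / 4) : ℝ) with hx
  obtain ⟨E1, hE1l, hE1p, hE1b⟩ := hch n r n c hr hrn le_rfl hc1 hc2
  have hE1b := hE1b x hx0 hx1 (hxs r le_rfl)
  have h := h1 (boxE n) (blk c r ∩ boxE n) (fC (Lf n) (Rt n)) E1 x inter_subset_right
    (fun F => fC_abs _ _ F) hx0 hx1' ?_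
  · unfold wtn
    calc _ ≤ _ := h
      _ ≤ 4 * (C0 * qc n c r n) := mul_le_mul_of_nonneg_left hE1b (by norm_num)
      _ = _ := by ring
  · intro F hF hE Y Y' hY hY'
    by_contra hne
    apply hE
    have hsub : F \ (blk c r ∩ boxE n) ∪ Y ⊆ boxE n := by
      intro e he
      simp only [mem_union, mem_sdiff] at he
      rcases he with he | he
      · exact hF he.1
      · exact (mem_inter.1 (hY he)).2
    have hpiv := piv_of_ne (B := blk c r ∩ boxE n) (F := F \ (blk c r ∩ boxE n) ∪ Y)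
      (F' := F \ (blk c r ∩ boxE n) ∪ Y') (by
      ext e
      by_cases hX : e ∈ blk c r ∩ boxE n
      · rw [mem_sdiff, mem_sdiff]
        exact ⟨fun h => absurd hX h.2, fun h => absurd hX h.2⟩
      · have a3 : e ∉ Y := fun h => hX (hY h)
        have a4 : e ∉ Y' := fun h => hX (hY' h)
        rw [mem_sdiff, mem_sdiff, mem_union, mem_union]
        exact ⟨fun h => ⟨Or.inl (h.1.resolve_right a3), h.2⟩,
          fun h => ⟨Or.inl (h.1.resolve_right a4), h.2⟩⟩) hne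
    refine (hE1l _ _ ?_).1 (hE1p _ hsub hpiv)
    ext e
    rw [mem_inter, mem_inter, mem_union, mem_sdiff]
    constructor
    · rintro ⟨h1 | h1, h2⟩
      · exact ⟨h1.1, h2⟩
      · exact absurd (mem_inter.1 (hY h1)).1 (mem_sdiff.1 h2).2
    · rintro ⟨h1, h2⟩
      exact ⟨Or.inl ⟨h1, fun h3 => (mem_sdiff.1 h2).2 (mem_inter.1 h3).1⟩, h2⟩

end Pool.Agent.Y554.SN
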