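import Pool.Agent.Y554.SN.Stm

/-!
Project SN: the parts of the sharp noise sensitivity (doubling argument).
-/

set_option autoImplicit false

namespace Pool.Agent.Y554.SN

open H974 H12S H985T H389NS Finset Pool.Agent.Y554.DP

/-- Probability that the block `b` is pivotal in both layers, when the configuration in `W \ b` is
resampled, `W` being a random subset of `V` of density `h`. -/
noncomputable def aB (p : Edg → ℝ) (S V : Finset Edg) (I J : Set Vtx) (b : Finset Edg)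
    (h : ℝ) : ℝ :=
  Ex (fun _ => h) V (fun W => UA p S (W \ b) (fun F => BPv I J b ↑F))

/-- Part of the noise-stable spectral mass which meets the square of radius `ρ`. -/
noncomputable def phi (p : Edg → ℝ) (S : Finset Edg) (I J : Set Vtx) (n ρ : ℕ) (h : ℝ) : ℝ :=
  ∑ T ∈ (boxE n).powerset.filter (fun T => ¬ Disjoint T (boxE ρ)),
    sp p S (boxE n) (fC I J) T * (1 - h) ^ T.card

/-- The points of the grid of mesh `g` at distance at most `ρ` of the origin. -/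
noncomputable def cel (g ρ : ℕ) : Finset (ℤ × ℤ) :=
  (Finset.Icc (-(ρ:ℤ)) ρ ×ˢ Finset.Icc (-(ρ:ℤ)) ρ).filter
    (fun c => (g:ℤ) ∣ c.1 ∧ (g:ℤ) ∣ c.2)

/-- Sum over the cells of mesh `g` around the square of radius `n / 2`. -/
noncomputable def mm (p : Edg → ℝ) (S : Finset Edg) (I J : Set Vtx) (n g : ℕ) (h : ℝ) : ℝ :=
  ∑ c ∈ cel g (n / 2 + 2 * g), aB p S (boxE n) I J (blk c (3 * g)) h

/-- AB: basic properties of `aB`. -/
def S_AB : Prop := ∀ (p : Edg → ℝ), Ok p → ∀ (S V : Finset Edg) (I J : Set Vtx), V ⊆ S →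
    (∀ (b b' : Finset Edg) (h : ℝ), b ⊆ b' → 0 ≤ h → h ≤ 1 →
      aB p S V I J b h ≤ aB p S V I J b' h) ∧
    (∀ (b : Finset Edg) (h h' : ℝ), 0 ≤ h → h ≤ h' → h' ≤ 1 →
      aB p S V I J b h' ≤ aB p S V I J b h) ∧
    (∀ (b : Finset Edg) (h : ℝ), 0 ≤ h → h ≤ 1 →
      0 ≤ aB p S V I J b h ∧ aB p S V I J b h ≤ 1) ∧
    ((∀ e ∈ V, p e = 1 / 2) → ∀ (b : Finset Edg) (h : ℝ), b ⊆ V → 0 ≤ h → h ≤ 1 →
      ∑ T ∈ V.powerset.filter (fun T => ¬ Disjoint T b),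
        sp p S V (fC I J) T * (1 - h) ^ T.card ≤ aB p S V I J b h)

/-- UUA: resampling more decreases the second moment. -/
def S_UUA : Prop := ∀ (p : Edg → ℝ), Ok p → ∀ (S W W' : Finset Edg) (f : Finset Edg → ℝ),
    W ⊆ W' → W' ⊆ S → UU p S W' f ≤ UU p S W f

/-- FM: first moment of the spectral sample in a doubling block. -/
def S_FM : Prop := ∀ K : ℝ, 1 ≤ K → ∃ (A r0 : ℕ) (c4 c5 : ℝ), 1 ≤ A ∧ 1 ≤ r0 ∧ 0 < c4 ∧
    c4 ≤ 1 ∧ 0 < c5 ∧ ∀ r : ℕ, r0 ≤ r → ∀ (p : Edg → ℝ) (S : Finset Edg) (I J I' J' : Set Vtx)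
      (c : ℤ × ℤ), DomB p S I J I' J' c (16 * (A * r)) → ∀ V : Finset Edg, V ⊆ S →
      (∀ e ∈ V, p e = 1 / 2) → blk c (16 * (A * r)) ⊆ V → ∀ h : ℝ, 0 ≤ h → h ≤ 1 →
      h * ((A * r : ℕ) : ℝ) ^ (3 / 4 : ℝ) ≤ c4 →
      aB p S V I J (blk c (16 * (A * r))) h ≤ K * aB p S V I J (blk c (A * r - 1)) h →
      c5 * ((A * r : ℕ) : ℝ) ^ (3 / 4 : ℝ) * aB p S V I J (blk c (16 * (A * r))) h ≤
        ∑ T ∈ V.powerset,
          sp p S V (fC I J) T * (1 - h) ^ T.card * ((T ∩ blk c (A * r)).card : ℝ)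

/-- STEP: one step of the recursion. -/
def S_STEP : Prop := ∃ (A r0 : ℕ) (δ lam c4 : ℝ), 1 ≤ A ∧ 1 ≤ r0 ∧ 0 < δ ∧ δ < 1 ∧ 0 < lam ∧
    lam < 1 ∧ 0 < c4 ∧ c4 ≤ 1 ∧ ∀ (n r g : ℕ), r0 ≤ r → g = A * r → n / 2 + 66 * g ≤ n →
    ∀ (p : Edg → ℝ) (S : Finset Edg) (I J I' J' : Set Vtx), DomN p S I J I' J' n →
    ∀ h h' : ℝ, h = c4 * ((4 * g : ℕ) : ℝ) ^ (-(3 / 4) : ℝ) →
      h' = c4 * ((256 * g : ℕ) : ℝ) ^ (-(3 / 4) : ℝ) →
      phi p S I J n (n / 2 + g) h ≤ mm p S I J n g h ∧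
      phi p S I J n (n / 2 + g) h ≤ phi p S I J n (n / 2 + 64 * g) h' ∧
      mm p S I J n g h ≤ 4096 * mm p S I J n (64 * g) h' ∧
      (mm p S I J n g h ≤ δ * mm p S I J n (64 * g) h' ∨
        phi p S I J n (n / 2 + g) h ≤ lam * phi p S I J n (n / 2 + 64 * g) h')

end Pool.Agent.Y554.SN
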