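import Pool.Agent.Y554.SN.Asm1
import Pool.Agent.Y554.SN.Stm2

/-! Project SN: sums over pairs of blocks. -/

set_option autoImplicit false

namespace Pool.Agent.Y554.SN

open H974 H12S H985T H389NS Finset Pool.Agent.Y554.DP

/-- `T` has two edges at sup-distance at least `d` -/
def wide (d : ℕ) (T : Finset Edg) : Prop :=
  ∃ e ∈ T, ∃ e' ∈ T, (d:ℤ) ≤ |e.1 - e'.1| ∨ (d:ℤ) ≤ |e.2.1 - e'.2.1|

/-- union bound -/
theorem union_bd {ι : Type*} [DecidableEq ι] {P : Finset (Finset Edg)} {μ : Finset Edg → ℝ}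
    (hμ : ∀ T ∈ P, 0 ≤ μ T) (Q : Finset Edg → Prop) (s : Finset ι)
    (R : ι → Finset Edg → Prop) [DecidablePred Q] [∀ i, DecidablePred (R i)]
    (h : ∀ T ∈ P, Q T → ∃ i ∈ s, R i T) :
    ∑ T ∈ P.filter Q, μ T ≤ ∑ i ∈ s, ∑ T ∈ P.filter (R i), μ T := by
  simp_rw [Finset.sum_filter]
  rw [Finset.sum_comm]
  apply Finset.sum_le_sum
  intro T hT
  by_cases hQ : Q T
  · rw [if_pos hQ]
    obtain ⟨i, hi, hR⟩ := h T hT hQ
    have h1 := Finset.single_le_sum (f := fun i => if R i T then μ T else 0)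
      (fun j _ => by
        by_cases hj : R j T
        · simp only [if_pos hj]; exact hμ T hT
        · simp only [if_neg hj]; exact le_rfl) hi
    simp only [if_pos hR] at h1
    exact h1
  · rw [if_neg hQ]
    apply Finset.sum_nonneg
    intro j _
    split_ifs
    · exact hμ T hT
    · exact le_rfl

/-- the grid point next to `x`, rounded towards `0` -/
def rd (g x : ℤ) : ℤ := x.tdiv g * g

theorem rd_dvd (g x : ℤ) : g ∣ rd g x := Dvd.intro_left _ rfl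

theorem rd_near {g x : ℤ} (hg : 0 < g) : |x - rd g x| < g ∧ |rd g x| ≤ |x| := by
  unfold rd
  have h1 : x.tdiv g * g = x - x.tmod g := by
    have := Int.tdiv_mul_add_tmod x g
    linarith
  rw [h1]
  rcases le_total 0 x with h | h
  · have h2 := Int.tmod_nonneg g h
    have h3 := Int.tmod_lt_of_pos x hg
    have h4 : x.tmod g ≤ x := by
      have := Int.tdiv_nonneg h hg.le
      have h5 := Int.tdiv_mul_add_tmod x g
      nlinarith
    constructor
    · rw [abs_lt]; omega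
    · rw [abs_of_nonneg h, abs_of_nonneg (by omega)]; omega
  · have e : x.tmod g = -((-x).tmod g) := by rw [Int.neg_tmod]; ring
    have h0 : 0 ≤ -x := by omega
    have h2 := Int.tmod_nonneg g h0
    have h3 := Int.tmod_lt_of_pos (-x) hg
    have h4 : (-x).tmod g ≤ -x := by
      have := Int.tdiv_nonneg h0 hg.le
      have h5 := Int.tdiv_mul_add_tmod (-x) g
      nlinarith
    constructor
    · rw [abs_lt]; omega
    · rw [abs_of_nonpos h, abs_of_nonpos (by omega)]; omega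

/-- the grid point next to the edge -/
def rdE (g : ℕ) (e : Edg) : ℤ × ℤ := (rd g e.1, rd g e.2.1)

theorem rdE_mem {g n : ℕ} (hg : 1 ≤ g) {e : Edg} (he : e ∈ boxE n) :
    e ∈ blk (rdE g e) g ∧ rdE g e ∈ cel g n := by
  have hg' : (0:ℤ) < g := by omega
  obtain ⟨h1, h2⟩ := rd_near (x := e.1) hg'
  obtain ⟨h3, h4⟩ := rd_near (x := e.2.1) hg'
  obtain ⟨x, y, b⟩ := e
  have hb := mem_boxE_bounds he
  simp only at h1 h2 h3 h4
  rw [abs_lt] at h1 h3
  constructor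
  · unfold blk rdE
    cases b
    · rw [mem_RE_false]; simp only; omega
    · rw [mem_RE_true]; simp only; omega
  · unfold cel rdE
    rw [mem_filter, mem_product, mem_Icc, mem_Icc]
    have h5 : |x| ≤ n := by rw [abs_le]; omega
    have h6 : |y| ≤ n := by rw [abs_le]; omega
    have h7 := abs_le.1 (h2.trans h5)
    have h8 := abs_le.1 (h4.trans h6)
    exact ⟨⟨h7, h8⟩, rd_dvd _ _, rd_dvd _ _⟩

theorem mem_cel {g ρ : ℕ} {c : ℤ × ℤ} : c ∈ cel g ρ ↔ (|c.1| ≤ ρ ∧ |c.2| ≤ ρ) ∧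
    ((g:ℤ) ∣ c.1 ∧ (g:ℤ) ∣ c.2) := by
  unfold cel
  rw [mem_filter, mem_product, mem_Icc, mem_Icc, abs_le, abs_le]

theorem wtn_nonneg {n r : ℕ} (hr : 1 ≤ r) (T : Finset Edg) : 0 ≤ wtn n r T := by
  unfold wtn
  exact mul_nonneg (sq_nonneg _) (pow_nonneg (xr_bounds hr).1 _)

theorem qc_nonneg (n : ℕ) (c : ℤ × ℤ) (r D : ℕ) : 0 ≤ qc n c r D := by unfold qc; positivity

/-- a larger window -/
theorem sum_window (hs : S_SUM) (L : ℕ) : ∃ C : ℝ, 0 < C ∧ ∀ (n r D D' : ℕ) (w : ℤ × ℤ), 1 ≤ r →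
    r ≤ D → D ≤ n → D' ≤ L * D → ∀ G : Finset (ℤ × ℤ), (∀ c ∈ G, |c.1| ≤ n ∧ |c.2| ≤ n ∧
      |c.1 - w.1| ≤ D' ∧ |c.2 - w.2| ≤ D' ∧ (r:ℤ) ∣ c.1 ∧ (r:ℤ) ∣ c.2) →
    ∑ c ∈ G, qc n c r D ≤ C * ((r:ℝ) / D) ^ (1 / 2 : ℝ) := by
  obtain ⟨C, hC, hs⟩ := hs
  refine ⟨(2 * L + 1) ^ 2 * C, by positivity, ?_⟩
  intro n r D D' w hr hrD hDn hD' G hG
  have hD0 : (0:ℤ) < D := by omega
  set P : Finset (ℤ × ℤ) := Finset.Icc (-(L:ℤ)) L ×ˢ Finset.Icc (-(L:ℤ)) L with hP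
  have h1 : ∑ c ∈ G, qc n c r D ≤ ∑ z ∈ P, ∑ c ∈ G.filter (fun c =>
      |c.1 - (w.1 + z.1 * D)| ≤ D ∧ |c.2 - (w.2 + z.2 * D)| ≤ D), qc n c r D := by
    simp_rw [Finset.sum_filter]
    rw [Finset.sum_comm]
    apply Finset.sum_le_sum
    intro c hc
    obtain ⟨-, -, h3, h4, -, -⟩ := hG c hc
    obtain ⟨a1, a2⟩ := rd_near (x := c.1 - w.1) hD0
    obtain ⟨a3, a4⟩ := rd_near (x := c.2 - w.2) hD0
    have hDL : (D':ℤ) ≤ L * D := by exact_mod_cast hD'
    have hb : ∀ t : ℤ, |rd D t| ≤ D' → -(L:ℤ) ≤ t.tdiv D ∧ t.tdiv D ≤ L := by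
      intro t ht
      unfold rd at ht
      rw [abs_le] at ht
      constructor
      · by_contra hcon
        push Not at hcon
        have : t.tdiv D + 1 ≤ -(L:ℤ) := hcon
        nlinarith
      · by_contra hcon
        push Not at hcon
        have : (L:ℤ) + 1 ≤ t.tdiv D := hcon
        nlinarith
    have hz : ((c.1 - w.1).tdiv D, (c.2 - w.2).tdiv D) ∈ P := by
      rw [hP, mem_product, mem_Icc, mem_Icc]
      exact ⟨hb _ (a2.trans h3), hb _ (a4.trans h4)⟩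
    have h5 := Finset.single_le_sum (f := fun z : ℤ × ℤ => if |c.1 - (w.1 + z.1 * D)| ≤ D ∧
      |c.2 - (w.2 + z.2 * D)| ≤ D then qc n c r D else 0) (fun z _ => by
        split_ifs
        · exact qc_nonneg _ _ _ _
        · exact le_rfl) hz
    refine le_trans (le_of_eq ?_) h5
    simp only
    rw [if_pos]
    unfold rd at a1 a3
    rw [abs_lt] at a1 a3
    constructor
    · rw [abs_le]; omega
    · rw [abs_le]; omega
  refine h1.trans ?_
  have h2 : ∀ z ∈ P, ∑ c ∈ G.filter (fun c =>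
      |c.1 - (w.1 + z.1 * D)| ≤ D ∧ |c.2 - (w.2 + z.2 * D)| ≤ D), qc n c r D ≤
      C * ((r:ℝ) / D) ^ (1 / 2 : ℝ) := by
    intro z _
    apply hs n r D (w.1 + z.1 * D, w.2 + z.2 * D) hr hrD hDn
    intro c hc
    rw [mem_filter] at hc
    obtain ⟨a1, a2, -, -, a5, a6⟩ := hG c hc.1
    exact ⟨a1, a2, hc.2.1, hc.2.2, a5, a6⟩
  refine (Finset.sum_le_sum h2).trans (le_of_eq ?_)
  rw [Finset.sum_const, nsmul_eq_mul, hP, Finset.card_product, Int.card_Icc]
  have h3 : ((L:ℤ) + 1 - -(L:ℤ)).toNat = 2 * L + 1 := by omega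
  rw [h3]
  push_cast
  ring

/-- comparison of the inner radii -/
theorem qc_inner {n : ℕ} {w : ℤ × ℤ} {D : ℕ} (hD : 1 ≤ D) (hDn : 5 * D ≤ n) :
    qc n w (5 * D) n ≤ 5 ^ (5 / 2 : ℝ) * qc n w D n := by
  have key : ∀ r : ℕ, 1 ≤ r → r ≤ n → qc n w r n =
      (r:ℝ) ^ (5 / 2 : ℝ) * (B1 n w r n : ℝ) ^ (-(2 / 3) : ℝ) *
        (B2 n w r n : ℝ) ^ (-(7 / 6) : ℝ) * (n:ℝ) ^ (-(2 / 3) : ℝ) := by
    intro r hr hrn
    have h1 : (0:ℝ) < r := by exact_mod_cast hr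
    have h2 : (0:ℝ) < B1 n w r n := by
      have : 1 ≤ B1 n w r n := by unfold B1; omega
      exact_mod_cast this
    have h3 : (0:ℝ) < B2 n w r n := by
      have : 1 ≤ B2 n w r n := by unfold B2; omega
      exact_mod_cast this
    have h4 : (0:ℝ) < n := by
      have : 1 ≤ n := by omega
      exact_mod_cast this
    unfold qc
    rw [Real.div_rpow h1.le h2.le, Real.div_rpow h2.le h3.le, Real.div_rpow h3.le h4.le]
    have e1 : (B1 n w r n : ℝ) ^ (-(2 / 3) : ℝ) =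
        (B1 n w r n : ℝ) ^ (11 / 6 : ℝ) / (B1 n w r n : ℝ) ^ (5 / 2 : ℝ) := by
      rw [← Real.rpow_sub h2]
      norm_num
    have e2 : (B2 n w r n : ℝ) ^ (-(7 / 6) : ℝ) =
        (B2 n w r n : ℝ) ^ (2 / 3 : ℝ) / (B2 n w r n : ℝ) ^ (11 / 6 : ℝ) := by
      rw [← Real.rpow_sub h3]
      norm_num
    rw [e1, e2, Real.rpow_neg h4.le]
    ring
  have hD0 : (0:ℝ) < D := by exact_mod_cast hD
  have h5 : (0:ℝ) < B1 n w D n := by
    have : 1 ≤ B1 n w D n := by unfold B1; omega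
    exact_mod_cast this
  have h6 : (0:ℝ) < B2 n w D n := by
    have : 1 ≤ B2 n w D n := by unfold B2; omega
    exact_mod_cast this
  have h7 : (B1 n w D n : ℝ) ≤ B1 n w (5 * D) n := by
    have : B1 n w D n ≤ B1 n w (5 * D) n := by unfold B1; omega
    exact_mod_cast this
  have h8 : (B2 n w D n : ℝ) ≤ B2 n w (5 * D) n := by
    have : B2 n w D n ≤ B2 n w (5 * D) n := by unfold B2; omega
    exact_mod_cast this
  rw [key (5 * D) (by omega) hDn, key D hD (by omega)]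
  have h9 := Real.rpow_le_rpow_of_nonpos h5 h7 (show (-(2 / 3) : ℝ) ≤ 0 by norm_num)
  have h10 := Real.rpow_le_rpow_of_nonpos h6 h8 (show (-(7 / 6) : ℝ) ≤ 0 by norm_num)
  have h11 : ((5 * D : ℕ) : ℝ) ^ (5 / 2 : ℝ) = 5 ^ (5 / 2 : ℝ) * (D:ℝ) ^ (5 / 2 : ℝ) := by
    push_cast
    rw [Real.mul_rpow (by norm_num) hD0.le]
  rw [h11]
  calc _ ≤ 5 ^ (5 / 2 : ℝ) * (D:ℝ) ^ (5 / 2 : ℝ) * (B1 n w D n : ℝ) ^ (-(2 / 3) : ℝ) *
        (B2 n w D n : ℝ) ^ (-(7 / 6) : ℝ) * (n:ℝ) ^ (-(2 / 3) : ℝ) := by gcongr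
    _ = _ := by ring

/-- one scale of the distance -/
theorem scale_bound (hch : S_CHAIN) (hp : S_PAIR) (hs : S_SUM) : ∃ (C : ℝ) (K : ℕ), 0 < C ∧
    1 ≤ K ∧ ∀ (n r D : ℕ), 1 ≤ r → 64 * (K * r) ≤ D → D ≤ 2 * n →
      ∑ T ∈ (boxE n).powerset.filter (fun T => ∃ e ∈ T, ∃ e' ∈ T,
          ((D:ℤ) ≤ |e.1 - e'.1| ∨ (D:ℤ) ≤ |e.2.1 - e'.2.1|) ∧ |e.1 - e'.1| ≤ 2 * (D:ℤ) ∧
          |e.2.1 - e'.2.1| ≤ 2 * (D:ℤ)), wtn n r T ≤
        C * (((D:ℝ) / n) ^ (1 / 2 : ℝ) * ((r:ℝ) / D)) := by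
  classical
  obtain ⟨C1, K, hC1, hK, H⟩ := two_bound hch hp
  obtain ⟨C2, hC2, HW⟩ := sum_window hs (64 * K)
  obtain ⟨C3, hC3, HS⟩ := hs
  refine ⟨C1 * (C2 ^ 2 * (16 * K)) * (5 ^ (5 / 2 : ℝ) * C3 + 363), K, by positivity, hK, ?_⟩
  intro n r D hr hD hDn
  have hKr : r ≤ K * r := Nat.le_mul_of_pos_left _ (by omega)
  obtain ⟨D1, hD1⟩ : ∃ D1, D1 = D / (8 * K) := ⟨_, rfl⟩
  have hKD : (8 * K) * D1 ≤ D := by rw [hD1]; exact Nat.mul_div_le _ _
  have hKD2 : D < (8 * K) * (D1 + 1) := by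
    rw [hD1]
    exact Nat.lt_mul_div_succ _ (by omega)
  have hD1r : r ≤ D1 := by
    rw [hD1, Nat.le_div_iff_mul_le (by omega)]
    calc r * (8 * K) = 8 * (K * r) := by ring
      _ ≤ D := by omega
  have hKD1 : D1 ≤ K * D1 := Nat.le_mul_of_pos_left _ (by omega)
  have h8 : (8 * K) * D1 = 8 * (K * D1) := by ring
  have hD1n : D1 ≤ n := by omega
  have hKD3 : D ≤ (16 * K) * D1 := by
    calc D ≤ (8 * K) * (D1 + 1) := hKD2.le
      _ ≤ (8 * K) * (D1 + D1) := Nat.mul_le_mul_left _ (by omega)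
      _ = (16 * K) * D1 := by ring
  have hn1 : 1 ≤ n := by omega
  have hDpos : 1 ≤ D := by omega
  have hr0 : (0:ℝ) < r := by exact_mod_cast hr
  have hn0 : (0:ℝ) < n := by exact_mod_cast hn1
  have hD0 : (0:ℝ) < D := by exact_mod_cast hDpos
  have hD10 : (0:ℝ) < D1 := by exact_mod_cast (by omega : 0 < D1)
  -- near points
  set near : ℤ × ℤ → Finset (ℤ × ℤ) := fun w => (cel r n).filter
    (fun c => |c.1 - w.1| ≤ ((4 * D : ℕ) : ℤ) ∧ |c.2 - w.2| ≤ ((4 * D : ℕ) : ℤ)) with hnear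
  -- union bound
  have hU : ∑ T ∈ (boxE n).powerset.filter (fun T => ∃ e ∈ T, ∃ e' ∈ T,
          ((D:ℤ) ≤ |e.1 - e'.1| ∨ (D:ℤ) ≤ |e.2.1 - e'.2.1|) ∧ |e.1 - e'.1| ≤ 2 * (D:ℤ) ∧
          |e.2.1 - e'.2.1| ≤ 2 * (D:ℤ)), wtn n r T ≤
      ∑ w ∈ cel D n, ∑ c ∈ near w, ∑ c' ∈ near w, C1 * (qc n c r D1 * qc n c' r D1 *
          (if 5 * D ≤ n then qc n w (5 * D) n else 1)) := by
    refine (union_bd (ι := (ℤ × ℤ) × (ℤ × ℤ) × (ℤ × ℤ)) (fun T _ => wtn_nonneg hr T) _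
      ((cel D n).sigma (fun w => (near w).product (near w)) |>.image
        (fun z => (z.1, z.2.1, z.2.2)) |>.filter (fun z => (D:ℤ) ≤ 2 * |z.2.1.1 - z.2.2.1| ∨
          (D:ℤ) ≤ 2 * |z.2.1.2 - z.2.2.2|))
      (fun z T => ¬ Disjoint T (blk z.2.1 r ∩ boxE n) ∧ ¬ Disjoint T (blk z.2.2 r ∩ boxE n))
      ?_).trans ?_
    · intro T hT ⟨e, he, e', he', h1, h2, h3⟩
      rw [mem_powerset] at hT
      have m1 := rdE_mem hr (hT he)
      have m2 := rdE_mem hr (hT he')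
      have m3 := rdE_mem hDpos (hT he)
      have hr' : (0:ℤ) < r := by omega
      have hD' : (0:ℤ) < D := by omega
      obtain ⟨a1, -⟩ := rd_near (x := e.1) hr'
      obtain ⟨a2, -⟩ := rd_near (x := e.2.1) hr'
      obtain ⟨a3, -⟩ := rd_near (x := e'.1) hr'
      obtain ⟨a4, -⟩ := rd_near (x := e'.2.1) hr'
      obtain ⟨a5, -⟩ := rd_near (x := e.1) hD'
      obtain ⟨a6, -⟩ := rd_near (x := e.2.1) hD'
      rw [abs_lt] at a1 a2 a3 a4 a5 a6
      refine ⟨(rdE D e, rdE r e, rdE r e'), ?_, ?_, ?_⟩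
      · rw [mem_filter, mem_image]
        refine ⟨⟨⟨rdE D e, (rdE r e, rdE r e')⟩, ?_, rfl⟩, ?_⟩
        · rw [mem_sigma]
          refine ⟨m3.2, ?_⟩
          have g1 : rdE r e ∈ near (rdE D e) := by
            rw [hnear, mem_filter]
            refine ⟨m1.2, ?_⟩
            unfold rdE
            simp only
            rw [abs_le, abs_le]
            push_cast
            omega
          have g2 : rdE r e' ∈ near (rdE D e) := by
            rw [hnear, mem_filter]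
            refine ⟨m2.2, ?_⟩
            unfold rdE
            simp only
            rw [abs_le] at h2 h3
            rw [abs_le, abs_le]
            push_cast
            omega
          exact mem_product.2 ⟨g1, g2⟩
        · unfold rdE
          simp only
          rcases h1 with h1 | h1
          · left
            rw [le_abs] at h1
            rcases h1 with h1 | h1
            · have := le_abs_self (rd r e.1 - rd r e'.1)
              omega
            · have := neg_le_abs (rd r e.1 - rd r e'.1)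
              omega
          · right
            rw [le_abs] at h1
            rcases h1 with h1 | h1
            · have := le_abs_self (rd r e.2.1 - rd r e'.2.1)
              omega
            · have := neg_le_abs (rd r e.2.1 - rd r e'.2.1)
              omega
      · rw [Finset.not_disjoint_iff]
        exact ⟨e, he, mem_inter.2 ⟨m1.1, hT he⟩⟩
      · rw [Finset.not_disjoint_iff]
        exact ⟨e', he', mem_inter.2 ⟨m2.1, hT he'⟩⟩
    · have hb : ∀ z ∈ ((cel D n).sigma (fun w => (near w).product (near w)) |>.image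
        (fun z => (z.1, z.2.1, z.2.2)) |>.filter (fun z => (D:ℤ) ≤ 2 * |z.2.1.1 - z.2.2.1| ∨
          (D:ℤ) ≤ 2 * |z.2.1.2 - z.2.2.2|)), ∑ T ∈ (boxE n).powerset.filter
          (fun T => ¬ Disjoint T (blk z.2.1 r ∩ boxE n) ∧ ¬ Disjoint T (blk z.2.2 r ∩ boxE n)),
          wtn n r T ≤ C1 * (qc n z.2.1 r D1 * qc n z.2.2 r D1 *
          (if 5 * D ≤ n then qc n z.1 (5 * D) n else 1)) := by
        intro z hz
        rw [mem_filter, mem_image] at hz
        obtain ⟨⟨y, hy, rfl⟩, hfar⟩ := hz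
        rw [mem_sigma] at hy
        obtain ⟨y1, y2⟩ := hy
        obtain ⟨y2, y3⟩ := mem_product.1 y2
        rw [hnear, mem_filter, mem_cel] at y2 y3
        rw [mem_cel] at y1
        have := H n r D y.2.1 y.2.2 y.1 hr hD (by omega) y2.1.1.1 y2.1.1.2 y3.1.1.1 y3.1.1.2
          y1.1.1 y1.1.2 (by exact_mod_cast y2.2.1) (by exact_mod_cast y2.2.2)
          (by exact_mod_cast y3.2.1) (by exact_mod_cast y3.2.2) hfar
        rw [← hD1] at this
        exact this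
      refine (Finset.sum_le_sum hb).trans ?_
      have hnn : ∀ z : (ℤ × ℤ) × (ℤ × ℤ) × (ℤ × ℤ), 0 ≤ C1 * (qc n z.2.1 r D1 *
          qc n z.2.2 r D1 * (if 5 * D ≤ n then qc n z.1 (5 * D) n else 1)) := by
        intro z
        have h1 := qc_nonneg n z.2.1 r D1
        have h2 := qc_nonneg n z.2.2 r D1
        have h3 : (0:ℝ) ≤ (if 5 * D ≤ n then qc n z.1 (5 * D) n else 1) := by
          split_ifs
          · exact qc_nonneg _ _ _ _
          · norm_num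
        positivity
      refine (Finset.sum_le_sum_of_subset_of_nonneg (Finset.filter_subset _ _)
        (fun z _ _ => hnn z)).trans ?_
      rw [Finset.sum_image (by
        rintro ⟨a1, a2, a3⟩ _ ⟨b1, b2, b3⟩ _ h
        simp only [Prod.mk.injEq] at h
        obtain ⟨rfl, rfl, rfl⟩ := h
        rfl), Finset.sum_sigma]
      apply le_of_eq
      apply Finset.sum_congr rfl
      intro w _
      exact Finset.sum_product _ _ _
  refine hU.trans ?_
  -- the window sums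
  have hwin : ∀ w ∈ cel D n, ∑ c ∈ near w, ∑ c' ∈ near w, C1 * (qc n c r D1 * qc n c' r D1 *
          (if 5 * D ≤ n then qc n w (5 * D) n else 1)) ≤
      C1 * (C2 ^ 2 * (16 * K)) * ((r:ℝ) / D) *
        (if 5 * D ≤ n then qc n w (5 * D) n else 1) := by
    intro w _
    have h1 : ∑ c ∈ near w, ∑ c' ∈ near w, C1 * (qc n c r D1 * qc n c' r D1 *
          (if 5 * D ≤ n then qc n w (5 * D) n else 1)) =
        C1 * (∑ c ∈ near w, qc n c r D1) ^ 2 * (if 5 * D ≤ n then qc n w (5 * D) n else 1) := by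
      rw [sq, Finset.sum_mul_sum, Finset.mul_sum, Finset.sum_mul]
      apply Finset.sum_congr rfl
      intro c _
      rw [Finset.mul_sum, Finset.sum_mul]
      apply Finset.sum_congr rfl
      intro c' _
      ring
    rw [h1]
    have h2 : ∑ c ∈ near w, qc n c r D1 ≤ C2 * ((r:ℝ) / D1) ^ (1 / 2 : ℝ) := by
      apply HW n r D1 (4 * D) w hr hD1r hD1n
      · calc 4 * D ≤ 4 * ((16 * K) * D1) := by omega
          _ = 64 * K * D1 := by ring
      · intro c hc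
        rw [hnear, mem_filter, mem_cel] at hc
        exact ⟨hc.1.1.1, hc.1.1.2, hc.2.1, hc.2.2, hc.1.2.1, hc.1.2.2⟩
    have h3 : 0 ≤ ∑ c ∈ near w, qc n c r D1 := Finset.sum_nonneg (fun c _ => qc_nonneg _ _ _ _)
    have h4 : (∑ c ∈ near w, qc n c r D1) ^ 2 ≤ C2 ^ 2 * (16 * K) * ((r:ℝ) / D) := by
      calc (∑ c ∈ near w, qc n c r D1) ^ 2 ≤ (C2 * ((r:ℝ) / D1) ^ (1 / 2 : ℝ)) ^ 2 :=
            pow_le_pow_left₀ h3 h2 2
        _ = C2 ^ 2 * ((r:ℝ) / D1) := by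
            rw [mul_pow, ← Real.rpow_natCast (((r:ℝ) / D1) ^ (1 / 2 : ℝ)) 2,
              ← Real.rpow_mul (by positivity)]
            norm_num
        _ ≤ C2 ^ 2 * ((16 * K) * ((r:ℝ) / D)) := by
            apply mul_le_mul_of_nonneg_left _ (by positivity)
            have h6 : (D:ℝ) ≤ 16 * K * D1 := by exact_mod_cast hKD3
            rw [← mul_div_assoc, div_le_div_iff₀ hD10 hD0]
            nlinarith
        _ = _ := by ring
    have h5 : (0:ℝ) ≤ (if 5 * D ≤ n then qc n w (5 * D) n else 1) := by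
      split_ifs
      · exact qc_nonneg _ _ _ _
      · norm_num
    calc C1 * (∑ c ∈ near w, qc n c r D1) ^ 2 * (if 5 * D ≤ n then qc n w (5 * D) n else 1)
        ≤ C1 * (C2 ^ 2 * (16 * K) * ((r:ℝ) / D)) *
          (if 5 * D ≤ n then qc n w (5 * D) n else 1) := by gcongr
      _ = _ := by ring
  refine (Finset.sum_le_sum hwin).trans ?_
  rw [← Finset.mul_sum]
  -- the sum over the windows
  have hW : ∑ w ∈ cel D n, (if 5 * D ≤ n then qc n w (5 * D) n else 1) ≤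
      (5 ^ (5 / 2 : ℝ) * C3 + 363) * ((D:ℝ) / n) ^ (1 / 2 : ℝ) := by
    by_cases h5 : 5 * D ≤ n
    · simp only [if_pos h5]
      calc ∑ w ∈ cel D n, qc n w (5 * D) n ≤ ∑ w ∈ cel D n, 5 ^ (5 / 2 : ℝ) * qc n w D n :=
            Finset.sum_le_sum (fun w _ => qc_inner hDpos h5)
        _ = 5 ^ (5 / 2 : ℝ) * ∑ w ∈ cel D n, qc n w D n := by rw [Finset.mul_sum]
        _ ≤ 5 ^ (5 / 2 : ℝ) * (C3 * ((D:ℝ) / n) ^ (1 / 2 : ℝ)) := by
            apply mul_le_mul_of_nonneg_left _ (by positivity)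
            apply HS n D n (0, 0) hDpos (by omega) le_rfl
            intro c hc
            rw [mem_cel] at hc
            simp only [sub_zero]
            exact ⟨hc.1.1, hc.1.2, hc.1.1, hc.1.2, hc.2.1, hc.2.2⟩
        _ ≤ _ := by
            have : 0 ≤ 363 * ((D:ℝ) / n) ^ (1 / 2 : ℝ) := by positivity
            linarith
    · simp only [if_neg h5]
      rw [Finset.sum_const, nsmul_eq_mul, mul_one]
      have hc : (cel D n).card ≤ 121 := by
        have hsub : cel D n ⊆ (Finset.Icc (-5:ℤ) 5 ×ˢ Finset.Icc (-5:ℤ) 5).image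
            (fun z => (z.1 * (D:ℤ), z.2 * (D:ℤ))) := by
          intro c hc
          rw [mem_cel] at hc
          obtain ⟨⟨h1, h2⟩, ⟨a, ha⟩, ⟨b, hb⟩⟩ := hc
          rw [abs_le] at h1 h2
          have hD' : (0:ℤ) < D := by omega
          have hn5 : (n:ℤ) < 5 * D := by exact_mod_cast (by omega : n < 5 * D)
          rw [mem_image]
          refine ⟨(a, b), ?_, ?_⟩
          · rw [mem_product, mem_Icc, mem_Icc]
            refine ⟨⟨?_, ?_⟩, ?_, ?_⟩
            · by_contra hcon; push Not at hcon; simp only at hcon; nlinarith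
            · by_contra hcon; push Not at hcon; simp only at hcon; nlinarith
            · by_contra hcon; push Not at hcon; simp only at hcon; nlinarith
            · by_contra hcon; push Not at hcon; simp only at hcon; nlinarith
          · ext
            · simp only; rw [ha]; ring
            · simp only; rw [hb]; ring
        refine (card_le_card hsub).trans (card_image_le.trans ?_)
        rw [card_product, Int.card_Icc]
        decide
      have hc' : ((cel D n).card : ℝ) ≤ 121 := by exact_mod_cast hc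
      have h6 : (1:ℝ) / 3 ≤ ((D:ℝ) / n) ^ (1 / 2 : ℝ) := by
        have h7 : (1:ℝ) / 9 ≤ (D:ℝ) / n := by
          rw [div_le_div_iff₀ (by norm_num) hn0]
          have : (n:ℝ) ≤ 5 * D := by exact_mod_cast (by omega : n ≤ 5 * D)
          linarith
        calc (1:ℝ) / 3 = ((1:ℝ) / 9) ^ (1 / 2 : ℝ) := by
              rw [show (1:ℝ) / 9 = (1 / 3) ^ (2:ℝ) by norm_num, ← Real.rpow_mul (by norm_num)]
              norm_num
          _ ≤ _ := Real.rpow_le_rpow (by norm_num) h7 (by norm_num)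
      have h8 : 0 ≤ 5 ^ (5 / 2 : ℝ) * C3 * ((D:ℝ) / n) ^ (1 / 2 : ℝ) := by positivity
      nlinarith
  calc C1 * (C2 ^ 2 * (16 * K)) * ((r:ℝ) / D) *
        ∑ w ∈ cel D n, (if 5 * D ≤ n then qc n w (5 * D) n else 1)
      ≤ C1 * (C2 ^ 2 * (16 * K)) * ((r:ℝ) / D) *
        ((5 ^ (5 / 2 : ℝ) * C3 + 363) * ((D:ℝ) / n) ^ (1 / 2 : ℝ)) :=
        mul_le_mul_of_nonneg_left hW (by positivity)
    _ = _ := by ring

open Classical in
/-- **Clustering**, in terms of the noise-stable mass. -/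
theorem clus (hch : S_CHAIN) (h1 : S_ONE) (hp : S_PAIR) (hs : S_SUM) : ∃ C : ℝ, 0 < C ∧
    ∀ (n r d : ℕ), 1 ≤ r → r ≤ d → r ≤ n →
      ∑ T ∈ (boxE n).powerset.filter (fun T => wide d T), wtn n r T ≤
        C * (((r:ℝ) / n) ^ (1 / 2 : ℝ) * ((r:ℝ) / d) ^ (1 / 2 : ℝ)) := by
  classical
  obtain ⟨C1, K, hC1, hK, HP⟩ := scale_bound hch hp hs
  obtain ⟨C2, hC2, HO⟩ := one_bound hch h1
  obtain ⟨C3, hC3, HS⟩ := hs
  refine ⟨C1 * 4 + C2 * C3 * (64 * K), by positivity, ?_⟩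
  intro n r d hr hrd hrn
  have hr0 : (0:ℝ) < r := by exact_mod_cast hr
  have hd0 : (0:ℝ) < d := by exact_mod_cast (by omega : 0 < d)
  have hn0 : (0:ℝ) < n := by exact_mod_cast (by omega : 0 < n)
  have hP0 : 0 ≤ ((r:ℝ) / n) ^ (1 / 2 : ℝ) * ((r:ℝ) / d) ^ (1 / 2 : ℝ) := by positivity
  by_cases hd : 64 * (K * r) ≤ d
  · -- dyadic distances
    have hU : ∑ T ∈ (boxE n).powerset.filter (fun T => wide d T), wtn n r T ≤
        ∑ k ∈ (Finset.range (2 * n + 1)).filter (fun k => d * 2 ^ k ≤ 2 * n),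
          ∑ T ∈ (boxE n).powerset.filter (fun T => ∃ e ∈ T, ∃ e' ∈ T,
            (((d * 2 ^ k : ℕ):ℤ) ≤ |e.1 - e'.1| ∨ ((d * 2 ^ k : ℕ):ℤ) ≤ |e.2.1 - e'.2.1|) ∧
            |e.1 - e'.1| ≤ 2 * ((d * 2 ^ k : ℕ):ℤ) ∧
            |e.2.1 - e'.2.1| ≤ 2 * ((d * 2 ^ k : ℕ):ℤ)), wtn n r T := by
      refine union_bd (fun T _ => wtn_nonneg hr T) _ _ _ ?_
      rintro T hT ⟨e, he, e', he', h⟩
      rw [mem_powerset] at hT
      obtain ⟨m, hm⟩ : ∃ m : ℕ, (m:ℤ) = max |e.1 - e'.1| |e.2.1 - e'.2.1| :=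
        ⟨(max |e.1 - e'.1| |e.2.1 - e'.2.1|).toNat, by
          have := (abs_nonneg (e.1 - e'.1)).trans (le_max_left _ |e.2.1 - e'.2.1|)
          omega⟩
      have hdm : d ≤ m := by
        have : (d:ℤ) ≤ m := by rw [hm]; exact le_max_iff.2 h
        exact_mod_cast this
      have hm2 : m ≤ 2 * n := by
        have b1 : -(n:ℤ) ≤ e.1 ∧ e.1 ≤ n ∧ -(n:ℤ) ≤ e.2.1 ∧ e.2.1 ≤ n :=
          mem_boxE_bounds (b := e.2.2) (hT he)
        have b2 : -(n:ℤ) ≤ e'.1 ∧ e'.1 ≤ n ∧ -(n:ℤ) ≤ e'.2.1 ∧ e'.2.1 ≤ n :=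
          mem_boxE_bounds (b := e'.2.2) (hT he')
        have : (m:ℤ) ≤ 2 * n := by
          rw [hm]
          apply max_le <;> rw [abs_le] <;> omega
        exact_mod_cast this
      have hdpos : 0 < d := by omega
      set k := Nat.log 2 (m / d) with hk
      have hmd : m / d ≠ 0 := by
        have := Nat.div_pos hdm hdpos
        omega
      have k1 : 2 ^ k ≤ m / d := Nat.pow_log_le_self 2 hmd
      have k2 : m / d < 2 ^ (k + 1) := Nat.lt_pow_succ_log_self (by norm_num) _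
      have k3 : d * 2 ^ k ≤ m := by
        calc d * 2 ^ k ≤ d * (m / d) := Nat.mul_le_mul_left _ k1
          _ ≤ m := Nat.mul_div_le _ _
      have k4 : m ≤ 2 * (d * 2 ^ k) := by
        have : m < d * (m / d + 1) := Nat.lt_mul_div_succ _ hdpos
        calc m ≤ d * (m / d + 1) := this.le
          _ ≤ d * 2 ^ (k + 1) := Nat.mul_le_mul_left _ k2
          _ = 2 * (d * 2 ^ k) := by ring
      refine ⟨k, ?_, e, he, e', he', ?_, ?_, ?_⟩
      · rw [mem_filter, mem_range]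
        refine ⟨?_, by omega⟩
        have : k < 2 ^ k := Nat.lt_two_pow_self
        have : 2 ^ k ≤ d * 2 ^ k := Nat.le_mul_of_pos_left _ hdpos
        omega
      · have : ((d * 2 ^ k : ℕ):ℤ) ≤ m := by exact_mod_cast k3
        rw [hm] at this
        exact le_max_iff.1 this
      · have : (m:ℤ) ≤ 2 * ((d * 2 ^ k : ℕ):ℤ) := by exact_mod_cast k4
        rw [hm] at this
        exact (le_max_left _ _).trans this
      · have : (m:ℤ) ≤ 2 * ((d * 2 ^ k : ℕ):ℤ) := by exact_mod_cast k4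
        rw [hm] at this
        exact (le_max_right _ _).trans this
    refine hU.trans ?_
    have hk : ∀ k ∈ (Finset.range (2 * n + 1)).filter (fun k => d * 2 ^ k ≤ 2 * n),
        ∑ T ∈ (boxE n).powerset.filter (fun T => ∃ e ∈ T, ∃ e' ∈ T,
            (((d * 2 ^ k : ℕ):ℤ) ≤ |e.1 - e'.1| ∨ ((d * 2 ^ k : ℕ):ℤ) ≤ |e.2.1 - e'.2.1|) ∧
            |e.1 - e'.1| ≤ 2 * ((d * 2 ^ k : ℕ):ℤ) ∧
            |e.2.1 - e'.2.1| ≤ 2 * ((d * 2 ^ k : ℕ):ℤ)), wtn n r T ≤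
        C1 * (((r:ℝ) / n) ^ (1 / 2 : ℝ) * ((r:ℝ) / d) ^ (1 / 2 : ℝ)) *
          ((1 / 2 : ℝ) ^ (1 / 2 : ℝ)) ^ k := by
      intro k hk
      rw [mem_filter] at hk
      have h2k : 1 ≤ 2 ^ k := Nat.one_le_two_pow
      have h := HP n r (d * 2 ^ k) hr (hd.trans (Nat.le_mul_of_pos_right _ h2k)) hk.2
      refine h.trans (le_of_eq ?_)
      rw [mul_assoc]
      congr 1
      push_cast
      have h2 : (0:ℝ) < 2 ^ k := by positivity
      have e1 : ((1 / 2 : ℝ) ^ (1 / 2 : ℝ)) ^ k = ((2:ℝ) ^ k) ^ (-(1 / 2) : ℝ) := by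
        rw [← Real.rpow_natCast ((1 / 2 : ℝ) ^ (1 / 2 : ℝ)) k, ← Real.rpow_mul (by norm_num),
          ← Real.rpow_natCast 2 k, ← Real.rpow_mul (by norm_num), one_div,
          Real.inv_rpow (by norm_num), ← Real.rpow_neg (by norm_num)]
        congr 1
        ring
      rw [e1, Real.div_rpow (by positivity) hn0.le, Real.mul_rpow hd0.le h2.le,
        Real.div_rpow hr0.le hn0.le, Real.div_rpow hr0.le hd0.le, Real.rpow_neg h2.le]
      have e2 : (r:ℝ) = (r:ℝ) ^ (1 / 2 : ℝ) * (r:ℝ) ^ (1 / 2 : ℝ) := by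
        rw [← Real.rpow_add hr0]; norm_num
      have e3 : (d:ℝ) = (d:ℝ) ^ (1 / 2 : ℝ) * (d:ℝ) ^ (1 / 2 : ℝ) := by
        rw [← Real.rpow_add hd0]; norm_num
      have e4 : (2:ℝ) ^ k = ((2:ℝ) ^ k) ^ (1 / 2 : ℝ) * ((2:ℝ) ^ k) ^ (1 / 2 : ℝ) := by
        rw [← Real.rpow_add h2]; norm_num
      have p1 : 0 < (r:ℝ) ^ (1 / 2 : ℝ) := by positivity
      have p2 : 0 < (d:ℝ) ^ (1 / 2 : ℝ) := by positivity
      have p3 : 0 < ((2:ℝ) ^ k) ^ (1 / 2 : ℝ) := by positivity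
      have p4 : 0 < (n:ℝ) ^ (1 / 2 : ℝ) := by positivity
      set u := (r:ℝ) ^ (1 / 2 : ℝ)
      set v := (d:ℝ) ^ (1 / 2 : ℝ)
      set w := ((2:ℝ) ^ k) ^ (1 / 2 : ℝ)
      set z := (n:ℝ) ^ (1 / 2 : ℝ)
      rw [e2, e3, e4]
      field_simp
    refine (Finset.sum_le_sum hk).trans ?_
    rw [← Finset.mul_sum]
    have hq0 : (0:ℝ) ≤ (1 / 2 : ℝ) ^ (1 / 2 : ℝ) := by positivity
    have hq1 : (1 / 2 : ℝ) ^ (1 / 2 : ℝ) ≤ 3 / 4 := by
      have h3 : (1 / 2 : ℝ) ≤ (3 / 4 : ℝ) ^ (2:ℝ) := by norm_num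
      calc (1 / 2 : ℝ) ^ (1 / 2 : ℝ) ≤ ((3 / 4 : ℝ) ^ (2:ℝ)) ^ (1 / 2 : ℝ) :=
            Real.rpow_le_rpow (by norm_num) h3 (by norm_num)
        _ = 3 / 4 := by
            rw [← Real.rpow_mul (by norm_num)]
            norm_num
    have hgeo : ∑ k ∈ (Finset.range (2 * n + 1)).filter (fun k => d * 2 ^ k ≤ 2 * n),
        ((1 / 2 : ℝ) ^ (1 / 2 : ℝ)) ^ k ≤ 4 := by
      calc _ ≤ ∑ k ∈ Finset.range (2 * n + 1), ((1 / 2 : ℝ) ^ (1 / 2 : ℝ)) ^ k :=
            Finset.sum_le_sum_of_subset_of_nonneg (Finset.filter_subset _ _)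
              (fun k _ _ => pow_nonneg hq0 _)
        _ ≤ ∑ k ∈ Finset.range (2 * n + 1), (3 / 4 : ℝ) ^ k :=
            Finset.sum_le_sum (fun k _ => pow_le_pow_left₀ hq0 hq1 k)
        _ = (1 - (3 / 4 : ℝ) ^ (2 * n + 1)) / (1 - 3 / 4) := by
            rw [geom_sum_eq (by norm_num)]
            rw [div_eq_div_iff (by norm_num) (by norm_num)]
            ring
        _ ≤ 4 := by
            have : (0:ℝ) ≤ (3 / 4 : ℝ) ^ (2 * n + 1) := by positivity
            rw [div_le_iff₀ (by norm_num)]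
            linarith
    calc C1 * (((r:ℝ) / n) ^ (1 / 2 : ℝ) * ((r:ℝ) / d) ^ (1 / 2 : ℝ)) *
          ∑ k ∈ (Finset.range (2 * n + 1)).filter (fun k => d * 2 ^ k ≤ 2 * n),
            ((1 / 2 : ℝ) ^ (1 / 2 : ℝ)) ^ k
        ≤ C1 * (((r:ℝ) / n) ^ (1 / 2 : ℝ) * ((r:ℝ) / d) ^ (1 / 2 : ℝ)) * 4 :=
          mul_le_mul_of_nonneg_left hgeo (by positivity)
      _ ≤ _ := by
          have : 0 ≤ C2 * C3 * (64 * K) *
            (((r:ℝ) / n) ^ (1 / 2 : ℝ) * ((r:ℝ) / d) ^ (1 / 2 : ℝ)) := by positivity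
          linarith
  · -- single blocks
    push Not at hd
    have hU : ∑ T ∈ (boxE n).powerset.filter (fun T => wide d T), wtn n r T ≤
        ∑ c ∈ cel r n, ∑ T ∈ (boxE n).powerset.filter
          (fun T => ¬ Disjoint T (blk c r ∩ boxE n)), wtn n r T := by
      refine union_bd (fun T _ => wtn_nonneg hr T) _ _ _ ?_
      rintro T hT ⟨e, he, e', he', h⟩
      rw [mem_powerset] at hT
      have m1 := rdE_mem hr (hT he)
      refine ⟨rdE r e, m1.2, ?_⟩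
      rw [Finset.not_disjoint_iff]
      exact ⟨e, he, mem_inter.2 ⟨m1.1, hT he⟩⟩
    refine hU.trans ?_
    have h2 : ∀ c ∈ cel r n, ∑ T ∈ (boxE n).powerset.filter
          (fun T => ¬ Disjoint T (blk c r ∩ boxE n)), wtn n r T ≤ C2 * qc n c r n := by
      intro c hc
      rw [mem_cel] at hc
      exact HO n r c hr hrn hc.1.1 hc.1.2
    refine (Finset.sum_le_sum h2).trans ?_
    rw [← Finset.mul_sum]
    have h3 : ∑ c ∈ cel r n, qc n c r n ≤ C3 * ((r:ℝ) / n) ^ (1 / 2 : ℝ) := by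
      apply HS n r n (0, 0) hr hrn le_rfl
      intro c hc
      rw [mem_cel] at hc
      simp only [sub_zero]
      exact ⟨hc.1.1, hc.1.2, hc.1.1, hc.1.2, hc.2.1, hc.2.2⟩
    have hKr : (1:ℝ) ≤ 64 * K := by
      have : 1 ≤ 64 * K := by omega
      exact_mod_cast this
    have h4 : 1 ≤ (64 * K) * ((r:ℝ) / d) ^ (1 / 2 : ℝ) := by
      have h5 : (d:ℝ) ≤ 64 * (K * r) := by exact_mod_cast hd.le
      have h6 : 1 / (64 * (K:ℝ)) ≤ (r:ℝ) / d := by
        rw [div_le_div_iff₀ (by linarith) hd0]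
        linarith
      have h7 : 1 / (64 * (K:ℝ)) ≤ (1 / (64 * (K:ℝ))) ^ (1 / 2 : ℝ) := by
        have h8 : (0:ℝ) < 1 / (64 * (K:ℝ)) := by positivity
        have h9 : 1 / (64 * (K:ℝ)) ≤ 1 := by rw [div_le_one (by linarith)]; exact hKr
        calc 1 / (64 * (K:ℝ)) = (1 / (64 * (K:ℝ))) ^ (1:ℝ) := (Real.rpow_one _).symm
          _ ≤ _ := Real.rpow_le_rpow_of_exponent_ge h8 h9 (by norm_num)
      have h8 := h7.trans (Real.rpow_le_rpow (by positivity) h6 (by norm_num))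
      calc (1:ℝ) = (64 * K) * (1 / (64 * (K:ℝ))) := by field_simp
        _ ≤ _ := mul_le_mul_of_nonneg_left h8 (by linarith)
    calc C2 * ∑ c ∈ cel r n, qc n c r n ≤ C2 * (C3 * ((r:ℝ) / n) ^ (1 / 2 : ℝ)) :=
          mul_le_mul_of_nonneg_left h3 hC2.le
      _ ≤ C2 * (C3 * ((r:ℝ) / n) ^ (1 / 2 : ℝ)) * ((64 * K) * ((r:ℝ) / d) ^ (1 / 2 : ℝ)) :=
          le_mul_of_one_le_right (by positivity) h4
      _ = C2 * C3 * (64 * K) * (((r:ℝ) / n) ^ (1 / 2 : ℝ) * ((r:ℝ) / d) ^ (1 / 2 : ℝ)) := by ring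
      _ ≤ _ := by
          have : 0 ≤ C1 * 4 *
            (((r:ℝ) / n) ^ (1 / 2 : ℝ) * ((r:ℝ) / d) ^ (1 / 2 : ℝ)) := by positivity
          linarith

end Pool.Agent.Y554.SN
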