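import Pool.Agent.Y554.SN.Asm2
import Pool.Agent.H389R2.NS.SumSp

/-! Project SN: the clustering estimate for small sets. -/

set_option autoImplicit false

namespace Pool.Agent.Y554.SN

open H974 H12S H985T H389NS Finset Pool.Agent.Y554.DP

open Classical in
/-- all nonempty sets -/
theorem clus0 (hch : S_CHAIN) (h1 : S_ONE) (hs : S_SUM) : ∃ C : ℝ, 0 < C ∧
    ∀ (n r : ℕ), 1 ≤ r → r ≤ n →
      ∑ T ∈ (boxE n).powerset.filter (fun T => T ≠ ∅), wtn n r T ≤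
        C * ((r:ℝ) / n) ^ (1 / 2 : ℝ) := by
  obtain ⟨C2, hC2, HO⟩ := one_bound hch h1
  obtain ⟨C3, hC3, HS⟩ := hs
  refine ⟨C2 * C3, by positivity, ?_⟩
  intro n r hr hrn
  have hU : ∑ T ∈ (boxE n).powerset.filter (fun T => T ≠ ∅), wtn n r T ≤
      ∑ c ∈ cel r n, ∑ T ∈ (boxE n).powerset.filter
        (fun T => ¬ Disjoint T (blk c r ∩ boxE n)), wtn n r T := by
    refine union_bd (fun T _ => wtn_nonneg hr T) _ _ _ ?_
    intro T hT hne
    rw [mem_powerset] at hT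
    obtain ⟨e, he⟩ := Finset.nonempty_iff_ne_empty.2 hne
    have m1 := rdE_mem hr (hT he)
    refine ⟨rdE r e, m1.2, ?_⟩
    rw [Finset.not_disjoint_iff]
    exact ⟨e, he, mem_inter.2 ⟨m1.1, hT he⟩⟩
  refine hU.trans ?_
  have h2 : ∀ c ∈ cel r n, ∑ T ∈ (boxE n).powerset.filter
        (fun T => ¬ Disjoint T (blk c r ∩ boxE n)), wtn n r T ≤ C2 * qc n c r n := by
    intro c hc
    rw [mem_cel] at hc
    exact HO n r c hr hrn hc.1.1 hc.1.2
  refine (Finset.sum_le_sum h2).trans ?_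
  rw [← Finset.mul_sum]
  have h3 : ∑ c ∈ cel r n, qc n c r n ≤ C3 * ((r:ℝ) / n) ^ (1 / 2 : ℝ) := by
    apply HS n r n (0, 0) hr hrn le_rfl
    intro c hc
    rw [mem_cel] at hc
    simp only [sub_zero]
    exact ⟨hc.1.1, hc.1.2, hc.1.1, hc.1.2, hc.2.1, hc.2.2⟩
  calc C2 * ∑ c ∈ cel r n, qc n c r n ≤ C2 * (C3 * ((r:ℝ) / n) ^ (1 / 2 : ℝ)) :=
        mul_le_mul_of_nonneg_left h3 hC2.le
    _ = _ := by ring

/-- the noise does not see small sets -/
theorem wal_le_wtn {n r : ℕ} (hr : 2 ≤ r) {T : Finset Edg} {M : ℝ}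
    (hT : (T.card : ℝ) ≤ M * (r:ℝ) ^ (3 / 4 : ℝ)) :
    (wal (boxE n) (fC (Lf n) (Rt n)) T) ^ 2 ≤ Real.exp (3 * M) * wtn n r T := by
  have hr2 : (2:ℝ) ≤ r := by exact_mod_cast hr
  have hr0 : (0:ℝ) < r := by linarith
  set y : ℝ := (r:ℝ) ^ (-(3 / 4) : ℝ) with hy
  have hy0 : 0 < y := by positivity
  have hy1 : y ≤ 2 / 3 := by
    have h1 : y ≤ (2:ℝ) ^ (-(3 / 4) : ℝ) :=
      Real.rpow_le_rpow_of_nonpos (by norm_num) hr2 (by norm_num)
    have h2 : (2:ℝ) ^ (-(3 / 4) : ℝ) ≤ 2 / 3 := by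
      have h3 : (2:ℝ) ^ (-(3 / 4) : ℝ) = ((1 / 2 : ℝ) ^ (3:ℝ)) ^ (1 / 4 : ℝ) := by
        rw [one_div, Real.inv_rpow (by norm_num), Real.inv_rpow (by positivity),
          ← Real.rpow_mul (by norm_num), Real.rpow_neg (by norm_num)]
        norm_num
      rw [h3]
      have h4 : ((1 / 2 : ℝ) ^ (3:ℝ)) ≤ (2 / 3 : ℝ) ^ (4:ℝ) := by norm_num
      calc ((1 / 2 : ℝ) ^ (3:ℝ)) ^ (1 / 4 : ℝ) ≤ ((2 / 3 : ℝ) ^ (4:ℝ)) ^ (1 / 4 : ℝ) :=
            Real.rpow_le_rpow (by positivity) h4 (by norm_num)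
        _ = 2 / 3 := by
            rw [← Real.rpow_mul (by norm_num)]
            norm_num
    exact h1.trans h2
  have hyr : y * (r:ℝ) ^ (3 / 4 : ℝ) = 1 := by
    rw [hy, ← Real.rpow_add hr0]
    norm_num
  -- lower bound for the power
  have h5 : Real.exp (-(3 * y)) ≤ 1 - y := by
    have h6 : Real.exp (-(y / (1 - y))) ≤ 1 - y := by
      have h7 : 0 < 1 - y := by linarith
      have h8 := Real.add_one_le_exp (y / (1 - y))
      have h9 : y / (1 - y) + 1 = 1 / (1 - y) := by field_simp; ring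
      rw [h9] at h8
      rw [Real.exp_neg]
      have h10 : (1 / (1 - y))⁻¹ = 1 - y := by rw [one_div, inv_inv]
      have h11 := inv_anti₀ (by positivity) h8
      rw [h10] at h11
      exact h11
    refine le_trans (Real.exp_le_exp.2 ?_) h6
    rw [neg_le_neg_iff, div_le_iff₀ (by linarith)]
    nlinarith
  have h6 : Real.exp (-(3 * M)) ≤ (1 - y) ^ T.card := by
    calc Real.exp (-(3 * M)) ≤ Real.exp (-(3 * y) * T.card) := by
          apply Real.exp_le_exp.2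
          have h7 : y * T.card ≤ M := by
            calc y * T.card ≤ y * (M * (r:ℝ) ^ (3 / 4 : ℝ)) :=
                  mul_le_mul_of_nonneg_left hT hy0.le
              _ = M * (y * (r:ℝ) ^ (3 / 4 : ℝ)) := by ring
              _ = M := by rw [hyr, mul_one]
          nlinarith
      _ = Real.exp (-(3 * y)) ^ T.card := by
          rw [← Real.exp_nat_mul]
          congr 1
          ring
      _ ≤ _ := pow_le_pow_left₀ (Real.exp_pos _).le h5 _
  unfold wtn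
  rw [← hy]
  set w := (wal (boxE n) (fC (Lf n) (Rt n)) T) ^ 2 with hw
  have hw0 : 0 ≤ w := sq_nonneg _
  have h7 : Real.exp (3 * M) * Real.exp (-(3 * M)) = 1 := by
    rw [← Real.exp_add]
    simp
  calc w = w * (Real.exp (3 * M) * Real.exp (-(3 * M))) := by rw [h7, mul_one]
    _ ≤ w * (Real.exp (3 * M) * (1 - y) ^ T.card) := by
        apply mul_le_mul_of_nonneg_left _ hw0
        exact mul_le_mul_of_nonneg_left h6 (Real.exp_pos _).le
    _ = _ := by ring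

theorem wal_sum_le (n : ℕ) (P : Finset Edg → Prop) [DecidablePred P] :
    ∑ T ∈ (boxE n).powerset.filter P, (wal (boxE n) (fC (Lf n) (Rt n)) T) ^ 2 ≤ 1 := by
  refine (Finset.sum_le_sum_of_subset_of_nonneg (Finset.filter_subset _ _)
    (fun T _ _ => sq_nonneg _)).trans ?_
  rw [H389NS.SumSpAux.parseval]
  refine Ex_le_of_le (fun e => by unfold H389NS.hp; norm_num) (fun F _ => ?_)
  have h1 := ind_nonneg (Cn (Lf n) (Rt n) (↑F : Set Edg))
  have h2 := ind_le_one (Cn (Lf n) (Rt n) (↑F : Set Edg))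
  unfold fC
  nlinarith

open Classical in
/-- Small spectral sets which are wide. -/
theorem fin_bound (hch : S_CHAIN) (h1 : S_ONE) (hp : S_PAIR) (hs : S_SUM) (M : ℝ) (hM : 0 ≤ M) :
    ∃ C : ℝ, 0 < C ∧ ∀ (n a b : ℕ), 1 ≤ a → a ≤ b → a ≤ n →
      ∑ T ∈ (boxE n).powerset.filter (fun T => wide (b / 2) T ∧
          (T.card : ℝ) ≤ M * (a:ℝ) ^ (3 / 4 : ℝ)),
        (wal (boxE n) (fC (Lf n) (Rt n)) T) ^ 2 ≤
      C * (((a:ℝ) / n) ^ (1 / 2 : ℝ) * ((a:ℝ) / b) ^ (1 / 2 : ℝ)) := by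
  obtain ⟨C1, hC1, H1⟩ := clus hch h1 hp hs
  obtain ⟨C0, hC0, H0⟩ := clus0 hch h1 hs
  set X : ℝ := Real.exp (3 * (3 * M)) with hX
  have hX0 : 0 < X := Real.exp_pos _
  refine ⟨X * (C1 * 4 + C0 * 4) + 5, by positivity, ?_⟩
  intro n a b ha hab han
  have ha0 : (0:ℝ) < a := by exact_mod_cast ha
  have ha1 : (1:ℝ) ≤ a := by exact_mod_cast ha
  have hb0 : (0:ℝ) < b := by exact_mod_cast (by omega : 0 < b)
  have hn0 : (0:ℝ) < n := by exact_mod_cast (by omega : 0 < n)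
  set Q : ℝ := ((a:ℝ) / n) ^ (1 / 2 : ℝ) * ((a:ℝ) / b) ^ (1 / 2 : ℝ) with hQ
  have hQ0 : 0 ≤ Q := by positivity
  have pw : ∀ r' : ℕ, a ≤ 3 * r' → (a:ℝ) ^ (3 / 4 : ℝ) ≤ 3 * (r':ℝ) ^ (3 / 4 : ℝ) := by
    intro r' h
    have h2 : (a:ℝ) ≤ 3 * r' := by exact_mod_cast h
    calc (a:ℝ) ^ (3 / 4 : ℝ) ≤ (3 * (r':ℝ)) ^ (3 / 4 : ℝ) :=
          Real.rpow_le_rpow ha0.le h2 (by norm_num)
      _ = 3 ^ (3 / 4 : ℝ) * (r':ℝ) ^ (3 / 4 : ℝ) := Real.mul_rpow (by norm_num) (by positivity)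
      _ ≤ 3 ^ (1 : ℝ) * (r':ℝ) ^ (3 / 4 : ℝ) := by
          apply mul_le_mul_of_nonneg_right _ (by positivity)
          exact Real.rpow_le_rpow_of_exponent_le (by norm_num) (by norm_num)
      _ = _ := by rw [Real.rpow_one]
  by_cases hn : n = 1
  · -- one cell
    subst hn
    have haa : a = 1 := by omega
    by_cases hb : b ≤ 5
    · have h5 : 1 ≤ 5 * Q := by
        have h6 : (1:ℝ) / 5 ≤ ((a:ℝ) / b) ^ (1 / 2 : ℝ) := by
          have h7 : (1:ℝ) / 5 ≤ (a:ℝ) / b := by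
            rw [div_le_div_iff₀ (by norm_num) hb0]
            have : (b:ℝ) ≤ 5 := by exact_mod_cast hb
            nlinarith
          calc (1:ℝ) / 5 = ((1:ℝ) / 5) ^ (1:ℝ) := (Real.rpow_one _).symm
            _ ≤ ((1:ℝ) / 5) ^ (1 / 2 : ℝ) :=
                Real.rpow_le_rpow_of_exponent_ge (by norm_num) (by norm_num) (by norm_num)
            _ ≤ _ := Real.rpow_le_rpow (by norm_num) h7 (by norm_num)
        have h8 : ((a:ℝ) / (1:ℕ)) ^ (1 / 2 : ℝ) = 1 := by rw [haa]; norm_num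
        rw [hQ, h8, one_mul]
        linarith
      refine (wal_sum_le 1 _).trans ?_
      have : 0 ≤ X * (C1 * 4 + C0 * 4) * Q := by positivity
      nlinarith
    · push Not at hb
      have he : (boxE 1).powerset.filter (fun T => wide (b / 2) T ∧
          (T.card : ℝ) ≤ M * (a:ℝ) ^ (3 / 4 : ℝ)) = ∅ := by
        rw [Finset.filter_eq_empty_iff]
        rintro T hT ⟨⟨e, he, e', he', h⟩, -⟩
        rw [mem_powerset] at hT
        have b1 : -((1:ℕ):ℤ) ≤ e.1 ∧ e.1 ≤ (1:ℕ) ∧ -((1:ℕ):ℤ) ≤ e.2.1 ∧ e.2.1 ≤ (1:ℕ) :=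
          mem_boxE_bounds (b := e.2.2) (hT he)
        have b2 : -((1:ℕ):ℤ) ≤ e'.1 ∧ e'.1 ≤ (1:ℕ) ∧ -((1:ℕ):ℤ) ≤ e'.2.1 ∧ e'.2.1 ≤ (1:ℕ) :=
          mem_boxE_bounds (b := e'.2.2) (hT he')
        have h3 : 3 ≤ b / 2 := by omega
        have c1 : |e.1 - e'.1| ≤ 2 := by rw [abs_le]; omega
        have c2 : |e.2.1 - e'.2.1| ≤ 2 := by rw [abs_le]; omega
        omega
      rw [he, Finset.sum_empty]
      positivity
  · have hn2 : 2 ≤ n := by omega
    by_cases hb : 4 ≤ b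
    · obtain ⟨r', hr'⟩ : ∃ r', r' = max 2 (a / 2) := ⟨_, rfl⟩
      have hr2 : 2 ≤ r' := by omega
      have hd : r' ≤ b / 2 := by omega
      have hrn : r' ≤ n := by omega
      have ha3 : a ≤ 3 * r' := by omega
      have hra : r' ≤ 2 * a := by omega
      have hdb : b ≤ 3 * (b / 2) := by omega
      have hr0 : (0:ℝ) < r' := by exact_mod_cast (by omega : 0 < r')
      have hd0 : (0:ℝ) < ((b / 2 : ℕ) : ℝ) := by exact_mod_cast (by omega : 0 < b / 2)
      have key : ∀ T ∈ (boxE n).powerset.filter (fun T => wide (b / 2) T ∧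
          (T.card : ℝ) ≤ M * (a:ℝ) ^ (3 / 4 : ℝ)),
          (wal (boxE n) (fC (Lf n) (Rt n)) T) ^ 2 ≤ X * wtn n r' T := by
        intro T hT
        rw [mem_filter] at hT
        apply wal_le_wtn hr2
        calc (T.card : ℝ) ≤ M * (a:ℝ) ^ (3 / 4 : ℝ) := hT.2.2
          _ ≤ M * (3 * (r':ℝ) ^ (3 / 4 : ℝ)) := mul_le_mul_of_nonneg_left (pw r' ha3) hM
          _ = _ := by ring
      refine (Finset.sum_le_sum key).trans ?_
      rw [← Finset.mul_sum]
      have h2 : ∑ T ∈ (boxE n).powerset.filter (fun T => wide (b / 2) T ∧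
          (T.card : ℝ) ≤ M * (a:ℝ) ^ (3 / 4 : ℝ)), wtn n r' T ≤
          ∑ T ∈ (boxE n).powerset.filter (fun T => wide (b / 2) T), wtn n r' T := by
        apply Finset.sum_le_sum_of_subset_of_nonneg
        · intro T hT
          rw [mem_filter] at hT ⊢
          exact ⟨hT.1, hT.2.1⟩
        · intro T _ _
          exact wtn_nonneg (by omega) T
      have h3 := H1 n r' (b / 2) (by omega) hd hrn
      have h4 : ((r':ℝ) / n) ^ (1 / 2 : ℝ) ≤ 2 ^ (1 / 2 : ℝ) * ((a:ℝ) / n) ^ (1 / 2 : ℝ) := by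
        rw [← Real.mul_rpow (by norm_num) (by positivity)]
        apply Real.rpow_le_rpow (by positivity) _ (by norm_num)
        rw [← mul_div_assoc]
        apply div_le_div_of_nonneg_right _ hn0.le
        exact_mod_cast hra
      have h5 : ((r':ℝ) / (b / 2 : ℕ)) ^ (1 / 2 : ℝ) ≤ 6 ^ (1 / 2 : ℝ) * ((a:ℝ) / b) ^ (1 / 2 : ℝ) := by
        rw [← Real.mul_rpow (by norm_num) (by positivity)]
        apply Real.rpow_le_rpow (by positivity) _ (by norm_num)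
        rw [← mul_div_assoc, div_le_div_iff₀ hd0 hb0]
        have g1 : (r':ℝ) ≤ 2 * a := by exact_mod_cast hra
        have g2 : (b:ℝ) ≤ 3 * ((b / 2 : ℕ) : ℝ) := by exact_mod_cast hdb
        calc (r':ℝ) * b ≤ (2 * a) * (3 * ((b / 2 : ℕ) : ℝ)) :=
              mul_le_mul g1 g2 hb0.le (by positivity)
          _ = _ := by ring
      have h6 : (2:ℝ) ^ (1 / 2 : ℝ) * 6 ^ (1 / 2 : ℝ) ≤ 4 := by
        rw [← Real.mul_rpow (by norm_num) (by norm_num)]
        calc ((2:ℝ) * 6) ^ (1 / 2 : ℝ) ≤ ((4:ℝ) ^ (2:ℝ)) ^ (1 / 2 : ℝ) :=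
              Real.rpow_le_rpow (by norm_num) (by norm_num) (by norm_num)
          _ = 4 := by
              rw [← Real.rpow_mul (by norm_num)]
              norm_num
      calc X * ∑ T ∈ (boxE n).powerset.filter (fun T => wide (b / 2) T ∧
          (T.card : ℝ) ≤ M * (a:ℝ) ^ (3 / 4 : ℝ)), wtn n r' T
          ≤ X * (C1 * (((r':ℝ) / n) ^ (1 / 2 : ℝ) * ((r':ℝ) / (b / 2 : ℕ)) ^ (1 / 2 : ℝ))) :=
            mul_le_mul_of_nonneg_left (h2.trans h3) hX0.le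
        _ ≤ X * (C1 * ((2 ^ (1 / 2 : ℝ) * ((a:ℝ) / n) ^ (1 / 2 : ℝ)) *
              (6 ^ (1 / 2 : ℝ) * ((a:ℝ) / b) ^ (1 / 2 : ℝ)))) := by gcongr
        _ = X * C1 * Q * ((2:ℝ) ^ (1 / 2 : ℝ) * 6 ^ (1 / 2 : ℝ)) := by rw [hQ]; ring
        _ ≤ X * C1 * Q * 4 := mul_le_mul_of_nonneg_left h6 (by positivity)
        _ ≤ _ := by
            have : 0 ≤ X * (C0 * 4) * Q := by positivity
            nlinarith
    · push Not at hb
      have key : ∀ T ∈ (boxE n).powerset.filter (fun T => wide (b / 2) T ∧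
          (T.card : ℝ) ≤ M * (a:ℝ) ^ (3 / 4 : ℝ)),
          (wal (boxE n) (fC (Lf n) (Rt n)) T) ^ 2 ≤ X * wtn n 2 T := by
        intro T hT
        rw [mem_filter] at hT
        apply wal_le_wtn le_rfl
        calc (T.card : ℝ) ≤ M * (a:ℝ) ^ (3 / 4 : ℝ) := hT.2.2
          _ ≤ M * (3 * ((2:ℕ):ℝ) ^ (3 / 4 : ℝ)) := mul_le_mul_of_nonneg_left (pw 2 (by omega)) hM
          _ = _ := by ring
      refine (Finset.sum_le_sum key).trans ?_
      rw [← Finset.mul_sum]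
      have h2 : ∑ T ∈ (boxE n).powerset.filter (fun T => wide (b / 2) T ∧
          (T.card : ℝ) ≤ M * (a:ℝ) ^ (3 / 4 : ℝ)), wtn n 2 T ≤
          ∑ T ∈ (boxE n).powerset.filter (fun T => T ≠ ∅), wtn n 2 T := by
        apply Finset.sum_le_sum_of_subset_of_nonneg
        · intro T hT
          rw [mem_filter] at hT ⊢
          refine ⟨hT.1, ?_⟩
          obtain ⟨e, he, -⟩ := hT.2.1
          exact Finset.nonempty_iff_ne_empty.1 ⟨e, he⟩
        · intro T _ _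
          exact wtn_nonneg (by omega) T
      have h3 := H0 n 2 (by norm_num) hn2
      have h4 : (((2:ℕ):ℝ) / n) ^ (1 / 2 : ℝ) ≤ 4 * Q := by
        have h5 : (1:ℝ) / 3 ≤ ((a:ℝ) / b) := by
          rw [div_le_div_iff₀ (by norm_num) hb0]
          have : (b:ℝ) ≤ 3 := by exact_mod_cast (by omega : b ≤ 3)
          linarith
        have h6 : (((2:ℕ):ℝ) / n) ^ (1 / 2 : ℝ) ≤ 2 ^ (1 / 2 : ℝ) * ((a:ℝ) / n) ^ (1 / 2 : ℝ) := by
          rw [← Real.mul_rpow (by norm_num) (by positivity)]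
          apply Real.rpow_le_rpow (by positivity) _ (by norm_num)
          rw [← mul_div_assoc]
          apply div_le_div_of_nonneg_right _ hn0.le
          push_cast
          linarith
        have h7 : (1:ℝ) ≤ 3 ^ (1 / 2 : ℝ) * ((a:ℝ) / b) ^ (1 / 2 : ℝ) := by
          rw [← Real.mul_rpow (by norm_num) (by positivity)]
          apply Real.one_le_rpow _ (by norm_num)
          linarith
        have h8 : (2:ℝ) ^ (1 / 2 : ℝ) * 3 ^ (1 / 2 : ℝ) ≤ 4 := by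
          rw [← Real.mul_rpow (by norm_num) (by norm_num)]
          calc ((2:ℝ) * 3) ^ (1 / 2 : ℝ) ≤ ((4:ℝ) ^ (2:ℝ)) ^ (1 / 2 : ℝ) :=
                Real.rpow_le_rpow (by norm_num) (by norm_num) (by norm_num)
            _ = 4 := by
                rw [← Real.rpow_mul (by norm_num)]
                norm_num
        calc (((2:ℕ):ℝ) / n) ^ (1 / 2 : ℝ) ≤ 2 ^ (1 / 2 : ℝ) * ((a:ℝ) / n) ^ (1 / 2 : ℝ) := h6
          _ ≤ (2 ^ (1 / 2 : ℝ) * ((a:ℝ) / n) ^ (1 / 2 : ℝ)) *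
              (3 ^ (1 / 2 : ℝ) * ((a:ℝ) / b) ^ (1 / 2 : ℝ)) :=
              le_mul_of_one_le_right (by positivity) h7
          _ = ((2:ℝ) ^ (1 / 2 : ℝ) * 3 ^ (1 / 2 : ℝ)) * Q := by rw [hQ]; ring
          _ ≤ 4 * Q := mul_le_mul_of_nonneg_right h8 hQ0
      calc X * ∑ T ∈ (boxE n).powerset.filter (fun T => wide (b / 2) T ∧
          (T.card : ℝ) ≤ M * (a:ℝ) ^ (3 / 4 : ℝ)), wtn n 2 T
          ≤ X * (C0 * (((2:ℕ):ℝ) / n) ^ (1 / 2 : ℝ)) :=
            mul_le_mul_of_nonneg_left (h2.trans h3) hX0.le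
        _ ≤ X * (C0 * (4 * Q)) := by gcongr
        _ ≤ _ := by
            have : 0 ≤ X * (C1 * 4) * Q := by positivity
            nlinarith

end Pool.Agent.Y554.SN
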