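import Pool.Agent.Y554.SN.Fin
import Pool.Agent.Y554.SN.Stm3

/-! Project SN: exact order of the decay of correlations and of the lower tail of the spectral
sample. -/

set_option autoImplicit false

namespace Pool.Agent.Y554.SN

open H974 H12S H985T H389NS Finset Pool.Agent.Y554.DP

/-- The covariance of the two layers with correlation `x`. -/
noncomputable def covx (n : ℕ) (x : ℝ) : ℝ :=
  ∑ T ∈ (boxE n).powerset.filter (fun T => T ≠ ∅), wt2 n T * x ^ T.card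

theorem wt2_nonneg (n : ℕ) (T : Finset Edg) : 0 ≤ wt2 n T := sq_nonneg _

theorem covx_mono {n : ℕ} {x y : ℝ} (h0 : 0 ≤ x) (h : x ≤ y) : covx n x ≤ covx n y := by
  unfold covx
  apply Finset.sum_le_sum
  intro T _
  exact mul_le_mul_of_nonneg_left (pow_le_pow_left₀ h0 h _) (wt2_nonneg n T)

theorem covx_le_one {n : ℕ} {x : ℝ} (h0 : 0 ≤ x) (h1 : x ≤ 1) : covx n x ≤ 1 := by
  refine le_trans ?_ (wal_sum_le n (fun T => T ≠ ∅))
  unfold covx
  apply Finset.sum_le_sum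
  intro T _
  have := pow_le_one₀ h0 h1 (n := T.card)
  have h2 := wt2_nonneg n T
  calc wt2 n T * x ^ T.card ≤ wt2 n T * 1 := mul_le_mul_of_nonneg_left this h2
    _ = _ := by rw [mul_one]; rfl

/-- for `x ≤ 1/2` the covariance is at most linear -/
theorem covx_lin {n : ℕ} {x : ℝ} (h0 : 0 ≤ x) (h1 : x ≤ 1 / 2) :
    covx n x ≤ 2 * x * covx n (1 / 2) := by
  unfold covx
  rw [Finset.mul_sum]
  apply Finset.sum_le_sum
  intro T hT
  rw [mem_filter] at hT
  obtain ⟨k, hk⟩ : ∃ k, T.card = k + 1 := Nat.exists_eq_succ_of_ne_zero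
    (Finset.card_ne_zero.2 (Finset.nonempty_iff_ne_empty.2 hT.2))
  rw [hk]
  have h2 := wt2_nonneg n T
  have h3 : x ^ k ≤ (1 / 2) ^ k := pow_le_pow_left₀ h0 h1 k
  have h4 : x ^ (k + 1) ≤ 2 * x * (1 / 2) ^ (k + 1) := by
    rw [pow_succ, pow_succ]
    nlinarith
  calc wt2 n T * x ^ (k + 1) ≤ wt2 n T * (2 * x * (1 / 2) ^ (k + 1)) :=
        mul_le_mul_of_nonneg_left h4 h2
    _ = _ := by ring

/-- Upper bound. -/
theorem covx_up (hch : S_CHAIN) (h1 : S_ONE) (hs : S_SUM) : ∃ C : ℝ, 0 < C ∧ ∀ (n : ℕ) (x : ℝ),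
    1 ≤ n → 0 ≤ x → x ≤ 1 →
      covx n x ≤ C * (x * (1 + (1 - x) * (n:ℝ) ^ (3 / 4 : ℝ)) ^ (-(2 / 3) : ℝ)) := by
  obtain ⟨C0, hC0, H0⟩ := clus0 hch h1 hs
  -- the bound at `x ≥ 1/2`
  have key : ∀ (n : ℕ) (x : ℝ), 1 ≤ n → 1 / 2 ≤ x → x ≤ 1 →
      covx n x ≤ (4 * C0 + 4) * (1 + (1 - x) * (n:ℝ) ^ (3 / 4 : ℝ)) ^ (-(2 / 3) : ℝ) := by
    intro n x hn hx0 hx1
    have hn1 : (1:ℝ) ≤ n := by exact_mod_cast hn
    have hn0 : (0:ℝ) < n := by linarith
    set N : ℝ := (n:ℝ) ^ (3 / 4 : ℝ) with hN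
    have hN1 : 1 ≤ N := Real.one_le_rpow hn1 (by norm_num)
    by_cases hs : (1 - x) * N ≤ 1
    · have h2 : (1:ℝ) / 4 ≤ (1 + (1 - x) * N) ^ (-(2 / 3) : ℝ) := by
        have h3 : (1 + (1 - x) * N) ≤ 2 := by linarith
        have h4 : 0 < 1 + (1 - x) * N := by
          have : 0 ≤ (1 - x) * N := mul_nonneg (by linarith) (by linarith)
          linarith
        have h5 := Real.rpow_le_rpow_of_nonpos h4 h3 (show (-(2 / 3) : ℝ) ≤ 0 by norm_num)
        have h6 : (2:ℝ) ^ (-1 : ℝ) ≤ (2:ℝ) ^ (-(2 / 3) : ℝ) :=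
          Real.rpow_le_rpow_of_exponent_le (by norm_num) (by norm_num)
        have h7 : (2:ℝ) ^ (-1 : ℝ) = 1 / 2 := by rw [Real.rpow_neg_one]; norm_num
        linarith
      have h3 := covx_le_one (n := n) (by linarith : 0 ≤ x) hx1
      have h4 : 0 ≤ 4 * C0 * (1 + (1 - x) * N) ^ (-(2 / 3) : ℝ) := by
        have : 0 ≤ (1 - x) * N := mul_nonneg (by linarith) (by linarith)
        positivity
      linarith
    · push Not at hs
      have hh0 : 0 < 1 - x := by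
        by_contra hcon
        push Not at hcon
        nlinarith
      set h : ℝ := 1 - x with hh
      have hh1 : h ≤ 1 / 2 := by rw [hh]; linarith
      -- the scale
      obtain ⟨r, hr⟩ : ∃ r : ℕ, r = ⌈h ^ (-(4 / 3) : ℝ)⌉₊ := ⟨_, rfl⟩
      have hp1 : 1 ≤ h ^ (-(4 / 3) : ℝ) :=
        Real.one_le_rpow_of_pos_of_le_one_of_nonpos hh0 (by linarith) (by norm_num)
      have hr1 : 1 ≤ r := by
        rw [hr]
        exact Nat.one_le_ceil_iff.2 (by linarith)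
      have hr0 : (0:ℝ) < r := by exact_mod_cast hr1
      have hrn : r ≤ n := by
        rw [hr]
        apply Nat.ceil_le.2
        have h2 : N⁻¹ ≤ h := by
          rw [inv_le_iff_one_le_mul₀ (by linarith)]
          linarith
        have h3 := Real.rpow_le_rpow_of_nonpos (by positivity) h2
          (show (-(4 / 3) : ℝ) ≤ 0 by norm_num)
        refine h3.trans (le_of_eq ?_)
        rw [hN, ← Real.rpow_neg hn0.le, ← Real.rpow_mul hn0.le]
        norm_num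
      have hr2 : (r:ℝ) ≤ 2 * h ^ (-(4 / 3) : ℝ) := by
        have h2 := Nat.ceil_lt_add_one (show 0 ≤ h ^ (-(4 / 3) : ℝ) by linarith)
        rw [← hr] at h2
        linarith
      have hrh : (r:ℝ) ^ (-(3 / 4) : ℝ) ≤ h := by
        have h2 : h ^ (-(4 / 3) : ℝ) ≤ r := by rw [hr]; exact Nat.le_ceil _
        have h3 := Real.rpow_le_rpow_of_nonpos (by linarith) h2
          (show (-(3 / 4) : ℝ) ≤ 0 by norm_num)
        rw [← Real.rpow_mul hh0.le] at h3
        norm_num at h3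
        have h4 : (-(3 / 4) : ℝ) = -(3/4) := rfl
        exact h3
      have h5 : covx n x ≤ C0 * ((r:ℝ) / n) ^ (1 / 2 : ℝ) := by
        refine le_trans ?_ (H0 n r hr1 hrn)
        unfold covx wtn wt2
        apply Finset.sum_le_sum
        intro T _
        apply mul_le_mul_of_nonneg_left _ (sq_nonneg _)
        apply pow_le_pow_left₀ (by linarith)
        rw [hh] at hrh
        linarith
      have h6 : ((r:ℝ) / n) ^ (1 / 2 : ℝ) ≤ 4 * (1 + h * N) ^ (-(2 / 3) : ℝ) := by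
        have hhN : 0 < h * N := by positivity
        have h7 : (r:ℝ) / n ≤ 2 * (h * N) ^ (-(4 / 3) : ℝ) := by
          have h8 : (h * N) ^ (-(4 / 3) : ℝ) = h ^ (-(4 / 3) : ℝ) / n := by
            rw [Real.mul_rpow hh0.le (by positivity), hN, ← Real.rpow_mul hn0.le]
            norm_num
            rw [Real.rpow_neg_one]
            rfl
          rw [h8, ← mul_div_assoc]
          exact div_le_div_of_nonneg_right hr2 hn0.le
        have h8 : ((r:ℝ) / n) ^ (1 / 2 : ℝ) ≤ 2 ^ (1 / 2 : ℝ) * (h * N) ^ (-(2 / 3) : ℝ) := by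
          calc ((r:ℝ) / n) ^ (1 / 2 : ℝ) ≤ (2 * (h * N) ^ (-(4 / 3) : ℝ)) ^ (1 / 2 : ℝ) :=
                Real.rpow_le_rpow (by positivity) h7 (by norm_num)
            _ = _ := by
                rw [Real.mul_rpow (by norm_num) (by positivity), ← Real.rpow_mul hhN.le]
                norm_num
        have h9 : (2 * (h * N)) ^ (-(2 / 3) : ℝ) ≤ (1 + h * N) ^ (-(2 / 3) : ℝ) :=
          Real.rpow_le_rpow_of_nonpos (by linarith) (by linarith) (by norm_num)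
        rw [Real.mul_rpow (by norm_num) hhN.le] at h9
        have h10 : (2:ℝ) ^ (1 / 2 : ℝ) ≤ 4 * 2 ^ (-(2 / 3) : ℝ) := by
          have h11 : (4:ℝ) * 2 ^ (-(2 / 3) : ℝ) = 2 ^ (4 / 3 : ℝ) := by
            rw [show (4:ℝ) = 2 ^ (2:ℝ) by norm_num, ← Real.rpow_add (by norm_num)]
            norm_num
          rw [h11]
          exact Real.rpow_le_rpow_of_exponent_le (by norm_num) (by norm_num)
        calc ((r:ℝ) / n) ^ (1 / 2 : ℝ) ≤ 2 ^ (1 / 2 : ℝ) * (h * N) ^ (-(2 / 3) : ℝ) := h8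
          _ ≤ 4 * 2 ^ (-(2 / 3) : ℝ) * (h * N) ^ (-(2 / 3) : ℝ) :=
              mul_le_mul_of_nonneg_right h10 (by positivity)
          _ = 4 * (2 ^ (-(2 / 3) : ℝ) * (h * N) ^ (-(2 / 3) : ℝ)) := by ring
          _ ≤ _ := mul_le_mul_of_nonneg_left h9 (by norm_num)
      calc covx n x ≤ C0 * ((r:ℝ) / n) ^ (1 / 2 : ℝ) := h5
        _ ≤ C0 * (4 * (1 + h * N) ^ (-(2 / 3) : ℝ)) := mul_le_mul_of_nonneg_left h6 hC0.le
        _ ≤ _ := by
            have : 0 ≤ (1 + h * N) ^ (-(2 / 3) : ℝ) := by positivity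
            nlinarith
  refine ⟨4 * (4 * C0 + 4), by positivity, ?_⟩
  intro n x hn hx0 hx1
  have hn1 : (1:ℝ) ≤ n := by exact_mod_cast hn
  set N : ℝ := (n:ℝ) ^ (3 / 4 : ℝ) with hN
  have hN1 : 1 ≤ N := Real.one_le_rpow hn1 (by norm_num)
  have hpos : 0 ≤ (1 + (1 - x) * N) ^ (-(2 / 3) : ℝ) := by
    have : 0 ≤ (1 - x) * N := mul_nonneg (by linarith) (by linarith)
    positivity
  by_cases hx : 1 / 2 ≤ x
  · refine (key n x hn hx hx1).trans ?_
    have h2 : 1 ≤ 2 * x := by linarith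
    have h3 : 0 ≤ (4 * C0 + 4) * (1 + (1 - x) * N) ^ (-(2 / 3) : ℝ) := by positivity
    nlinarith
  · push Not at hx
    have h2 := covx_lin (n := n) hx0 hx.le
    have h3 := key n (1 / 2) hn le_rfl (by norm_num)
    have h4 : (1 + (1 - 1 / 2) * N) ^ (-(2 / 3) : ℝ) ≤
        2 * (1 + (1 - x) * N) ^ (-(2 / 3) : ℝ) := by
      have h5 : 0 ≤ (1 - x) * N := mul_nonneg (by linarith) (by linarith)
      have h6 : (1 + (1 - x) * N) ≤ 2 * (1 + (1 - 1 / 2) * N) := by nlinarith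
      have h7 := Real.rpow_le_rpow_of_nonpos (by linarith) h6
        (show (-(2 / 3) : ℝ) ≤ 0 by norm_num)
      rw [Real.mul_rpow (by norm_num) (by linarith)] at h7
      have h8 : (1:ℝ) / 2 ≤ 2 ^ (-(2 / 3) : ℝ) := by
        have h9 : (2:ℝ) ^ (-1 : ℝ) = 1 / 2 := by rw [Real.rpow_neg_one]; norm_num
        rw [← h9]
        exact Real.rpow_le_rpow_of_exponent_le (by norm_num) (by norm_num)
      have h10 : 0 ≤ (1 + (1 - 1 / 2) * N) ^ (-(2 / 3) : ℝ) := by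
        apply Real.rpow_nonneg
        linarith
      nlinarith
    calc covx n x ≤ 2 * x * covx n (1 / 2) := h2
      _ ≤ 2 * x * ((4 * C0 + 4) * (2 * (1 + (1 - x) * N) ^ (-(2 / 3) : ℝ))) := by
          apply mul_le_mul_of_nonneg_left _ (by linarith)
          refine h3.trans ?_
          exact mul_le_mul_of_nonneg_left h4 (by positivity)
      _ = _ := by ring

/-- Lower bound. -/
theorem covx_low (hlt : S_LT) : ∃ c : ℝ, 0 < c ∧ ∀ (n : ℕ) (x : ℝ),
    1 ≤ n → 0 ≤ x → x ≤ 1 →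
      c * (x * (1 + (1 - x) * (n:ℝ) ^ (3 / 4 : ℝ)) ^ (-(2 / 3) : ℝ)) ≤ covx n x := by
  obtain ⟨c, hc, H⟩ := hlt
  refine ⟨c / 8, by positivity, ?_⟩
  intro n x hn hx0 hx1
  have hn1 : (1:ℝ) ≤ n := by exact_mod_cast hn
  have hn0 : (0:ℝ) < n := by linarith
  set N : ℝ := (n:ℝ) ^ (3 / 4 : ℝ) with hN
  have hN1 : 1 ≤ N := Real.one_le_rpow hn1 (by norm_num)
  have hN0 : 0 < N := by linarith
  have hNn : (n:ℝ) ^ (-(1 / 2) : ℝ) = N ^ (-(2 / 3) : ℝ) := by
    rw [hN, ← Real.rpow_mul hn0.le]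
    norm_num
  have hsN : 0 ≤ (1 - x) * N := mul_nonneg (by linarith) (by linarith)
  have hpos : 0 < (1 + (1 - x) * N) ^ (-(2 / 3) : ℝ) := by
    apply Real.rpow_pos_of_pos
    linarith
  -- truncation
  have trunc : ∀ m : ℕ, 1 ≤ m → (m:ℝ) ≤ N →
      x ^ m * (c * ((m:ℝ) ^ (2 / 3 : ℝ) * N ^ (-(2 / 3) : ℝ))) ≤ covx n x := by
    intro m hm hmN
    have h2 := H n m hn hm hmN
    rw [hNn] at h2
    calc x ^ m * (c * ((m:ℝ) ^ (2 / 3 : ℝ) * N ^ (-(2 / 3) : ℝ))) ≤ x ^ m *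
          ∑ T ∈ (boxE n).powerset.filter (fun T => T ≠ ∅ ∧ T.card ≤ m), wt2 n T :=
          mul_le_mul_of_nonneg_left h2 (pow_nonneg hx0 _)
      _ = ∑ T ∈ (boxE n).powerset.filter (fun T => T ≠ ∅ ∧ T.card ≤ m), wt2 n T * x ^ m := by
          rw [Finset.mul_sum]
          apply Finset.sum_congr rfl
          intro T _
          ring
      _ ≤ ∑ T ∈ (boxE n).powerset.filter (fun T => T ≠ ∅ ∧ T.card ≤ m),
            wt2 n T * x ^ T.card := by
          apply Finset.sum_le_sum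
          intro T hT
          rw [mem_filter] at hT
          exact mul_le_mul_of_nonneg_left (pow_le_pow_of_le_one hx0 hx1 hT.2.2) (wt2_nonneg _ _)
      _ ≤ covx n x := by
          unfold covx
          apply Finset.sum_le_sum_of_subset_of_nonneg
          · intro T hT
            rw [mem_filter] at hT ⊢
            exact ⟨hT.1, hT.2.1⟩
          · intro T _ _
            exact mul_nonneg (wt2_nonneg _ _) (pow_nonneg hx0 _)
  by_cases hx : 1 / 2 ≤ x
  · -- the truncation level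
    obtain ⟨m, hm1, hmN, hmh, hmr⟩ : ∃ m : ℕ, 1 ≤ m ∧ (m:ℝ) ≤ N ∧ (1 - x) * m ≤ 1 / 2 ∧
        1 / 4 * (1 + (1 - x) * N)⁻¹ * N ≤ m := by
      have hinv1 : (1 + (1 - x) * N)⁻¹ ≤ 1 := inv_le_one_of_one_le₀ (by linarith)
      by_cases hs : (1 - x) * N ≤ 1 / 2
      · refine ⟨⌊N⌋₊, Nat.le_floor (by simpa using hN1), Nat.floor_le hN0.le, ?_, ?_⟩
        · have := Nat.floor_le hN0.le
          calc (1 - x) * (⌊N⌋₊ : ℝ) ≤ (1 - x) * N :=
                mul_le_mul_of_nonneg_left this (by linarith)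
            _ ≤ _ := hs
        · have h2 := Nat.lt_floor_add_one N
          have h3 : (1:ℝ) ≤ (⌊N⌋₊ : ℝ) := by
            exact_mod_cast Nat.le_floor (by simpa using hN1)
          have h4 : 1 / 4 * (1 + (1 - x) * N)⁻¹ * N ≤ 1 / 4 * 1 * N := by gcongr
          linarith
      · push Not at hs
        have hh : 0 < 1 - x := by
          by_contra hcon
          push Not at hcon
          nlinarith
        have ht1 : 1 ≤ 1 / (2 * (1 - x)) := by
          rw [le_div_iff₀ (by linarith)]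
          linarith
        have ht0 : 0 ≤ 1 / (2 * (1 - x)) := by linarith
        have hfl := Nat.floor_le ht0
        refine ⟨⌊1 / (2 * (1 - x))⌋₊, Nat.le_floor (by simpa using ht1), ?_, ?_, ?_⟩
        · refine hfl.trans ?_
          rw [div_le_iff₀ (by linarith)]
          linarith
        · calc (1 - x) * (⌊1 / (2 * (1 - x))⌋₊ : ℝ) ≤ (1 - x) * (1 / (2 * (1 - x))) :=
                mul_le_mul_of_nonneg_left hfl hh.le
            _ = 1 / 2 := by field_simp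
        · have h2 := Nat.lt_floor_add_one (1 / (2 * (1 - x)))
          have h3 : (1:ℝ) ≤ (⌊1 / (2 * (1 - x))⌋₊ : ℝ) := by
            exact_mod_cast Nat.le_floor (by simpa using ht1)
          have h4 : 1 / 4 * (1 + (1 - x) * N)⁻¹ * N ≤ 1 / 4 * (1 / (1 - x)) := by
            rw [mul_assoc]
            apply mul_le_mul_of_nonneg_left _ (by norm_num)
            rw [inv_mul_eq_div, div_le_div_iff₀ (by linarith) hh]
            linarith
          have h5 : 1 / 4 * (1 / (1 - x)) = 1 / 2 * (1 / (2 * (1 - x))) := by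
            field_simp
            norm_num
          linarith
    have h2 := trunc m hm1 hmN
    have hm0 : (0:ℝ) < m := by exact_mod_cast hm1
    have h3 : (1:ℝ) / 2 ≤ x ^ m := by
      have h4 := one_add_mul_le_pow (show (-2:ℝ) ≤ x - 1 by linarith) m
      have h5 : (1 + (x - 1)) = x := by ring
      rw [h5] at h4
      linarith
    have h4 : 1 / 4 * (1 + (1 - x) * N) ^ (-(2 / 3) : ℝ) ≤
        (m:ℝ) ^ (2 / 3 : ℝ) * N ^ (-(2 / 3) : ℝ) := by
      have h5 : 0 < 1 + (1 - x) * N := by linarith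
      have h6 : (1 / 4 * (1 + (1 - x) * N)⁻¹) ^ (2 / 3 : ℝ) ≤ ((m:ℝ) / N) ^ (2 / 3 : ℝ) := by
        apply Real.rpow_le_rpow (by positivity) _ (by norm_num)
        rw [le_div_iff₀ hN0]
        exact hmr
      have h6b : ((m:ℝ) / N) ^ (2 / 3 : ℝ) = (m:ℝ) ^ (2 / 3 : ℝ) * N ^ (-(2 / 3) : ℝ) := by
        rw [Real.div_rpow hm0.le hN0.le, Real.rpow_neg hN0.le, ← div_eq_mul_inv]
      rw [h6b, Real.mul_rpow (by norm_num) (by positivity),
        Real.inv_rpow h5.le, ← Real.rpow_neg h5.le] at h6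
      have h7 : (1:ℝ) / 4 ≤ (1 / 4 : ℝ) ^ (2 / 3 : ℝ) := by
        calc (1:ℝ) / 4 = (1 / 4 : ℝ) ^ (1 : ℝ) := (Real.rpow_one _).symm
          _ ≤ _ := Real.rpow_le_rpow_of_exponent_ge (by norm_num) (by norm_num) (by norm_num)
      refine le_trans ?_ h6
      exact mul_le_mul_of_nonneg_right h7 hpos.le
    calc c / 8 * (x * (1 + (1 - x) * N) ^ (-(2 / 3) : ℝ))
        ≤ c / 8 * (1 * (1 + (1 - x) * N) ^ (-(2 / 3) : ℝ)) := by gcongr
      _ = 1 / 2 * (c * (1 / 4 * (1 + (1 - x) * N) ^ (-(2 / 3) : ℝ))) := by ring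
      _ ≤ x ^ m * (c * ((m:ℝ) ^ (2 / 3 : ℝ) * N ^ (-(2 / 3) : ℝ))) := by
          apply mul_le_mul h3 _ (by positivity) (by positivity)
          exact mul_le_mul_of_nonneg_left h4 hc.le
      _ ≤ _ := h2
  · push Not at hx
    have h2 := trunc 1 le_rfl (by simpa using hN1)
    rw [pow_one, Nat.cast_one, Real.one_rpow, one_mul] at h2
    have h3 : (1 + (1 - x) * N) ^ (-(2 / 3) : ℝ) ≤ 2 * N ^ (-(2 / 3) : ℝ) := by
      have h4 : 1 / 2 * N ≤ 1 + (1 - x) * N := by nlinarith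
      have h5 := Real.rpow_le_rpow_of_nonpos (show (0:ℝ) < 1 / 2 * N by positivity) h4
        (show (-(2 / 3) : ℝ) ≤ 0 by norm_num)
      rw [Real.mul_rpow (by norm_num) hN0.le] at h5
      have h6 : (1 / 2 : ℝ) ^ (-(2 / 3) : ℝ) ≤ 2 := by
        have h7 : (1 / 2 : ℝ) ^ (-1 : ℝ) = 2 := by rw [Real.rpow_neg_one]; norm_num
        calc (1 / 2 : ℝ) ^ (-(2 / 3) : ℝ) ≤ (1 / 2 : ℝ) ^ (-1 : ℝ) :=
              Real.rpow_le_rpow_of_exponent_ge (by norm_num) (by norm_num) (by norm_num)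
          _ = 2 := h7
      have h8 : 0 < N ^ (-(2 / 3) : ℝ) := by positivity
      nlinarith
    have h8 : 0 < N ^ (-(2 / 3) : ℝ) := by positivity
    calc c / 8 * (x * (1 + (1 - x) * N) ^ (-(2 / 3) : ℝ))
        ≤ c / 8 * (x * (2 * N ^ (-(2 / 3) : ℝ))) := by gcongr
      _ ≤ x * (c * N ^ (-(2 / 3) : ℝ)) := by
          have : 0 ≤ x * (c * N ^ (-(2 / 3) : ℝ)) := by positivity
          nlinarith
      _ ≤ _ := h2

/-- Upper bound for the lower tail. -/
theorem tail_up (hch : S_CHAIN) (h1 : S_ONE) (hs : S_SUM) : ∃ C : ℝ, 0 < C ∧ ∀ n m : ℕ,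
    1 ≤ n → 1 ≤ m →
      ∑ T ∈ (boxE n).powerset.filter (fun T => T ≠ ∅ ∧ T.card ≤ m), wt2 n T ≤
        C * ((m:ℝ) ^ (2 / 3 : ℝ) * (n:ℝ) ^ (-(1 / 2) : ℝ)) := by
  obtain ⟨C, hC, H⟩ := covx_up hch h1 hs
  refine ⟨4 * C, by positivity, ?_⟩
  intro n m hn hm
  have hn1 : (1:ℝ) ≤ n := by exact_mod_cast hn
  have hn0 : (0:ℝ) < n := by linarith
  have hm1 : (1:ℝ) ≤ m := by exact_mod_cast hm
  have hm0 : (0:ℝ) < m := by linarith
  set N : ℝ := (n:ℝ) ^ (3 / 4 : ℝ) with hN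
  have hN1 : 1 ≤ N := Real.one_le_rpow hn1 (by norm_num)
  have hN0 : 0 < N := by linarith
  have hNn : (n:ℝ) ^ (-(1 / 2) : ℝ) = N ^ (-(2 / 3) : ℝ) := by
    rw [hN, ← Real.rpow_mul hn0.le]
    norm_num
  obtain ⟨x, hx⟩ : ∃ x : ℝ, x = 1 - 1 / (2 * m) := ⟨_, rfl⟩
  have hy0 : 0 < 1 / (2 * (m:ℝ)) := by positivity
  have hy1 : 1 / (2 * (m:ℝ)) ≤ 1 / 2 := by
    apply one_div_le_one_div_of_le (by norm_num)
    linarith
  have hx0 : 0 ≤ x := by rw [hx]; linarith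
  have hx1 : x ≤ 1 := by rw [hx]; linarith
  have h2 : ∑ T ∈ (boxE n).powerset.filter (fun T => T ≠ ∅ ∧ T.card ≤ m), wt2 n T ≤
      2 * covx n x := by
    unfold covx
    rw [Finset.mul_sum]
    have h3 : ∀ T ∈ (boxE n).powerset.filter (fun T => T ≠ ∅ ∧ T.card ≤ m), wt2 n T ≤
        2 * (wt2 n T * x ^ T.card) := by
      intro T hT
      rw [mem_filter] at hT
      have h4 := one_add_mul_le_pow (show (-2:ℝ) ≤ x - 1 by linarith) T.card
      have h5 : (1 + (x - 1)) = x := by ring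
      rw [h5] at h4
      have h6 : (T.card:ℝ) * (1 / (2 * m)) ≤ 1 / 2 := by
        have h7 : (T.card:ℝ) ≤ m := by exact_mod_cast hT.2.2
        calc (T.card:ℝ) * (1 / (2 * m)) ≤ m * (1 / (2 * m)) :=
              mul_le_mul_of_nonneg_right h7 hy0.le
          _ = 1 / 2 := by field_simp
      have h7 : (1:ℝ) / 2 ≤ x ^ T.card := by
        have h8 : x - 1 = -(1 / (2 * (m:ℝ))) := by rw [hx]; ring
        rw [h8] at h4
        linarith
      have h8 := wt2_nonneg n T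
      nlinarith
    refine (Finset.sum_le_sum h3).trans ?_
    apply Finset.sum_le_sum_of_subset_of_nonneg
    · intro T hT
      rw [mem_filter] at hT ⊢
      exact ⟨hT.1, hT.2.1⟩
    · intro T _ _
      exact mul_nonneg (by norm_num) (mul_nonneg (wt2_nonneg _ _) (pow_nonneg hx0 _))
  have h3 := H n x hn hx0 hx1
  have h4 : (1 - x) = 1 / (2 * m) := by rw [hx]; ring
  rw [h4] at h3
  have h5 : (1 + 1 / (2 * (m:ℝ)) * N) ^ (-(2 / 3) : ℝ) ≤
      2 * ((m:ℝ) ^ (2 / 3 : ℝ) * N ^ (-(2 / 3) : ℝ)) := by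
    have h6 : 1 / 2 * ((m:ℝ)⁻¹ * N) ≤ 1 + 1 / (2 * (m:ℝ)) * N := by
      have : 1 / (2 * (m:ℝ)) * N = 1 / 2 * ((m:ℝ)⁻¹ * N) := by
        field_simp
      linarith
    have h7 := Real.rpow_le_rpow_of_nonpos (by positivity) h6
      (show (-(2 / 3) : ℝ) ≤ 0 by norm_num)
    rw [Real.mul_rpow (by norm_num) (by positivity), Real.mul_rpow (by positivity) hN0.le,
      Real.inv_rpow hm0.le, ← Real.rpow_neg hm0.le, neg_neg] at h7
    refine h7.trans ?_
    have h8 : (1 / 2 : ℝ) ^ (-(2 / 3) : ℝ) ≤ 2 := by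
      have h7 : (1 / 2 : ℝ) ^ (-1 : ℝ) = 2 := by rw [Real.rpow_neg_one]; norm_num
      calc (1 / 2 : ℝ) ^ (-(2 / 3) : ℝ) ≤ (1 / 2 : ℝ) ^ (-1 : ℝ) :=
            Real.rpow_le_rpow_of_exponent_ge (by norm_num) (by norm_num) (by norm_num)
        _ = 2 := h7
    exact mul_le_mul_of_nonneg_right h8 (by positivity)
  have h6 : 0 ≤ (1 + 1 / (2 * (m:ℝ)) * N) ^ (-(2 / 3) : ℝ) := by positivity
  rw [hNn]
  calc _ ≤ 2 * covx n x := h2
    _ ≤ 2 * (C * (x * (1 + 1 / (2 * (m:ℝ)) * N) ^ (-(2 / 3) : ℝ))) := by linarith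
    _ ≤ 2 * (C * (1 * (2 * ((m:ℝ) ^ (2 / 3 : ℝ) * N ^ (-(2 / 3) : ℝ))))) := by gcongr
    _ = _ := by ring

end Pool.Agent.Y554.SN
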