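import Pool.Agent.Y554.SN.Stm
import Pool.Agent.Y197.NW.Ratio
import Pool.Agent.H389R2.NS.D3

/-! Project SN: sharp noise sensitivity, from `Y197.NW.ns_ratio`. -/

set_option autoImplicit false

namespace Pool.Agent.Y554.SN

open H974 H12S H985T H389NS Finset Pool.Agent.Y554.DP

theorem nss : S_NSS := by
  obtain ⟨C, c, κ, r0, hC, hc, hκ, hr0, hκr, H⟩ := Pool.Agent.Y197.NW.ns_ratio
  -- the scale of the noise is at most `M h ^ (-4/3)`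
  obtain ⟨M, hM⟩ : ∃ M : ℝ, M = (r0:ℝ) + (1 / κ) ^ (4 / 3 : ℝ) + 1 := ⟨_, rfl⟩
  have hr0R : (1:ℝ) ≤ r0 := by exact_mod_cast hr0
  have hM1 : 1 ≤ M := by
    have : 0 ≤ (1 / κ) ^ (4 / 3 : ℝ) := by positivity
    linarith
  have hM0 : 0 < M := by linarith
  have h43 : 0 < 4 / 3 * c := by positivity
  refine ⟨(C + 1) * M ^ c, 4 / 3 * c, by positivity, h43, ?_⟩
  intro n hn p S I J I' J' hD x hx0 hx1
  have hn1 : (1:ℝ) ≤ n := by exact_mod_cast hn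
  have hn0 : (0:ℝ) < n := by linarith
  obtain ⟨h, hh⟩ : ∃ h : ℝ, h = 1 - x := ⟨_, rfl⟩
  rw [← hh]
  have hh0 : 0 < h := by rw [hh]; linarith
  have hh1 : h ≤ 1 := by rw [hh]; linarith
  obtain ⟨r, hr⟩ : ∃ r : ℕ, r = max r0 ⌈(1 / (κ * h)) ^ (4 / 3 : ℝ)⌉₊ := ⟨_, rfl⟩
  have hrr0 : r0 ≤ r := by rw [hr]; exact le_max_left _ _
  have hr1 : 1 ≤ r := hr0.trans hrr0
  have hrp : (0:ℝ) < r := by exact_mod_cast hr1
  have hkh : 0 < κ * h := by positivity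
  have hrx : x ≤ 1 - 1 / (κ * (r:ℝ) ^ (3 / 4 : ℝ)) := by
    have h1 : (1 / (κ * h)) ^ (4 / 3 : ℝ) ≤ r := by
      refine (Nat.le_ceil _).trans ?_
      rw [hr]
      exact_mod_cast le_max_right _ _
    have h2 := Real.rpow_le_rpow (by positivity) h1 (show (0:ℝ) ≤ 3 / 4 by norm_num)
    rw [← Real.rpow_mul (by positivity)] at h2
    norm_num at h2
    have h3 : 1 / (κ * (r:ℝ) ^ (3 / 4 : ℝ)) ≤ h := by
      rw [div_le_iff₀ (by positivity)]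
      have h4 : (h⁻¹ * κ⁻¹) * (κ * h) = 1 := by field_simp
      calc (1:ℝ) = (h⁻¹ * κ⁻¹) * (κ * h) := h4.symm
        _ ≤ (r:ℝ) ^ (3 / 4 : ℝ) * (κ * h) := mul_le_mul_of_nonneg_right h2 hkh.le
        _ = _ := by ring
    linarith
  have hrM : (r:ℝ) ≤ M * h ^ (-(4 / 3) : ℝ) := by
    have hp1 : 1 ≤ h ^ (-(4 / 3) : ℝ) :=
      Real.one_le_rpow_of_pos_of_le_one_of_nonpos hh0 hh1 (by norm_num)
    have h1 : (r:ℝ) ≤ r0 + ((1 / (κ * h)) ^ (4 / 3 : ℝ) + 1) := by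
      have h2 : r ≤ r0 + ⌈(1 / (κ * h)) ^ (4 / 3 : ℝ)⌉₊ := by rw [hr]; omega
      have h3 : (r:ℝ) ≤ r0 + (⌈(1 / (κ * h)) ^ (4 / 3 : ℝ)⌉₊ : ℝ) := by exact_mod_cast h2
      have h4 := Nat.ceil_lt_add_one (show 0 ≤ (1 / (κ * h)) ^ (4 / 3 : ℝ) by positivity)
      linarith
    have h2 : (1 / (κ * h)) ^ (4 / 3 : ℝ) = (1 / κ) ^ (4 / 3 : ℝ) * h ^ (-(4 / 3) : ℝ) := by
      rw [Real.rpow_neg hh0.le, ← Real.inv_rpow hh0.le, ← Real.mul_rpow (by positivity)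
        (by positivity)]
      congr 1
      field_simp
    rw [h2] at h1
    have h3 : 0 ≤ (1 / κ) ^ (4 / 3 : ℝ) := by positivity
    calc (r:ℝ) ≤ r0 + ((1 / κ) ^ (4 / 3 : ℝ) * h ^ (-(4 / 3) : ℝ) + 1) := h1
      _ ≤ r0 * h ^ (-(4 / 3) : ℝ) + ((1 / κ) ^ (4 / 3 : ℝ) * h ^ (-(4 / 3) : ℝ) +
          1 * h ^ (-(4 / 3) : ℝ)) := by nlinarith
      _ = M * h ^ (-(4 / 3) : ℝ) := by rw [hM]; ring
  have hT : 0 < h * (n:ℝ) ^ (3 / 4 : ℝ) := by positivity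
  -- the ratio
  have hratio : ((r:ℝ) / n) ^ c ≤ M ^ c * (h * (n:ℝ) ^ (3 / 4 : ℝ)) ^ (-(4 / 3 * c)) := by
    have e1 : (h * (n:ℝ) ^ (3 / 4 : ℝ)) ^ (-(4 / 3 * c)) =
        (h ^ (-(4 / 3) : ℝ) / n) ^ c := by
      have e2 : (h * (n:ℝ) ^ (3 / 4 : ℝ)) ^ (-(4 / 3) : ℝ) = h ^ (-(4 / 3) : ℝ) / n := by
        rw [Real.mul_rpow hh0.le (by positivity), ← Real.rpow_mul hn0.le]
        norm_num
        rw [Real.rpow_neg_one]
        rfl
      rw [← e2, ← Real.rpow_mul hT.le]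
      congr 1
      ring
    rw [e1, ← Real.mul_rpow hM0.le (by positivity)]
    apply Real.rpow_le_rpow (by positivity) _ hc.le
    rw [← mul_div_assoc]
    exact div_le_div_of_nonneg_right hrM hn0.le
  have hpos : 0 ≤ M ^ c * (h * (n:ℝ) ^ (3 / 4 : ℝ)) ^ (-(4 / 3 * c)) := by positivity
  by_cases hrn : r ≤ n
  · refine (H n r hrr0 hrn p S I J I' J' hD x hx0 hrx).trans ?_
    calc C * ((r:ℝ) / n) ^ c ≤ C * (M ^ c * (h * (n:ℝ) ^ (3 / 4 : ℝ)) ^ (-(4 / 3 * c))) :=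
          mul_le_mul_of_nonneg_left hratio hC.le
      _ ≤ _ := by nlinarith
  · push Not at hrn
    have h1 : 1 ≤ ((r:ℝ) / n) ^ c := by
      apply Real.one_le_rpow _ hc.le
      rw [le_div_iff₀ hn0, one_mul]
      exact_mod_cast hrn.le
    have h2 : ∑ T ∈ (boxE n).powerset.filter (fun T => ¬ Disjoint T (boxE (n / 2))),
        sp p S (boxE n) (fC I J) T * x ^ T.card ≤ 1 := by
      refine le_trans ?_ (d3_sum_le_one hD.ok hD.sub hD.fair I J)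
      refine le_trans (Finset.sum_le_sum (g := fun T => sp p S (boxE n) (fC I J) T) ?_) ?_
      · intro T _
        have := pow_le_one₀ hx0 hx1.le (n := T.card)
        have h2 := d3_sp_nonneg hD.ok S (boxE n) (fC I J) T
        nlinarith
      · exact Finset.sum_le_sum_of_subset_of_nonneg (Finset.filter_subset _ _)
          (fun T _ _ => d3_sp_nonneg hD.ok _ _ _ _)
    nlinarith

end Pool.Agent.Y554.SN
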