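import Pool.Agent.Y554.SN.Top
import Pool.Agent.Y554.SN.NCov
import Pool.Agent.Y38.SN.Inf
import Pool.Agent.Y433.SN.LtC
import Pool.Agent.Y908.SN.Sumh
import Pool.Agent.Y179.SN.AB

/-! Project SN: the exact order of the covariance of the crossing events of two correlated
configurations and of the lower tail of the spectral sample (square `[-n, n]²`). -/

set_option autoImplicit false

namespace Pool.Agent.Y554.SN.Two

open H974 H12S H985T H389NS Finset Pool.Agent.Y554.DP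

open Pool.Agent.Y554.SN.Res (edges g expect coef specP)

theorem lt : S_LT := Y433.SN.lt chain Y38.SN.inf Y908.SN.sumh Y179.SN.uua

/-- Expectation for a pair of configurations: every edge of the square is open with probability
`1/2` in each of them, and has the same state in both with probability `(1 + x) / 2`. -/
noncomputable def pairE (n : ℕ) (x : ℝ) (h : Finset Res.Edge → Finset Res.Edge → ℝ) : ℝ :=
  ∑ F ∈ (edges n).powerset, ∑ F' ∈ (edges n).powerset,
    (∏ e ∈ edges n, if (e ∈ F ↔ e ∈ F') then (1 + x) / 4 else (1 - x) / 4) * h F F'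

theorem pair_eq (n : ℕ) (x : ℝ) (h : Finset Res.Edge → Finset Res.Edge → ℝ) :
    pairE n x h = E2 (fun _ => x) (boxE n) h := by
  unfold pairE E2
  rw [Res.edges_eq]

/-- covariance of the crossing events -/
theorem cov_eq (n : ℕ) (x : ℝ) :
    pairE n x (fun F F' => g n F * g n F') - expect n (g n) ^ 2 = covx n x := by
  rw [pair_eq]
  have h1 : (fun F F' : Finset Edg => g n F * g n F') =
      fun F F' => fC (Lf n) (Rt n) F * fC (Lf n) (Rt n) F' := by
    funext F F'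
    rw [Res.g_eq, Res.g_eq]
  have h2 : expect n (g n) = wal (boxE n) (fC (Lf n) (Rt n)) ∅ := by
    rw [Res.expect_eq]
    unfold wal
    apply Ex_congr
    intro F _
    unfold chi
    rw [Res.g_eq, Finset.inter_empty, Finset.card_empty, pow_zero, one_mul]
  rw [h1, E2_wal, h2]
  unfold covx wt2
  have h3 : ∀ T : Finset Edg, wal (boxE n) (fC (Lf n) (Rt n)) T *
      wal (boxE n) (fC (Lf n) (Rt n)) T * ∏ e ∈ T, x =
      (wal (boxE n) (fC (Lf n) (Rt n)) T) ^ 2 * x ^ T.card := by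
    intro T
    rw [Finset.prod_const]
    ring
  rw [Finset.sum_congr rfl (fun T _ => h3 T), Finset.sum_filter,
    ← Finset.sum_erase_add _ _ (Finset.empty_mem_powerset (boxE n)),
    ← Finset.sum_erase_add (a := (∅ : Finset Edg)) (s := (boxE n).powerset)
      (f := fun T => if T ≠ ∅ then
        (wal (boxE n) (fC (Lf n) (Rt n)) T) ^ 2 * x ^ T.card else 0)
      (h := Finset.empty_mem_powerset (boxE n))]
  rw [if_neg (by simp : ¬ ((∅ : Finset Edg) ≠ ∅)), Finset.card_empty, pow_zero, mul_one, add_zero]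
  rw [add_sub_cancel_right]
  apply Finset.sum_congr rfl
  intro T hT
  rw [Finset.mem_erase] at hT
  rw [if_pos hT.1]

/-- The exact order of the covariance. -/
theorem cov : ∃ c C : ℝ, 0 < c ∧ 0 < C ∧ ∀ (n : ℕ) (x : ℝ), 1 ≤ n → 0 ≤ x → x ≤ 1 →
    c * (x * (1 + (1 - x) * (n : ℝ) ^ (3 / 4 : ℝ)) ^ (-(2 / 3) : ℝ)) ≤
      pairE n x (fun F F' => g n F * g n F') - expect n (g n) ^ 2 ∧
    pairE n x (fun F F' => g n F * g n F') - expect n (g n) ^ 2 ≤
      C * (x * (1 + (1 - x) * (n : ℝ) ^ (3 / 4 : ℝ)) ^ (-(2 / 3) : ℝ)) := by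
  obtain ⟨C, hC, H1⟩ := covx_up chain Y286.SN.one Y179.SN.sumqc
  obtain ⟨c, hc, H2⟩ := covx_low lt
  refine ⟨c, C, hc, hC, fun n x hn h0 h1 => ?_⟩
  rw [cov_eq]
  exact ⟨H2 n x hn h0 h1, H1 n x hn h0 h1⟩

/-- The exact order of the lower tail of the size of the spectral sample. -/
theorem tail : ∃ c C : ℝ, 0 < c ∧ 0 < C ∧ ∀ n m : ℕ, 1 ≤ m → (m : ℝ) ≤ (n : ℝ) ^ (3 / 4 : ℝ) →
    c * ((m : ℝ) / (n : ℝ) ^ (3 / 4 : ℝ)) ^ (2 / 3 : ℝ) ≤
      specP n (fun S => S ≠ ∅ ∧ S.card ≤ m) ∧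
    specP n (fun S => S ≠ ∅ ∧ S.card ≤ m) ≤
      C * ((m : ℝ) / (n : ℝ) ^ (3 / 4 : ℝ)) ^ (2 / 3 : ℝ) := by
  obtain ⟨c, hc, H1⟩ := lt
  obtain ⟨C, hC, H2⟩ := tail_up chain Y286.SN.one Y179.SN.sumqc
  refine ⟨c, 2 * C, hc, by positivity, ?_⟩
  intro n m hm hmn
  have hm1 : (1:ℝ) ≤ m := by exact_mod_cast hm
  have hn : 1 ≤ n := by
    by_contra hcon
    have h0 : n = 0 := by omega
    rw [h0, Nat.cast_zero, Real.zero_rpow (by norm_num)] at hmn
    linarith
  have hn0 : (0:ℝ) < n := by exact_mod_cast hn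
  have he : ((m : ℝ) / (n : ℝ) ^ (3 / 4 : ℝ)) ^ (2 / 3 : ℝ) =
      (m:ℝ) ^ (2 / 3 : ℝ) * (n:ℝ) ^ (-(1 / 2) : ℝ) := by
    rw [Real.div_rpow (by positivity) (by positivity), ← Real.rpow_mul hn0.le,
      show (3 / 4 * (2 / 3) : ℝ) = 1 / 2 by norm_num, Real.rpow_neg hn0.le, ← div_eq_mul_inv]
  rw [he]
  have hh := Res.expect_half hn
  have hle1 : expect n (fun F => (g n F) ^ 2) ≤ 1 := by
    rw [Res.expect_eq]
    have : Ex hp (boxE n) (fun F => (g n F) ^ 2) ≤ Ex hp (boxE n) (fun _ => (1:ℝ)) := by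
      apply Ex_mono (fun e => by norm_num [hp])
      intro F _
      rw [Res.g_eq]
      unfold fC
      have h1 := ind_nonneg (Cn (Lf n) (Rt n) (↑F : Set Edg))
      have h2 := ind_le_one (Cn (Lf n) (Rt n) (↑F : Set Edg))
      nlinarith
    rw [Ex_const] at this
    exact this
  constructor
  · refine (H1 n m hn hm hmn).trans ?_
    unfold specP
    rw [Res.edges_eq]
    have e1 : ∀ S : Finset Edg, wt2 n S ≤ (coef n S) ^ 2 / expect n (fun F => (g n F) ^ 2) := by
      intro S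
      rw [Res.coef_sq, le_div_iff₀ (by linarith)]
      unfold wt2
      nlinarith [sq_nonneg (wal (boxE n) (fC (Lf n) (Rt n)) S)]
    refine (Finset.sum_le_sum (fun S _ => e1 S)).trans (le_of_eq ?_)
    apply Finset.sum_congr _ (fun _ _ => rfl)
    ext S
    simp only [mem_filter]
  · classical
    refine (Res.specP_bound hn _ (fun S => S ≠ ∅ ∧ S.card ≤ m) (fun _ h => h)).trans ?_
    have h3 := H2 n m hn hm
    unfold wt2 at h3
    linarith

end Pool.Agent.Y554.SN.Two
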